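import Pool.Agent.DUC.Defs

/-!
# DUC/Body: the domain is compact, the finiteness of reduced forms

PLAN.  In `Kd δ`: `y > 0`, `x² ≤ 1/4`, `1 ≤ x² + y²` give `y² ≥ 3/4`; conversely `Kd δ` is the closed set with
`0 ≤ y` in place of `0 < y`.  From `4 a⁴ y² (w² + y²)² ≤ 1`: `4 δ⁴ y⁶ ≤ 1`, `(27/16) a⁴ ≤ 1`, `3 δ⁴ w⁴ ≤ 1`: bounded.  `parF` is
continuous, `Sd_eq`.
`RF`: if `castv ℝ v = par a x w y` then `a = v 0` is a positive integer, so `a ≥ 1`, and `4 a⁴ y² (w² + y²)² = -disc ≤ Y`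
(`disc_par`, `disc_castv`): `(27/16) a⁴ ≤ Y`, and `a, x, w, y` are bounded in terms of `Y`, so the coefficients `v i`
are bounded integers.
-/

set_option autoImplicit false

namespace Pool.Agent.DUC

private theorem Body_y2 {x y : ℝ} (h1 : -(1 / 2) ≤ x) (h2 : x ≤ 0) (h3 : 1 ≤ x ^ 2 + y ^ 2) :
    3 / 4 ≤ y ^ 2 := by
  nlinarith [mul_nonneg (by linarith : (0 : ℝ) ≤ x + 1 / 2) (by linarith : (0 : ℝ) ≤ -x)]

/-- the three lower bounds of `4 a⁴ y² (w² + y²)²` -/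
private theorem Body_low {a x w y Z : ℝ} (h1 : -(1 / 2) ≤ x) (h2 : x ≤ 0) (h3 : 1 ≤ x ^ 2 + y ^ 2)
    (hZ : 4 * a ^ 4 * y ^ 2 * (w ^ 2 + y ^ 2) ^ 2 ≤ Z) :
    27 / 16 * a ^ 4 ≤ Z ∧ 3 * a ^ 4 * w ^ 4 ≤ Z ∧ 4 * a ^ 4 * (y ^ 2) ^ 3 ≤ Z := by
  have hy : 3 / 4 ≤ y ^ 2 := Body_y2 h1 h2 h3
  have ha : 0 ≤ a ^ 4 := by positivity
  have hw : 0 ≤ w ^ 2 := sq_nonneg w
  have hy0 : 0 ≤ y ^ 2 := sq_nonneg y
  have e1 : (27 / 64 : ℝ) ≤ y ^ 2 * (w ^ 2 + y ^ 2) ^ 2 := by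
    have : (9 / 16 : ℝ) ≤ (w ^ 2 + y ^ 2) ^ 2 := by nlinarith
    calc (27 / 64 : ℝ) = 3 / 4 * (9 / 16) := by norm_num
      _ ≤ y ^ 2 * (w ^ 2 + y ^ 2) ^ 2 := mul_le_mul hy this (by norm_num) hy0
  have e2 : 3 / 4 * w ^ 4 ≤ y ^ 2 * (w ^ 2 + y ^ 2) ^ 2 := by
    have : w ^ 4 ≤ (w ^ 2 + y ^ 2) ^ 2 := by nlinarith
    exact mul_le_mul hy this (by positivity) hy0
  have e3 : (y ^ 2) ^ 3 ≤ y ^ 2 * (w ^ 2 + y ^ 2) ^ 2 := by
    have : (y ^ 2) ^ 2 ≤ (w ^ 2 + y ^ 2) ^ 2 := by nlinarith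
    calc (y ^ 2) ^ 3 = y ^ 2 * (y ^ 2) ^ 2 := by ring
      _ ≤ y ^ 2 * (w ^ 2 + y ^ 2) ^ 2 := mul_le_mul_of_nonneg_left this hy0
  have hZ' : 4 * a ^ 4 * (y ^ 2 * (w ^ 2 + y ^ 2) ^ 2) ≤ Z := by
    calc _ = 4 * a ^ 4 * y ^ 2 * (w ^ 2 + y ^ 2) ^ 2 := by ring
      _ ≤ Z := hZ
  have h4 : 0 ≤ 4 * a ^ 4 := by positivity
  refine ⟨?_, ?_, ?_⟩
  · have := mul_le_mul_of_nonneg_left e1 h4
    linarith
  · have := mul_le_mul_of_nonneg_left e2 h4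
    linarith
  · have := mul_le_mul_of_nonneg_left e3 h4
    linarith

/-- `t ≤ 1 + t ^ 4` -/
private theorem Body_le4 (t : ℝ) : |t| ≤ 1 + t ^ 4 := by
  rw [abs_le]
  constructor
  · nlinarith [sq_nonneg (t ^ 2 - 1 / 2), sq_nonneg (t + 1 / 2), sq_nonneg (t ^ 2)]
  · nlinarith [sq_nonneg (t ^ 2 - 1 / 2), sq_nonneg (t - 1 / 2), sq_nonneg (t ^ 2)]

private theorem Body_le6 (t : ℝ) : |t| ≤ 1 + (t ^ 2) ^ 3 := by
  have h1 : |t| ≤ 1 + t ^ 2 := by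
    rw [abs_le]
    constructor
    · nlinarith [sq_nonneg (t + 1 / 2)]
    · nlinarith [sq_nonneg (t - 1 / 2)]
  by_cases h : t ^ 2 ≤ 1
  · rcases le_or_gt |t| 1 with h2 | h2
    · have : 0 ≤ (t ^ 2) ^ 3 := by positivity
      linarith
    · exfalso
      have : 1 < t ^ 2 := by
        have := mul_self_lt_mul_self (by norm_num : (0 : ℝ) ≤ 1) h2
        rw [abs_mul_abs_self] at this
        nlinarith
      linarith
  · have h' : 1 ≤ t ^ 2 := by linarith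
    have : t ^ 2 ≤ (t ^ 2) ^ 3 := le_self_pow₀ h' (by norm_num)
    linarith

private theorem Body_Kd_closed (δ : ℝ) : IsClosed (Kd δ) := by
  have h : Kd δ = {p : Fin 4 → ℝ | δ ≤ p 0} ∩ {p | -(1 / 2) ≤ p 1} ∩ {p | p 1 ≤ 0} ∩ {p | 0 ≤ p 3} ∩
      {p | 1 ≤ p 1 ^ 2 + p 3 ^ 2} ∩ {p | 4 * p 0 ^ 4 * p 3 ^ 2 * (p 2 ^ 2 + p 3 ^ 2) ^ 2 ≤ 1} := by
    ext p
    simp only [Kd, Set.mem_setOf_eq, Set.mem_inter_iff]
    constructor
    · rintro ⟨h1, h2, h3, h4, h5, h6⟩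
      exact ⟨⟨⟨⟨⟨h1, h2⟩, h3⟩, h4.le⟩, h5⟩, h6⟩
    · rintro ⟨⟨⟨⟨⟨h1, h2⟩, h3⟩, h4⟩, h5⟩, h6⟩
      refine ⟨h1, h2, h3, lt_of_le_of_ne h4 ?_, h5, h6⟩
      intro h0
      have := Body_y2 h2 h3 h5
      rw [← h0] at this
      norm_num at this
  rw [h]
  refine IsClosed.inter (IsClosed.inter (IsClosed.inter (IsClosed.inter (IsClosed.inter ?_ ?_) ?_) ?_) ?_) ?_
  · exact isClosed_le (by fun_prop) (by fun_prop)
  · exact isClosed_le (by fun_prop) (by fun_prop)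
  · exact isClosed_le (by fun_prop) (by fun_prop)
  · exact isClosed_le (by fun_prop) (by fun_prop)
  · exact isClosed_le (by fun_prop) (by fun_prop)
  · exact isClosed_le (by fun_prop) (by fun_prop)

theorem isCompact_Kd (δ : ℝ) (hδ : 0 < δ) : IsCompact (Kd δ) := by
  have hc : IsCompact (Set.univ.pi fun _ : Fin 4 => Set.Icc (-(2 + 1 / δ ^ 4)) (2 + 1 / δ ^ 4)) :=
    isCompact_univ_pi fun _ => isCompact_Icc
  refine hc.of_isClosed_subset (Body_Kd_closed δ) ?_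
  rintro p ⟨h1, h2, h3, h4, h5, h6⟩ i -
  obtain ⟨b1, b2, b3⟩ := Body_low (a := p 0) (w := p 2) h2 h3 h5 h6
  have hd4 : 0 < δ ^ 4 := by positivity
  have hi : 0 < 1 / δ ^ 4 := by positivity
  have hdi : δ ^ 4 * (1 / δ ^ 4) = 1 := by field_simp
  have hp4 : δ ^ 4 ≤ p 0 ^ 4 := pow_le_pow_left₀ hδ.le h1 4
  have c2 : 3 * δ ^ 4 * p 2 ^ 4 ≤ 1 := by
    refine le_trans ?_ b2
    have : 0 ≤ p 2 ^ 4 := by positivity
    nlinarith [mul_le_mul_of_nonneg_right hp4 this]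
  have c3 : 4 * δ ^ 4 * (p 3 ^ 2) ^ 3 ≤ 1 := by
    refine le_trans ?_ b3
    have : 0 ≤ (p 3 ^ 2) ^ 3 := by positivity
    nlinarith [mul_le_mul_of_nonneg_right hp4 this]
  have d0 : |p 0| ≤ 2 + 1 / δ ^ 4 := by
    have := Body_le4 (p 0)
    linarith
  have d1 : |p 1| ≤ 2 + 1 / δ ^ 4 := by
    rw [abs_le]
    constructor <;> linarith
  have d2 : |p 2| ≤ 2 + 1 / δ ^ 4 := by
    have h := Body_le4 (p 2)
    have : p 2 ^ 4 ≤ 1 / δ ^ 4 := by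
      rw [le_div_iff₀ hd4]
      have : 0 ≤ δ ^ 4 * p 2 ^ 4 := by positivity
      linarith
    linarith
  have d3 : |p 3| ≤ 2 + 1 / δ ^ 4 := by
    have h := Body_le6 (p 3)
    have : (p 3 ^ 2) ^ 3 ≤ 1 / δ ^ 4 := by
      rw [le_div_iff₀ hd4]
      have : 0 ≤ δ ^ 4 * (p 3 ^ 2) ^ 3 := by positivity
      linarith
    linarith
  rw [Set.mem_Icc, ← abs_le]
  fin_cases i
  · exact d0
  · exact d1
  · exact d2
  · exact d3

private theorem Body_parF_cont : Continuous parF := by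
  refine continuous_pi fun i => ?_
  fin_cases i <;> simp only [parF, par] <;> (try simp) <;> fun_prop

theorem isCompact_Sd (δ : ℝ) (hδ : 0 < δ) : IsCompact (Sd δ) := by
  rw [Sd_eq]
  exact (isCompact_Kd δ hδ).image Body_parF_cont

/-- the data of an element of `RF Y` -/
private theorem Body_data {Y : ℝ} {v : Fin 4 → ℤ} (hv : v ∈ RF Y) :
    ∃ a x w y : ℝ, 1 ≤ v 0 ∧ a = v 0 ∧ -(1 / 2) ≤ x ∧ x ≤ 0 ∧ castv ℝ v = par a x w y ∧
      27 / 16 * a ^ 4 ≤ Y ∧ 3 * a ^ 4 * w ^ 4 ≤ Y ∧ 4 * a ^ 4 * (y ^ 2) ^ 3 ≤ Y := by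
  obtain ⟨⟨a, x, w, y, h0, h1, h2, h3, h4, h5⟩, hY⟩ := hv
  have ha : a = v 0 := by
    have := congrFun h5 0
    simpa [castv, par] using this.symm
  have hv0 : 1 ≤ v 0 := by
    have : (0 : ℝ) < v 0 := ha ▸ h0
    exact_mod_cast this
  have hd : 4 * a ^ 4 * y ^ 2 * (w ^ 2 + y ^ 2) ^ 2 ≤ Y := by
    have e := disc_castv ℝ v
    rw [h5, disc_par] at e
    rw [← e] at hY
    linarith
  exact ⟨a, x, w, y, hv0, ha, h1, h2, h5, Body_low h1 h2 h4 hd⟩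

theorem RF_lead (Y : ℝ) (v : Fin 4 → ℤ) (hv : v ∈ RF Y) : 1 ≤ v 0 ∧ 27 / 16 * (v 0 : ℝ) ^ 4 ≤ Y := by
  obtain ⟨a, x, w, y, h1, h2, -, -, -, h3, -⟩ := Body_data hv
  exact ⟨h1, h2 ▸ h3⟩

theorem RF_finite (Y : ℝ) : (RF Y).Finite := by
  obtain ⟨M, hM⟩ := exists_nat_ge ((1 + |Y|) * (2 + (1 + |Y|)) * (1 + (1 + |Y|) ^ 2) * 4)
  refine (Set.finite_Icc (fun _ : Fin 4 => -(M : ℤ)) (fun _ => (M : ℤ))).subset ?_
  intro v hv
  obtain ⟨a, x, w, y, hv0, ha, hx1, hx2, hp, b1, b2, b3⟩ := Body_data hv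
  have ha1 : 1 ≤ a := by
    rw [ha]
    exact_mod_cast hv0
  have ha4 : 1 ≤ a ^ 4 := one_le_pow₀ ha1
  have hYY : Y ≤ |Y| := le_abs_self Y
  set C : ℝ := 1 + |Y| with hC
  have hC1 : 1 ≤ C := by
    have := abs_nonneg Y
    linarith
  have ha' : |a| ≤ C := by
    have := Body_le4 a
    have h : 0 ≤ a ^ 4 := by positivity
    linarith
  have hw' : |w| ≤ C := by
    have := Body_le4 w
    have h : 0 ≤ w ^ 4 := by positivity
    have : w ^ 4 ≤ a ^ 4 * w ^ 4 := le_mul_of_one_le_left h ha4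
    linarith
  have hy' : |y| ≤ C := by
    have := Body_le6 y
    have h : 0 ≤ (y ^ 2) ^ 3 := by positivity
    have : (y ^ 2) ^ 3 ≤ a ^ 4 * (y ^ 2) ^ 3 := le_mul_of_one_le_left h ha4
    linarith
  have hx' : |x| ≤ 1 / 2 := by
    rw [abs_le]
    constructor <;> linarith
  have hCC : 0 ≤ C := by linarith
  have hq : |x ^ 2 + y ^ 2| ≤ 1 + C ^ 2 := by
    have h1 : x ^ 2 ≤ 1 := by
      rw [← sq_abs]
      nlinarith [abs_nonneg x]
    have h2 : y ^ 2 ≤ C ^ 2 := by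
      rw [← sq_abs]
      exact pow_le_pow_left₀ (abs_nonneg _) hy' 2
    rw [abs_of_nonneg (by positivity)]
    linarith
  have hxw : |x + w| ≤ 1 + C := (abs_add_le _ _).trans (by linarith)
  have h3xw : |3 * x + w| ≤ 2 + C := by
    refine (abs_add_le _ _).trans ?_
    rw [abs_mul]
    norm_num
    linarith
  have key : ∀ i, |(v i : ℝ)| ≤ C * (2 + C) * (1 + C ^ 2) * 4 := by
    have hbig : (1 : ℝ) ≤ 1 + C ^ 2 := by nlinarith
    have hbig2 : C ≤ C * (2 + C) := by nlinarith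
    have hT : 0 ≤ C * (2 + C) := by positivity
    have hT2 : C * (2 + C) ≤ C * (2 + C) * (1 + C ^ 2) := le_mul_of_one_le_right hT hbig
    intro i
    have e : (v i : ℝ) = par a x w y i := by
      rw [← hp]
      rfl
    rw [e]
    fin_cases i
    · simp only [par, Fin.zero_eta, Matrix.cons_val_zero]
      linarith
    · have : par a x w y 1 = -a * (3 * x + w) := by simp [par]
      simp only [Fin.mk_one]
      rw [this, abs_mul, abs_neg]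
      have := mul_le_mul ha' h3xw (abs_nonneg _) hCC
      linarith
    · have : par a x w y 2 = a * (x ^ 2 + y ^ 2 + 2 * x * (x + w)) := by simp [par]
      simp only [Fin.reduceFinMk]
      rw [this, abs_mul]
      have h1 : |x ^ 2 + y ^ 2 + 2 * x * (x + w)| ≤ (2 + C) * (1 + C ^ 2) * 4 := by
        refine (abs_add_le _ _).trans ?_
        have h2 : |2 * x * (x + w)| ≤ 1 * (1 + C) := by
          rw [abs_mul]
          refine mul_le_mul ?_ hxw (abs_nonneg _) (by norm_num)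
          rw [abs_mul]
          norm_num
          linarith
        have h3 : (1 : ℝ) + C ^ 2 ≤ (2 + C) * (1 + C ^ 2) := by nlinarith
        have h4 : (1 : ℝ) + C ≤ (2 + C) * (1 + C ^ 2) := by nlinarith
        nlinarith
      have := mul_le_mul ha' h1 (abs_nonneg _) hCC
      calc _ ≤ C * ((2 + C) * (1 + C ^ 2) * 4) := this
        _ = _ := by ring
    · have : par a x w y 3 = -a * (x + w) * (x ^ 2 + y ^ 2) := by simp [par]
      simp only [Fin.reduceFinMk]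
      rw [this, abs_mul, abs_mul, abs_neg]
      have h1 := mul_le_mul (mul_le_mul ha' hxw (abs_nonneg _) hCC) hq (abs_nonneg _) (by positivity)
      have h2 : C * (1 + C) * (1 + C ^ 2) ≤ C * (2 + C) * (1 + C ^ 2) := by
        refine mul_le_mul_of_nonneg_right ?_ (by positivity)
        nlinarith
      linarith
  have key2 : ∀ i, |(v i : ℝ)| ≤ M := fun i => (key i).trans hM
  constructor
  · intro i
    have := (abs_le.1 (key2 i)).1
    exact_mod_cast this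
  · intro i
    have := (abs_le.1 (key2 i)).2
    exact_mod_cast this

end Pool.Agent.DUC
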