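import Pool.Agent.DUC.Defs

/-!
# DUC/Cube: lattice points in a large dilate of a compact set

PLAN.  For `v` in the set put `C v = {z : Fin 4 → ℝ | ∀ i, v i ≤ z i ∧ z i < v i + M}` (volume `M⁴`); for different `v` in
the same class mod `M` these boxes are disjoint.  All of them lie in `L • cthickening (M/L) S` (sup metric on
`Fin 4 → ℝ`), whose volume is `L⁴ * volume (cthickening (M/L) S)` (`Measure.addHaar_smul`).  Bounded, so the set is
finite, and `ncard * M⁴ ≤ L⁴ vol (cthickening (M/L) S)`.  By `tendsto_measure_cthickening_of_isCompact` the volume of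
the thickening tends to `volume S` as the radius tends to `0`; choose `L₀` (independent of the class `r`).
-/

set_option autoImplicit false

namespace Pool.Agent.DUC

open MeasureTheory
open scoped Pointwise

/-- the box at `v` -/
private def Cube_box (M : ℕ) (v : Fin 4 → ℤ) : Set (Fin 4 → ℝ) :=
  Set.pi Set.univ fun i => Set.Ico (v i : ℝ) ((v i : ℝ) + M)

private theorem Cube_vol (M : ℕ) (v : Fin 4 → ℤ) : volume (Cube_box M v) = ENNReal.ofReal ((M : ℝ) ^ 4) := by
  rw [Cube_box, Real.volume_pi_Ico]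
  simp only [add_sub_cancel_left, Finset.prod_const, Finset.card_univ, Fintype.card_fin]
  rw [ENNReal.ofReal_pow (Nat.cast_nonneg M)]

private theorem Cube_disj (M : ℕ) {v v' : Fin 4 → ℤ} (h : castv (ZMod M) v = castv (ZMod M) v')
    {z : Fin 4 → ℝ} (h1 : z ∈ Cube_box M v) (h2 : z ∈ Cube_box M v') : v = v' := by
  funext i
  have a1 := h1 i (Set.mem_univ i)
  have a2 := h2 i (Set.mem_univ i)
  simp only [Set.mem_Ico] at a1 a2
  have b1 : v i < v' i + M := by
    have : (v i : ℝ) < (v' i : ℝ) + M := lt_of_le_of_lt a1.1 a2.2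
    exact_mod_cast this
  have b2 : v' i < v i + M := by
    have : (v' i : ℝ) < (v i : ℝ) + M := lt_of_le_of_lt a2.1 a1.2
    exact_mod_cast this
  have h3 : (M : ℤ) ∣ v' i - v i := by
    have h4 := congrFun h i
    simp only [castv] at h4
    exact (ZMod.intCast_eq_intCast_iff_dvd_sub _ _ _).1 h4
  have h5 : v' i - v i = 0 := by
    apply Int.eq_zero_of_abs_lt_dvd h3
    rw [abs_lt]
    constructor <;> linarith
  linarith

theorem count_compact (S : Set (Fin 4 → ℝ)) (hS : IsCompact S) (M : ℕ) [NeZero M] (ε : ℝ) (hε : 0 < ε) :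
    ∃ L₀ : ℝ, 0 < L₀ ∧ ∀ L : ℝ, L₀ ≤ L → ∀ r : Fin 4 → ZMod M,
      {v : Fin 4 → ℤ | castv (ZMod M) v = r ∧ (fun i => (v i : ℝ) / L) ∈ S}.Finite ∧
      ({v : Fin 4 → ℤ | castv (ZMod M) v = r ∧ (fun i => (v i : ℝ) / L) ∈ S}.ncard : ℝ) * (M : ℝ) ^ 4 ≤
        (volume.real S + ε) * L ^ 4 := by
  have hM : (0 : ℝ) < M := by
    have := NeZero.pos M
    exact_mod_cast this
  have hfin : volume S ≠ ⊤ := hS.measure_lt_top.ne
  have hlim := tendsto_measure_cthickening_of_isCompact (μ := (volume : Measure (Fin 4 → ℝ))) hS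
  have hlt : volume S < ENNReal.ofReal (volume.real S + ε) := by
    rw [← ENNReal.ofReal_toReal hfin]
    exact (ENNReal.ofReal_lt_ofReal_iff (by positivity)).2 (by simp [Measure.real, hε])
  obtain ⟨δ, hδ, hd⟩ := Metric.eventually_nhds_iff.1 (hlim.eventually (gt_mem_nhds hlt))
  refine ⟨2 * M / δ, by positivity, fun L hL r => ?_⟩
  have hL0 : 0 < L := lt_of_lt_of_le (by positivity) hL
  have hML : (M : ℝ) / L < δ := by
    rw [div_lt_iff₀ hL0]
    have : 2 * M / δ * δ ≤ L * δ := mul_le_mul_of_nonneg_right hL hδ.le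
    rw [div_mul_cancel₀ _ hδ.ne'] at this
    linarith
  have hvol : volume (Metric.cthickening ((M : ℝ) / L) S) < ENNReal.ofReal (volume.real S + ε) := by
    apply hd
    rw [Real.dist_eq, sub_zero, abs_of_pos (by positivity)]
    exact hML
  set A := {v : Fin 4 → ℤ | castv (ZMod M) v = r ∧ (fun i => (v i : ℝ) / L) ∈ S} with hA
  have hAfin : A.Finite := by
    obtain ⟨R, hR⟩ := hS.isBounded.subset_closedBall (0 : Fin 4 → ℝ)
    refine (Set.Finite.pi' fun _ => Set.finite_Icc (-⌈R * L⌉) ⌈R * L⌉).subset ?_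
    intro v hv i
    have h1 := hR hv.2
    rw [Metric.mem_closedBall, dist_zero_right] at h1
    have h2 : |(v i : ℝ) / L| ≤ R := (norm_le_pi_norm (fun i => (v i : ℝ) / L) i).trans h1
    rw [abs_div, abs_of_pos hL0, div_le_iff₀ hL0, abs_le] at h2
    have h3 := Int.le_ceil (R * L)
    constructor
    · have : -((⌈R * L⌉ : ℤ) : ℝ) ≤ v i := by linarith
      exact_mod_cast this
    · have : (v i : ℝ) ≤ ((⌈R * L⌉ : ℤ) : ℝ) := by linarith
      exact_mod_cast this
  refine ⟨hAfin, ?_⟩
  have hsub : (⋃ v ∈ hAfin.toFinset, Cube_box M v) ⊆ L • Metric.cthickening ((M : ℝ) / L) S := by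
    intro z hz
    simp only [Set.mem_iUnion] at hz
    obtain ⟨v, hv, hzv⟩ := hz
    rw [Set.Finite.mem_toFinset] at hv
    refine ⟨fun i => z i / L, ?_, ?_⟩
    · refine Metric.mem_cthickening_of_dist_le _ _ _ _ hv.2 ?_
      rw [dist_pi_le_iff (by positivity)]
      intro i
      have a1 := hzv i (Set.mem_univ i)
      simp only [Set.mem_Ico] at a1
      rw [Real.dist_eq, ← sub_div, abs_div, abs_of_pos hL0]
      gcongr
      rw [abs_le]
      constructor <;> linarith
    · funext i
      show L * (z i / L) = z i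
      field_simp
  have hmeas : volume (⋃ v ∈ hAfin.toFinset, Cube_box M v) = (hAfin.toFinset.card : ENNReal) *
      ENNReal.ofReal ((M : ℝ) ^ 4) := by
    rw [measure_biUnion_finset]
    · simp only [Cube_vol, Finset.sum_const, nsmul_eq_mul]
    · intro v hv v' hv' hne
      rw [Function.onFun, Set.disjoint_left]
      intro z h1 h2
      rw [Finset.mem_coe, Set.Finite.mem_toFinset] at hv hv'
      exact hne (Cube_disj M (hv.1.trans hv'.1.symm) h1 h2)
    · intro v _
      exact MeasurableSet.univ_pi fun _ => measurableSet_Ico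
  have h1 := measure_mono (μ := volume) hsub
  rw [hmeas, Measure.addHaar_smul] at h1
  have h2 : (hAfin.toFinset.card : ENNReal) * ENNReal.ofReal ((M : ℝ) ^ 4) ≤
      ENNReal.ofReal (L ^ 4 * (volume.real S + ε)) := by
    refine h1.trans ?_
    rw [ENNReal.ofReal_mul (by positivity)]
    have h3 : |L ^ Module.finrank ℝ (Fin 4 → ℝ)| = L ^ 4 := by
      rw [Module.finrank_fin_fun, abs_of_pos (by positivity)]
    rw [h3]
    gcongr
  have h4 : ((hAfin.toFinset.card : ℝ)) * (M : ℝ) ^ 4 ≤ L ^ 4 * (volume.real S + ε) := by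
    rw [← ENNReal.ofReal_natCast, ← ENNReal.ofReal_mul (Nat.cast_nonneg _)] at h2
    exact (ENNReal.ofReal_le_ofReal_iff (by positivity)).1 h2
  rw [Set.ncard_eq_toFinset_card _ hAfin, mul_comm (volume.real S + ε)]
  exact h4

end Pool.Agent.DUC
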