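import Pool.Agent.DUC.Defs
import Pool.Agent.DUC.Body

/-!
# DUC/CuspA: reduced forms with leading coefficient `a` are determined by their translates

PLAN.  For `v ∈ RF Y` with `v 0 = a` put `k = -⌊v 1 / (3 a)⌋` (`Int` division) and `v' = act 1 k 0 1 v` (the form
`f(x + k y, y)`): `v' 0 = a`, `v' 1 = v 1 + 3 a k ∈ [0, 3a)`, `disc v' = disc v` and `3 v0 v2 - v1²` is unchanged
(`ring`).  For `v = par a x w y`: `3 v0 v2 - v1² = a² (3 y² - w²) ≥ -a² w²` and `3 a⁴ w⁴ ≤ 4 a⁴ y² (w² + y²)² ≤ Y`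
(`y² ≥ 3/4`, `disc_par`), so `a² w² ≤ √Y`: `v' ∈ TT a Y`.
INJECTIVE: if `v₁' = v₂'` then `v₂ = act 1 j 0 1 v₁` for an integer `j`, so the non-real root of `v₂` in the upper half plane
is `x₁ - j + i y₁`: more elementary: `par a x₂ w₂ y₂ = act 1 j 0 1 (par a x₁ w₁ y₁) = par a (x₁ - j) w₁ y₁`, and then
`w₂ = w₁`, `x₂ = x₁ - j`: compare (with `x₁' = x₁ - j`): `3x + w` equal, `3y² - w²` equal and `w (w² + 9y²)` equal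
(`27 v0² v3 - 9 v0 v1 v2 + 2 v1³ = -2 a³ w (w² + 9 y²)`), the last two give `4 w³ + 3 (3y² - w²) w = w (w² + 9y²)`, so `w₁, w₂`
are both real roots of the same cubic `4 W³ + 3 P W - Q = 0` whose other two roots are not real (`y ≠ 0`), so `w₁ = w₂`
(`4(w₁² + w₁w₂ + w₂²) + 3P = (w₁ + 2 w₂)² + 9 y₁² > 0`, with `P = 3y₁² - w₁²`).  As `x₁, x₂ ∈ [-1/2, 0]`, `|j| < 1`, `j = 0`.
`Set.ncard_le_ncard_of_injOn`.
-/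

set_option autoImplicit false

namespace Pool.Agent.DUC

/-- the translated form -/
private def CuspA_tr (k : ℤ) (v : Fin 4 → ℤ) : Fin 4 → ℤ := act 1 k 0 1 v

private theorem CuspA_tr0 (k : ℤ) (v : Fin 4 → ℤ) : CuspA_tr k v 0 = v 0 := by
  simp only [CuspA_tr, act, Matrix.cons_val]
  ring

private theorem CuspA_tr1 (k : ℤ) (v : Fin 4 → ℤ) : CuspA_tr k v 1 = v 1 + 3 * v 0 * k := by
  simp only [CuspA_tr, act, Matrix.cons_val]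
  ring

private theorem CuspA_tr2 (k : ℤ) (v : Fin 4 → ℤ) :
    CuspA_tr k v 2 = v 2 + 2 * v 1 * k + 3 * v 0 * k ^ 2 := by
  simp only [CuspA_tr, act, Matrix.cons_val]
  ring

private theorem CuspA_tr3 (k : ℤ) (v : Fin 4 → ℤ) :
    CuspA_tr k v 3 = v 3 + v 2 * k + v 1 * k ^ 2 + v 0 * k ^ 3 := by
  simp only [CuspA_tr, act, Matrix.cons_val]
  ring

private theorem CuspA_disc (k : ℤ) (v : Fin 4 → ℤ) : disc (CuspA_tr k v) = disc v := by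
  rw [CuspA_tr, disc_act]
  ring

/-- the data of a reduced form -/
private theorem CuspA_data {Y : ℝ} {v : Fin 4 → ℤ} (hv : v ∈ RF Y) :
    ∃ x w y : ℝ, 0 < ((v 0 : ℤ) : ℝ) ∧ -(1 / 2) ≤ x ∧ x ≤ 0 ∧ 0 < y ∧ 1 ≤ x ^ 2 + y ^ 2 ∧
      ((v 1 : ℤ) : ℝ) = -(v 0 : ℝ) * (3 * x + w) ∧
      ((v 2 : ℤ) : ℝ) = (v 0 : ℝ) * (x ^ 2 + y ^ 2 + 2 * x * (x + w)) ∧
      ((v 3 : ℤ) : ℝ) = -(v 0 : ℝ) * (x + w) * (x ^ 2 + y ^ 2) ∧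
      ((disc v : ℤ) : ℝ) = -(4 * (v 0 : ℝ) ^ 4 * y ^ 2 * (w ^ 2 + y ^ 2) ^ 2) ∧ -Y ≤ ((disc v : ℤ) : ℝ) := by
  obtain ⟨⟨a, x, w, y, h0, h1, h2, h3, h4, h5⟩, hY⟩ := hv
  have e0 : ((v 0 : ℤ) : ℝ) = a := by
    have := congrFun h5 0
    simpa [castv, par] using this
  have e1 : ((v 1 : ℤ) : ℝ) = -a * (3 * x + w) := by
    have := congrFun h5 1
    simpa [castv, par] using this
  have e2 : ((v 2 : ℤ) : ℝ) = a * (x ^ 2 + y ^ 2 + 2 * x * (x + w)) := by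
    have := congrFun h5 2
    simpa [castv, par] using this
  have e3 : ((v 3 : ℤ) : ℝ) = -a * (x + w) * (x ^ 2 + y ^ 2) := by
    have := congrFun h5 3
    simpa [castv, par] using this
  have e : ((disc v : ℤ) : ℝ) = -(4 * a ^ 4 * y ^ 2 * (w ^ 2 + y ^ 2) ^ 2) := by
    rw [← disc_castv ℝ v, h5, disc_par]
  refine ⟨x, w, y, ?_, h1, h2, h3, h4, ?_, ?_, ?_, ?_, hY⟩
  · rw [e0]
    exact h0
  · rw [e0]
    exact e1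
  · rw [e0]
    exact e2
  · rw [e0]
    exact e3
  · rw [e0]
    exact e

/-- the translates with second coefficient in `[0, 3a)` are in `TT a Y` -/
private theorem CuspA_mem {Y : ℝ} {a : ℤ} (ha : 1 ≤ a) {v : Fin 4 → ℤ} (hv : v ∈ RF Y) (h0 : v 0 = a) :
    CuspA_tr (-(v 1 / (3 * a))) v ∈ TT a Y := by
  obtain ⟨x, w, y, p0, hx1, hx2, hy, hxy, e1, e2, e3, ed, hY⟩ := CuspA_data hv
  have hy34 : 3 / 4 ≤ y ^ 2 := by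
    nlinarith [mul_nonneg (by linarith : (0 : ℝ) ≤ x + 1 / 2) (by linarith : (0 : ℝ) ≤ -x)]
  have h3a : 0 < 3 * a := by linarith
  have hmod := Int.emod_add_mul_ediv (v 1) (3 * a)
  have hm0 := Int.emod_nonneg (v 1) h3a.ne'
  have hm1 := Int.emod_lt_of_pos (v 1) h3a
  refine ⟨?_, ?_, ?_, ?_, ?_, ?_⟩
  · rw [CuspA_tr0, h0]
  · rw [CuspA_tr1, h0]
    have : v 1 + 3 * a * -(v 1 / (3 * a)) = v 1 % (3 * a) := by linarith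
    rw [this]
    exact hm0
  · rw [CuspA_tr1, h0]
    have : v 1 + 3 * a * -(v 1 / (3 * a)) = v 1 % (3 * a) := by linarith
    rw [this]
    exact hm1
  · have hinv : 3 * CuspA_tr (-(v 1 / (3 * a))) v 0 * CuspA_tr (-(v 1 / (3 * a))) v 2 -
        CuspA_tr (-(v 1 / (3 * a))) v 1 ^ 2 = 3 * v 0 * v 2 - v 1 ^ 2 := by
      rw [CuspA_tr0, CuspA_tr1, CuspA_tr2]
      ring
    rw [hinv]
    push_cast
    have hval : 3 * ((v 0 : ℤ) : ℝ) * ((v 2 : ℤ) : ℝ) - ((v 1 : ℤ) : ℝ) ^ 2 =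
        (v 0 : ℝ) ^ 2 * (3 * y ^ 2 - w ^ 2) := by
      rw [e1, e2]
      ring
    rw [hval]
    have hA : 0 ≤ (v 0 : ℝ) ^ 4 := by positivity
    have hw4 : 0 ≤ (v 0 : ℝ) ^ 4 * w ^ 4 := by positivity
    have hle : ((v 0 : ℝ) ^ 2 * w ^ 2) ^ 2 ≤ Y := by
      have h1 : 4 * (v 0 : ℝ) ^ 4 * y ^ 2 * (w ^ 2 + y ^ 2) ^ 2 ≤ Y := by linarith
      have h2 : w ^ 4 ≤ (w ^ 2 + y ^ 2) ^ 2 := by nlinarith [sq_nonneg w, sq_nonneg y]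
      have h3 : 3 / 4 * w ^ 4 ≤ y ^ 2 * (w ^ 2 + y ^ 2) ^ 2 := by
        have hw : 0 ≤ w ^ 4 := by positivity
        exact mul_le_mul hy34 h2 hw (by positivity)
      have h4 : 4 * (v 0 : ℝ) ^ 4 * (3 / 4 * w ^ 4) ≤ 4 * (v 0 : ℝ) ^ 4 * (y ^ 2 * (w ^ 2 + y ^ 2) ^ 2) :=
        mul_le_mul_of_nonneg_left h3 (by positivity)
      nlinarith
    have hs : (v 0 : ℝ) ^ 2 * w ^ 2 ≤ √Y := Real.le_sqrt_of_sq_le hle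
    have h5 : 0 ≤ (v 0 : ℝ) ^ 2 * (3 * y ^ 2) := by positivity
    nlinarith
  · rw [CuspA_disc]
    exact hY
  · rw [CuspA_disc]
    have : ((disc v : ℤ) : ℝ) < 0 := by
      rw [ed]
      have : 0 < 4 * (v 0 : ℝ) ^ 4 * y ^ 2 * (w ^ 2 + y ^ 2) ^ 2 := by positivity
      linarith
    exact_mod_cast this

/-- reduced forms with the same leading coefficient and a common translate are equal -/
private theorem CuspA_inj {Y : ℝ} {v₁ v₂ : Fin 4 → ℤ} (h₁ : v₁ ∈ RF Y) (h₂ : v₂ ∈ RF Y)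
    (h0 : v₁ 0 = v₂ 0) (k₁ k₂ : ℤ) (h : CuspA_tr k₁ v₁ = CuspA_tr k₂ v₂) : v₁ = v₂ := by
  obtain ⟨x₁, w₁, y₁, p₁, a₁, b₁, c₁, -, e1, e2, e3, -, -⟩ := CuspA_data h₁
  obtain ⟨x₂, w₂, y₂, p₂, a₂, b₂, c₂, -, f1, f2, f3, -, -⟩ := CuspA_data h₂
  have g1 := congrFun h 1
  have g2 := congrFun h 2
  have g3 := congrFun h 3
  rw [CuspA_tr1, CuspA_tr1] at g1
  rw [CuspA_tr2, CuspA_tr2] at g2
  rw [CuspA_tr3, CuspA_tr3] at g3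
  rw [← h0] at g1 g2 g3
  have r0 : ((v₂ 0 : ℤ) : ℝ) = ((v₁ 0 : ℤ) : ℝ) := by rw [h0]
  rw [r0] at f1 f2 f3
  have r1 : ((v₁ 1 : ℤ) : ℝ) + 3 * (v₁ 0 : ℝ) * k₁ = (v₂ 1 : ℝ) + 3 * (v₁ 0 : ℝ) * k₂ := by exact_mod_cast g1
  have r2 : ((v₁ 2 : ℤ) : ℝ) + 2 * (v₁ 1 : ℝ) * k₁ + 3 * (v₁ 0 : ℝ) * k₁ ^ 2 =
      (v₂ 2 : ℝ) + 2 * (v₂ 1 : ℝ) * k₂ + 3 * (v₁ 0 : ℝ) * k₂ ^ 2 := by exact_mod_cast g2
  have r3 : ((v₁ 3 : ℤ) : ℝ) + (v₁ 2 : ℝ) * k₁ + (v₁ 1 : ℝ) * k₁ ^ 2 + (v₁ 0 : ℝ) * k₁ ^ 3 =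
      (v₂ 3 : ℝ) + (v₂ 2 : ℝ) * k₂ + (v₂ 1 : ℝ) * k₂ ^ 2 + (v₁ 0 : ℝ) * k₂ ^ 3 := by exact_mod_cast g3
  rw [e1, f1] at r1 r2 r3
  rw [e2, f2] at r2 r3
  rw [e3, f3] at r3
  set A : ℝ := ((v₁ 0 : ℤ) : ℝ) with hA
  have hA0 : A ≠ 0 := p₁.ne'
  -- the shifted real parts
  set X₁ : ℝ := x₁ - k₁ with hX₁
  set X₂ : ℝ := x₂ - k₂ with hX₂
  have s1 : 3 * X₁ + w₁ = 3 * X₂ + w₂ := by
    apply mul_left_cancel₀ hA0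
    rw [hX₁, hX₂]
    linear_combination -r1
  have s2 : X₁ ^ 2 + y₁ ^ 2 + 2 * X₁ * (X₁ + w₁) = X₂ ^ 2 + y₂ ^ 2 + 2 * X₂ * (X₂ + w₂) := by
    apply mul_left_cancel₀ hA0
    rw [hX₁, hX₂]
    linear_combination r2
  have s3 : (X₁ + w₁) * (X₁ ^ 2 + y₁ ^ 2) = (X₂ + w₂) * (X₂ ^ 2 + y₂ ^ 2) := by
    apply mul_left_cancel₀ hA0
    rw [hX₁, hX₂]
    linear_combination -r3
  have t2 : 3 * y₁ ^ 2 - w₁ ^ 2 = 3 * y₂ ^ 2 - w₂ ^ 2 := by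
    linear_combination 3 * s2 - (3 * X₁ + w₁ + (3 * X₂ + w₂)) * s1
  have t3 : w₁ * (w₁ ^ 2 + 9 * y₁ ^ 2) = w₂ * (w₂ ^ 2 + 9 * y₂ ^ 2) := by
    have q1 : w₁ * (w₁ ^ 2 + 9 * y₁ ^ 2) = (27 * ((X₁ + w₁) * (X₁ ^ 2 + y₁ ^ 2)) -
      9 * (3 * X₁ + w₁) * (X₁ ^ 2 + y₁ ^ 2 + 2 * X₁ * (X₁ + w₁)) + 2 * (3 * X₁ + w₁) ^ 3) / 2 := by ring
    have q2 : w₂ * (w₂ ^ 2 + 9 * y₂ ^ 2) = (27 * ((X₂ + w₂) * (X₂ ^ 2 + y₂ ^ 2)) -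
      9 * (3 * X₂ + w₂) * (X₂ ^ 2 + y₂ ^ 2 + 2 * X₂ * (X₂ + w₂)) + 2 * (3 * X₂ + w₂) ^ 3) / 2 := by ring
    rw [q1, q2, s1, s2, s3]
  have hw : w₁ = w₂ := by
    have hfac : (w₁ - w₂) * ((w₁ + 2 * w₂) ^ 2 + 9 * y₁ ^ 2) = 0 := by
      linear_combination t3 - 3 * w₂ * t2
    rcases mul_eq_zero.1 hfac with h1 | h1
    · linarith
    · exfalso
      have : 0 < (w₁ + 2 * w₂) ^ 2 + 9 * y₁ ^ 2 := by positivity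
      linarith
  have hX : X₁ = X₂ := by
    rw [hw] at s1
    linarith
  have hk : k₁ = k₂ := by
    have hd : ((k₁ - k₂ : ℤ) : ℝ) = x₁ - x₂ := by
      rw [hX₁, hX₂] at hX
      push_cast
      linarith
    have h1 : ((k₁ - k₂ : ℤ) : ℝ) < 1 := by
      rw [hd]
      linarith
    have h2 : (-1 : ℝ) < ((k₁ - k₂ : ℤ) : ℝ) := by
      rw [hd]
      linarith
    have h1' : k₁ - k₂ < 1 := by exact_mod_cast h1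
    have h2' : -1 < k₁ - k₂ := by exact_mod_cast h2
    omega
  subst hk
  have z1 : v₁ 1 = v₂ 1 := by linarith
  have z2 : v₁ 2 = v₂ 2 := by
    rw [z1] at g2
    linarith
  have z3 : v₁ 3 = v₂ 3 := by
    rw [z1, z2] at g3
    linarith
  funext i
  fin_cases i
  · exact h0
  · exact z1
  · exact z2
  · exact z3

theorem cusp_inj (Y : ℝ) (hY : 1 ≤ Y) (a : ℤ) (ha : 1 ≤ a) (hf : (TT a Y).Finite) :
    {v : Fin 4 → ℤ | v ∈ RF Y ∧ v 0 = a}.ncard ≤ (TT a Y).ncard := by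
  refine Set.ncard_le_ncard_of_injOn (fun v => CuspA_tr (-(v 1 / (3 * a))) v) ?_ ?_ hf
  · rintro v ⟨hv, h0⟩
    exact CuspA_mem ha hv h0
  · rintro v₁ ⟨h₁, h01⟩ v₂ ⟨h₂, h02⟩ h
    exact CuspA_inj h₁ h₂ (h01.trans h02.symm) _ _ h

end Pool.Agent.DUC
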