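import Pool.Agent.DUC.Defs

/-!
# DUC/CuspB: counting the normalised forms with leading coefficient `a`

PLAN.  For `v ∈ TT a Y` write `v = ![a, b, c, e]`, `p = 3 a c - b²`, `q = 27 a² e - 9 a b c + 2 b³`.  Identity:
`4 p³ + q² = -27 a² disc v`, so `0 < 4 p³ + q² ≤ 27 a² Y`.  Put `P = (a² Y)^(1/3)`; note `a ≤ Y^(1/4)`, so
`P / a = (Y / a)^(1/3) ≥ 1`, `√Y / a ≥ 1`.  For fixed `b` (at most `3 a` values), `p` is injective in `c` and lies in a class
mod `3 a`; for fixed `b, c` the `q` lie in a class mod `27 a²`.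
(1) `p ≥ -P`: then `4 p³ ≤ 27 a² Y` gives `p ≤ 2 P`; number of `c` at most `3P/(3a) + 1 ≤ 2 P / a`; `q² ≤ 31 a² Y`, number of `e` at
most `2 √31 a √Y / (27 a²) + 1 ≤ 2 √Y / a`.  Total `3 a * (2P/a) * (2√Y/a) = 12 P √Y / a = 12 Y^(5/6) a^(-1/3)`.
(2) `-√Y ≤ p < -P`: `|q|` lies in an interval of length `√(4|p|³ + 27a²Y) - 2|p|^(3/2) ≤ 27 a² Y / (4 |p|^(3/2))`; two signs:
number of `e` at most `Y / (2 |p|^(3/2)) + 2 ≤ 3 Y / |p|^(3/2)` (`|p| ≤ √Y`, so `Y/|p|^(3/2) ≥ Y^(1/4) ≥ 1`).  Sum over `c`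
(`|p|` takes values `≥ P` spaced by `3 a`): `Σ_j (P + 3 a j)^(-3/2) ≤ P^(-3/2) + (2/(3a)) P^(-1/2)` (compare with the
telescoping sum of `2/(3a) * ((P + 3a(j-1))^(-1/2) - (P + 3aj)^(-1/2))`).  Total
`3 a * 3 Y * (…) = 9 a Y P^(-3/2) + 6 Y P^(-1/2) = 9 √Y + 6 Y^(5/6) a^(-1/3)`.  So `K = 27` (any `K` is fine; it is allowed to be wasteful,
only the exponents matter).
Suggestion: bound the number of integers in a class mod `k` in an interval of length `ℓ` by `ℓ/k + 1`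
(`Int.card_Icc`-type lemma) once; finiteness comes with it (`b, c, e` are bounded).
-/

set_option autoImplicit false

namespace Pool.Agent.DUC

/-- integers in an interval -/
theorem cuspB_icc (x y : ℝ) (h : x ≤ y) : ((Finset.Icc ⌈x⌉ ⌊y⌋).card : ℝ) ≤ y - x + 1 := by
  rw [Int.card_Icc]
  have h1 : x ≤ (⌈x⌉ : ℝ) := Int.le_ceil x
  have h2 : (⌊y⌋ : ℝ) ≤ y := Int.floor_le y
  by_cases h3 : 0 ≤ ⌊y⌋ + 1 - ⌈x⌉
  · have h4 : (((⌊y⌋ + 1 - ⌈x⌉).toNat : ℤ) : ℝ) = ((⌊y⌋ + 1 - ⌈x⌉ : ℤ) : ℝ) := by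
      rw [Int.toNat_of_nonneg h3]
    rw [← Int.cast_natCast, h4]
    push_cast
    linarith
  · have h4 : (⌊y⌋ + 1 - ⌈x⌉).toNat = 0 := Int.toNat_of_nonpos (by omega)
    rw [h4]
    simp only [Nat.cast_zero]
    linarith

/-- integers in an interval of a residue class -/
theorem cuspB_cls (k m x y : ℝ) (hk : 0 < k) (h : x ≤ y) :
    ∃ E : Finset ℤ, (∀ e : ℤ, x ≤ k * e + m → k * e + m ≤ y → e ∈ E) ∧ (E.card : ℝ) ≤ (y - x) / k + 1 := by
  refine ⟨Finset.Icc ⌈(x - m) / k⌉ ⌊(y - m) / k⌋, fun e h1 h2 => ?_, ?_⟩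
  · rw [Finset.mem_Icc]
    constructor
    · rw [Int.ceil_le, div_le_iff₀ hk]
      linarith
    · rw [Int.le_floor, le_div_iff₀ hk]
      linarith
  · have h3 : (x - m) / k ≤ (y - m) / k := div_le_div_of_nonneg_right (by linarith) hk.le
    have h4 := cuspB_icc _ _ h3
    have h5 : (y - m) / k - (x - m) / k + 1 = (y - x) / k + 1 := by
      field_simp
      ring
    linarith

/-- the telescoping step -/
theorem cuspB_step (A r r' : ℝ) (hA : 1 ≤ A) (hr : A ≤ r) (hr' : 0 < r') (h : r' ^ 2 = r ^ 2 + 3 * A) :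
    1 / r ^ 3 ≤ 8 / (3 * A) * (1 / r - 1 / r') := by
  have hr0 : 0 < r := by linarith
  have h1 : r' ≤ 2 * r := by
    nlinarith
  have h2 : r < r' := by nlinarith
  have h3 : 8 / (3 * A) * (1 / r - 1 / r') - 1 / r ^ 3 = (8 * r ^ 2 * (r' - r) - 3 * A * r') / (3 * A * r ^ 3 * r') := by
    field_simp
  have h4 : 0 ≤ 8 * r ^ 2 * (r' - r) - 3 * A * r' := by
    have h5 : 3 * A = (r' - r) * (r' + r) := by linarith
    rw [h5]
    have h6 : 8 * r ^ 2 * (r' - r) - (r' - r) * (r' + r) * r' = (r' - r) * (8 * r ^ 2 - (r' + r) * r') := by ring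
    rw [h6]
    apply mul_nonneg (by linarith)
    nlinarith
  have h7 : 0 ≤ (8 * r ^ 2 * (r' - r) - 3 * A * r') / (3 * A * r ^ 3 * r') :=
    div_nonneg h4 (by positivity)
  linarith

/-- the discriminant identity -/
theorem cuspB_id (a b c e : ℝ) : 4 * (3 * a * c - b ^ 2) ^ 3 + (27 * a ^ 2 * e + (2 * b ^ 3 - 9 * a * b * c)) ^ 2 =
    -(27 * a ^ 2 * disc ![a, b, c, e]) := by
  simp only [disc, Matrix.cons_val]
  ring

/-- the `e` in the central range -/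
theorem cuspB_E1 (A s T b c : ℝ) (hA : 1 ≤ A) (hs : A ≤ s) (hs3 : s ^ 3 = A * T)
    (hp : -s ^ 2 ≤ 3 * A * c - b ^ 2) :
    ∃ E : Finset ℤ, (∀ e : ℤ, -T ^ 2 ≤ disc ![A, b, c, (e : ℝ)] → disc ![A, b, c, (e : ℝ)] < 0 → e ∈ E) ∧
      (E.card : ℝ) ≤ 2 * s ^ 3 / A ^ 2 := by
  have hs0 : 0 < s := by linarith
  obtain ⟨E, hE, hc⟩ := cuspB_cls (27 * A ^ 2) (2 * b ^ 3 - 9 * A * b * c) (-(6 * s ^ 3)) (6 * s ^ 3) (by positivity)
    (by have : 0 < s ^ 3 := by positivity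
        linarith)
  refine ⟨E, fun e h1 h2 => ?_, ?_⟩
  · have hid := cuspB_id A b c e
    set q := 27 * A ^ 2 * (e : ℝ) + (2 * b ^ 3 - 9 * A * b * c) with hq
    set p := 3 * A * c - b ^ 2 with hpd
    have h3 : -(27 * A ^ 2 * disc ![A, b, c, (e : ℝ)]) ≤ 27 * (s ^ 3) ^ 2 := by
      rw [hs3]
      have : 0 ≤ 27 * A ^ 2 * (disc ![A, b, c, (e : ℝ)] + T ^ 2) := mul_nonneg (by positivity) (by linarith)
      nlinarith
    have h4 : -(s ^ 2) ^ 3 ≤ p ^ 3 := by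
      have : (-s ^ 2) ^ 3 ≤ p ^ 3 := (Odd.pow_le_pow (by decide)).2 hp
      calc -(s ^ 2) ^ 3 = (-s ^ 2) ^ 3 := by ring
        _ ≤ p ^ 3 := this
    have h5 : q ^ 2 ≤ (6 * s ^ 3) ^ 2 := by
      nlinarith [sq_nonneg (s ^ 3)]
    have h6 := abs_le_of_sq_le_sq' h5 (by positivity)
    exact hE e h6.1 h6.2
  · refine le_trans hc ?_
    have h1 : A ^ 2 ≤ s ^ 3 := by
      calc A ^ 2 ≤ A ^ 3 := pow_le_pow_right₀ hA (by norm_num)
        _ ≤ s ^ 3 := pow_le_pow_left₀ (by linarith) hs 3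
    have h2 : (6 * s ^ 3 - -(6 * s ^ 3)) / (27 * A ^ 2) + 1 = (12 * s ^ 3 + 27 * A ^ 2) / (27 * A ^ 2) := by
      field_simp
      ring
    rw [h2, div_le_div_iff₀ (by positivity) (by positivity)]
    have h3 : 0 < A ^ 2 := by positivity
    nlinarith

/-- the `e` in the outer range -/
theorem cuspB_E2 (A r T b c : ℝ) (hA : 1 ≤ A) (hr : A ≤ r) (hrT : r ^ 2 ≤ T)
    (hp : r ^ 2 = -(3 * A * c - b ^ 2)) :
    ∃ E : Finset ℤ, (∀ e : ℤ, -T ^ 2 ≤ disc ![A, b, c, (e : ℝ)] → disc ![A, b, c, (e : ℝ)] < 0 → e ∈ E) ∧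
      (E.card : ℝ) ≤ 4 * T ^ 2 / r ^ 3 := by
  have hr0 : 0 < r := by linarith
  have hT : 1 ≤ T := by nlinarith
  set L : ℝ := 27 * A ^ 2 * T ^ 2 / (4 * r ^ 3) with hL
  have hL0 : 0 < L := by positivity
  obtain ⟨E, hE, hc⟩ := cuspB_cls (27 * A ^ 2) (2 * b ^ 3 - 9 * A * b * c) (2 * r ^ 3) (2 * r ^ 3 + L)
    (by positivity) (by linarith)
  obtain ⟨E', hE', hc'⟩ := cuspB_cls (27 * A ^ 2) (2 * b ^ 3 - 9 * A * b * c) (-(2 * r ^ 3 + L)) (-(2 * r ^ 3))
    (by positivity) (by linarith)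
  refine ⟨E ∪ E', fun e h1 h2 => ?_, ?_⟩
  · have hid := cuspB_id A b c e
    set q := 27 * A ^ 2 * (e : ℝ) + (2 * b ^ 3 - 9 * A * b * c) with hq
    set p := 3 * A * c - b ^ 2 with hpd
    have hp' : p = -r ^ 2 := by linarith
    rw [hp'] at hid
    have hlow : (2 * r ^ 3) ^ 2 ≤ q ^ 2 := by
      have : 0 < -(27 * A ^ 2 * disc ![A, b, c, (e : ℝ)]) := by
        have : 0 < 27 * A ^ 2 * (-disc ![A, b, c, (e : ℝ)]) := mul_pos (by positivity) (by linarith)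
        linarith
      nlinarith
    have hup : q ^ 2 ≤ (2 * r ^ 3 + L) ^ 2 := by
      have h3 : 0 ≤ 27 * A ^ 2 * (disc ![A, b, c, (e : ℝ)] + T ^ 2) := mul_nonneg (by positivity) (by linarith)
      have h4 : L * (4 * r ^ 3) = 27 * A ^ 2 * T ^ 2 := by
        rw [hL]
        field_simp
      nlinarith [sq_nonneg L]
    rw [Finset.mem_union]
    rcases le_or_gt 0 q with h0 | h0
    · left
      refine hE e ?_ ?_
      · exact le_of_sq_le_sq hlow h0
      · exact le_of_sq_le_sq hup (by positivity)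
    · right
      refine hE' e ?_ ?_
      · have := le_of_sq_le_sq (a := -q) (b := 2 * r ^ 3 + L) (by rw [neg_sq]; exact hup) (by positivity)
        linarith
      · have := le_of_sq_le_sq (a := 2 * r ^ 3) (b := -q) (by rw [neg_sq]; exact hlow) (by linarith)
        linarith
  · have h1 : ((E ∪ E').card : ℝ) ≤ (E.card : ℝ) + (E'.card : ℝ) := by
      exact_mod_cast Finset.card_union_le E E'
    have h2 : (2 * r ^ 3 + L - 2 * r ^ 3) / (27 * A ^ 2) = T ^ 2 / (4 * r ^ 3) := by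
      rw [hL]
      field_simp
      ring
    have h3 : (-(2 * r ^ 3) - -(2 * r ^ 3 + L)) / (27 * A ^ 2) = T ^ 2 / (4 * r ^ 3) := by
      rw [hL]
      field_simp
      ring
    rw [h2] at hc
    rw [h3] at hc'
    have hr1 : 1 ≤ r := by linarith
    have h4 : r ^ 3 ≤ T ^ 2 := by
      have : r ≤ T := by nlinarith
      calc r ^ 3 = r ^ 2 * r := by ring
        _ ≤ T * T := mul_le_mul hrT this hr0.le (by linarith)
        _ = T ^ 2 := by ring
    have h5 : 1 ≤ T ^ 2 / r ^ 3 := by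
      rw [le_div_iff₀ (by positivity)]
      linarith
    have h6 : T ^ 2 / (4 * r ^ 3) = 1 / 4 * (T ^ 2 / r ^ 3) := by
      field_simp
    have h7 : 4 * T ^ 2 / r ^ 3 = 4 * (T ^ 2 / r ^ 3) := by
      field_simp
    rw [h6] at hc hc'
    rw [h7]
    linarith

/-- for fixed `b`: the pairs `(c, e)` -/
theorem cuspB_fib (A s T b : ℝ) (hA : 1 ≤ A) (hs : A ≤ s) (hs3 : s ^ 3 = A * T) :
    ∃ F : Finset (ℤ × ℤ), (∀ c e : ℤ, -T ≤ 3 * A * c - b ^ 2 → -T ^ 2 ≤ disc ![A, b, (c : ℝ), (e : ℝ)] →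
      disc ![A, b, (c : ℝ), (e : ℝ)] < 0 → (c, e) ∈ F) ∧ (F.card : ℝ) ≤ 15 * (s ^ 5 / A ^ 3) := by
  classical
  have hs0 : 0 < s := by linarith
  have hA0 : 0 < A := by linarith
  have hT : T = s ^ 3 / A := by
    rw [hs3]
    field_simp
  -- the central range
  obtain ⟨C1, hC1, hC1c⟩ := cuspB_cls (3 * A) (-b ^ 2) (-s ^ 2) (2 * s ^ 2) (by positivity)
    (by have : 0 < s ^ 2 := by positivity
        linarith)
  have hE1 : ∀ c : ℤ, ∃ E : Finset ℤ, (-s ^ 2 ≤ 3 * A * c - b ^ 2 → ∀ e : ℤ,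
      -T ^ 2 ≤ disc ![A, b, (c : ℝ), (e : ℝ)] → disc ![A, b, (c : ℝ), (e : ℝ)] < 0 → e ∈ E) ∧
      (E.card : ℝ) ≤ 2 * s ^ 3 / A ^ 2 := by
    intro c
    by_cases h : -s ^ 2 ≤ 3 * A * c - b ^ 2
    · obtain ⟨E, h1, h2⟩ := cuspB_E1 A s T b c hA hs hs3 h
      exact ⟨E, fun _ => h1, h2⟩
    · refine ⟨∅, fun h' => absurd h' h, ?_⟩
      simp only [Finset.card_empty, Nat.cast_zero]
      positivity
  choose E1 hE1 hE1c using hE1
  -- the outer range
  set c0 : ℤ := ⌊(b ^ 2 - s ^ 2) / (3 * A)⌋ with hc0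
  set n : ℕ := (c0 - ⌈(b ^ 2 - T) / (3 * A)⌉ + 1).toNat with hn
  set r : ℕ → ℝ := fun i => √(b ^ 2 - 3 * A * (c0 - i)) with hr
  have hc0' : 3 * A * c0 ≤ b ^ 2 - s ^ 2 := by
    have h1 : (c0 : ℝ) ≤ (b ^ 2 - s ^ 2) / (3 * A) := Int.floor_le _
    rw [le_div_iff₀ (by positivity)] at h1
    linarith
  have ht : ∀ i : ℕ, s ^ 2 ≤ b ^ 2 - 3 * A * (c0 - i) := by
    intro i
    have : 0 ≤ 3 * A * (i : ℝ) := by positivity
    linarith
  have hrs : ∀ i : ℕ, s ≤ r i := fun i => Real.le_sqrt_of_sq_le (ht i)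
  have hr2 : ∀ i : ℕ, r i ^ 2 = b ^ 2 - 3 * A * (c0 - i) := fun i =>
    Real.sq_sqrt (le_trans (by positivity) (ht i))
  have hE2 : ∀ i : ℕ, ∃ E : Finset ℤ, (i < n → ∀ e : ℤ,
      -T ^ 2 ≤ disc ![A, b, ((c0 - i : ℤ) : ℝ), (e : ℝ)] → disc ![A, b, ((c0 - i : ℤ) : ℝ), (e : ℝ)] < 0 → e ∈ E) ∧
      (E.card : ℝ) ≤ 4 * T ^ 2 / r i ^ 3 := by
    intro i
    have hri : 0 < r i := lt_of_lt_of_le hs0 (hrs i)
    by_cases h : i < n
    · have h1 : ⌈(b ^ 2 - T) / (3 * A)⌉ ≤ c0 - i := by omega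
      rw [Int.ceil_le, div_le_iff₀ (by positivity)] at h1
      obtain ⟨E, h2, h3⟩ := cuspB_E2 A (r i) T b ((c0 - i : ℤ) : ℝ) hA (le_trans hs (hrs i))
        (by rw [hr2]
            push_cast at h1
            linarith)
        (by rw [hr2]
            push_cast
            ring)
      exact ⟨E, fun _ => h2, h3⟩
    · refine ⟨∅, fun h' => absurd h' h, ?_⟩
      simp only [Finset.card_empty, Nat.cast_zero]
      positivity
  choose E2 hE2 hE2c using hE2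
  refine ⟨(C1.biUnion fun c => (E1 c).image fun e => (c, e)) ∪
    ((Finset.range n).biUnion fun i => (E2 i).image fun e => (c0 - i, e)), fun c e h1 h2 h3 => ?_, ?_⟩
  · rw [Finset.mem_union]
    by_cases h : -s ^ 2 ≤ 3 * A * c - b ^ 2
    · left
      have hp2 : 3 * A * c - b ^ 2 ≤ 2 * s ^ 2 := by
        have hid := cuspB_id A b c e
        have h4 : -(27 * A ^ 2 * disc ![A, b, (c : ℝ), (e : ℝ)]) ≤ 27 * (s ^ 3) ^ 2 := by
          rw [hs3]
          have : 0 ≤ 27 * A ^ 2 * (disc ![A, b, (c : ℝ), (e : ℝ)] + T ^ 2) := mul_nonneg (by positivity) (by linarith)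
          nlinarith
        by_contra hcon
        push Not at hcon
        have h5 : (2 * s ^ 2) ^ 3 < (3 * A * c - b ^ 2) ^ 3 :=
          pow_lt_pow_left₀ hcon (by positivity) (by norm_num)
        have h6 : 0 < s ^ 6 := by positivity
        have h7 := sq_nonneg (27 * A ^ 2 * (e : ℝ) + (2 * b ^ 3 - 9 * A * b * c))
        nlinarith
      rw [Finset.mem_biUnion]
      refine ⟨c, hC1 c (by linarith) (by linarith), ?_⟩
      rw [Finset.mem_image]
      exact ⟨e, hE1 c h e h2 h3, rfl⟩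
    · right
      have h4 : c ≤ c0 := by
        rw [hc0, Int.le_floor, le_div_iff₀ (by positivity)]
        linarith
      have h5 : ⌈(b ^ 2 - T) / (3 * A)⌉ ≤ c := by
        rw [Int.ceil_le, div_le_iff₀ (by positivity)]
        linarith
      obtain ⟨i, hi⟩ : ∃ i : ℕ, (i : ℤ) = c0 - c := ⟨(c0 - c).toNat, by omega⟩
      have hin : i < n := by omega
      have hci : c0 - (i : ℤ) = c := by omega
      rw [Finset.mem_biUnion]
      refine ⟨i, Finset.mem_range.2 hin, ?_⟩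
      rw [Finset.mem_image]
      refine ⟨e, hE2 i hin e ?_ ?_, by rw [hci]⟩
      · rw [hci]
        exact h2
      · rw [hci]
        exact h3
  · have hb1 : ((C1.biUnion fun c => (E1 c).image fun e => (c, e)).card : ℝ) ≤ 4 * (s ^ 5 / A ^ 3) := by
      have h1 : ((C1.biUnion fun c => (E1 c).image fun e => (c, e)).card : ℝ) ≤ ∑ c ∈ C1, ((E1 c).card : ℝ) := by
        have h2 : (C1.biUnion fun c => (E1 c).image fun e => (c, e)).card ≤ ∑ c ∈ C1, (E1 c).card :=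
          le_trans Finset.card_biUnion_le (Finset.sum_le_sum fun c _ => Finset.card_image_le)
        exact_mod_cast h2
      have h3 : ∑ c ∈ C1, ((E1 c).card : ℝ) ≤ ∑ _c ∈ C1, (2 * s ^ 3 / A ^ 2) :=
        Finset.sum_le_sum fun c _ => hE1c c
      rw [Finset.sum_const, nsmul_eq_mul] at h3
      have h4 : (C1.card : ℝ) ≤ 2 * s ^ 2 / A := by
        refine le_trans hC1c ?_
        have h5 : (2 * s ^ 2 - -s ^ 2) / (3 * A) + 1 = (s ^ 2 + A) / A := by
          field_simp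
          ring
        rw [h5, div_le_div_iff₀ hA0 hA0]
        have h6 : A ≤ s ^ 2 := by nlinarith
        nlinarith
      have h7 : (C1.card : ℝ) * (2 * s ^ 3 / A ^ 2) ≤ 2 * s ^ 2 / A * (2 * s ^ 3 / A ^ 2) :=
        mul_le_mul_of_nonneg_right h4 (by positivity)
      have h8 : 2 * s ^ 2 / A * (2 * s ^ 3 / A ^ 2) = 4 * (s ^ 5 / A ^ 3) := by
        field_simp
        ring
      linarith
    have hb2 : (((Finset.range n).biUnion fun i => (E2 i).image fun e => (c0 - i, e)).card : ℝ) ≤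
        11 * (s ^ 5 / A ^ 3) := by
      have h1 : (((Finset.range n).biUnion fun i => (E2 i).image fun e => (c0 - i, e)).card : ℝ) ≤
          ∑ i ∈ Finset.range n, ((E2 i).card : ℝ) := by
        have h2 : ((Finset.range n).biUnion fun i => (E2 i).image fun e => (c0 - i, e)).card ≤
            ∑ i ∈ Finset.range n, (E2 i).card :=
          le_trans Finset.card_biUnion_le (Finset.sum_le_sum fun c _ => Finset.card_image_le)
        exact_mod_cast h2
      have h3 : ∑ i ∈ Finset.range n, ((E2 i).card : ℝ) ≤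
          ∑ i ∈ Finset.range n, (4 * T ^ 2 * (8 / (3 * A)) * (1 / r i - 1 / r (i + 1))) := by
        refine Finset.sum_le_sum fun i _ => le_trans (hE2c i) ?_
        have h4 := cuspB_step A (r i) (r (i + 1)) hA (le_trans hs (hrs i)) (lt_of_lt_of_le hs0 (hrs (i + 1)))
          (by rw [hr2, hr2]
              push_cast
              ring)
        have h5 : 4 * T ^ 2 / r i ^ 3 = 4 * T ^ 2 * (1 / r i ^ 3) := by ring
        rw [h5]
        have h6 : 0 ≤ 4 * T ^ 2 := by positivity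
        calc 4 * T ^ 2 * (1 / r i ^ 3) ≤ 4 * T ^ 2 * (8 / (3 * A) * (1 / r i - 1 / r (i + 1))) :=
              mul_le_mul_of_nonneg_left h4 h6
          _ = _ := by ring
      rw [← Finset.mul_sum, Finset.sum_range_sub' (fun i => 1 / r i)] at h3
      have h6 : 1 / r 0 - 1 / r n ≤ 1 / s := by
        have h7 : 0 < 1 / r n := by
          have := lt_of_lt_of_le hs0 (hrs n)
          positivity
        have h8 : 1 / r 0 ≤ 1 / s := one_div_le_one_div_of_le hs0 (hrs 0)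
        linarith
      have h9 : 4 * T ^ 2 * (8 / (3 * A)) * (1 / r 0 - 1 / r n) ≤ 4 * T ^ 2 * (8 / (3 * A)) * (1 / s) :=
        mul_le_mul_of_nonneg_left h6 (by positivity)
      have h10 : 4 * T ^ 2 * (8 / (3 * A)) * (1 / s) = 32 / 3 * (s ^ 5 / A ^ 3) := by
        rw [hT]
        field_simp
        ring
      have h11 : 0 < s ^ 5 / A ^ 3 := by positivity
      linarith
    have h1 := Finset.card_union_le (C1.biUnion fun c => (E1 c).image fun e => (c, e))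
      ((Finset.range n).biUnion fun i => (E2 i).image fun e => (c0 - i, e))
    have h2 : (((C1.biUnion fun c => (E1 c).image fun e => (c, e)) ∪
      ((Finset.range n).biUnion fun i => (E2 i).image fun e => (c0 - i, e))).card : ℝ) ≤
      ((C1.biUnion fun c => (E1 c).image fun e => (c, e)).card : ℝ) +
      (((Finset.range n).biUnion fun i => (E2 i).image fun e => (c0 - i, e)).card : ℝ) := by
      exact_mod_cast h1
    linarith

theorem cuspB_v (v : Fin 4 → ℤ) : ((disc v : ℤ) : ℝ) = disc ![(v 0 : ℝ), (v 1 : ℝ), (v 2 : ℝ), (v 3 : ℝ)] := by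
  simp only [disc, Matrix.cons_val]
  push_cast
  ring

theorem count_TT : ∃ K : ℝ, 0 < K ∧ ∀ Y : ℝ, 1 ≤ Y → ∀ a : ℤ, 1 ≤ a → (a : ℝ) ^ 4 ≤ Y →
    (TT a Y).Finite ∧ ((TT a Y).ncard : ℝ) ≤ K * Y ^ (5 / 6 : ℝ) / (a : ℝ) ^ (1 / 3 : ℝ) := by
  classical
  refine ⟨45, by norm_num, fun Y hY a ha haY => ?_⟩
  set A : ℝ := (a : ℝ) with hAd
  have hA : 1 ≤ A := by
    rw [hAd]
    exact_mod_cast ha
  have hA0 : 0 < A := by linarith
  set T : ℝ := √Y with hTd
  have hT2 : T ^ 2 = Y := Real.sq_sqrt (by linarith)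
  have hT0 : 0 < T := Real.sqrt_pos.2 (by linarith)
  set s : ℝ := (A * T) ^ (1 / 3 : ℝ) with hsd
  have hs0 : 0 < s := by positivity
  have hs3 : s ^ 3 = A * T := by
    rw [hsd, ← Real.rpow_natCast, ← Real.rpow_mul (by positivity)]
    norm_num
  have hAT : A ^ 2 ≤ T := by
    refine Real.le_sqrt_of_sq_le ?_
    calc (A ^ 2) ^ 2 = A ^ 4 := by ring
      _ ≤ Y := haY
  have hAs : A ≤ s := by
    refine le_of_pow_le_pow_left₀ (n := 3) (by norm_num) hs0.le ?_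
    rw [hs3]
    nlinarith
  choose F hF hFc using fun b : ℤ => cuspB_fib A s T (b : ℝ) hA hAs hs3
  set G : Finset (Fin 4 → ℤ) := (Finset.Ico 0 (3 * a)).biUnion fun b => (F b).image fun ce => ![a, b, ce.1, ce.2]
    with hG
  have hsub : TT a Y ⊆ (G : Set (Fin 4 → ℤ)) := by
    rintro v ⟨h0, h1, h2, h3, h4, h5⟩
    rw [hG, Finset.mem_coe, Finset.mem_biUnion]
    refine ⟨v 1, Finset.mem_Ico.2 ⟨h1, h2⟩, ?_⟩
    rw [Finset.mem_image]
    refine ⟨(v 2, v 3), hF (v 1) (v 2) (v 3) ?_ ?_ ?_, ?_⟩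
    · push_cast at h3
      rw [h0] at h3
      exact h3
    · rw [cuspB_v, h0] at h4
      rw [hT2]
      exact h4
    · have h6 : ((disc v : ℤ) : ℝ) < 0 := by exact_mod_cast h5
      rw [cuspB_v, h0] at h6
      exact h6
    · ext i
      fin_cases i
      · exact h0.symm
      · rfl
      · rfl
      · rfl
  refine ⟨G.finite_toSet.subset hsub, ?_⟩
  have h1 : ((TT a Y).ncard : ℝ) ≤ (G.card : ℝ) := by
    have := Set.ncard_le_ncard hsub G.finite_toSet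
    rw [Set.ncard_coe_finset] at this
    exact_mod_cast this
  have h2 : (G.card : ℝ) ≤ ∑ b ∈ Finset.Ico 0 (3 * a), ((F b).card : ℝ) := by
    have : G.card ≤ ∑ b ∈ Finset.Ico 0 (3 * a), (F b).card :=
      le_trans Finset.card_biUnion_le (Finset.sum_le_sum fun c _ => Finset.card_image_le)
    exact_mod_cast this
  have h3 : ∑ b ∈ Finset.Ico 0 (3 * a), ((F b).card : ℝ) ≤ ∑ _b ∈ Finset.Ico 0 (3 * a), (15 * (s ^ 5 / A ^ 3)) :=
    Finset.sum_le_sum fun b _ => hFc b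
  rw [Finset.sum_const, nsmul_eq_mul, Int.card_Ico] at h3
  have h4 : (((3 * a - 0).toNat : ℕ) : ℝ) = 3 * A := by
    have : (((3 * a - 0).toNat : ℤ) : ℝ) = ((3 * a - 0 : ℤ) : ℝ) := by rw [Int.toNat_of_nonneg (by omega)]
    rw [← Int.cast_natCast, this]
    push_cast
    rw [← hAd]
    ring
  rw [h4] at h3
  have h5 : 3 * A * (15 * (s ^ 5 / A ^ 3)) = 45 * Y ^ (5 / 6 : ℝ) / A ^ (1 / 3 : ℝ) := by
    have h6 : s ^ 5 = A ^ (5 / 3 : ℝ) * Y ^ (5 / 6 : ℝ) := by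
      rw [hsd, ← Real.rpow_natCast, ← Real.rpow_mul (by positivity), Real.mul_rpow hA0.le hT0.le, hTd,
        Real.sqrt_eq_rpow, ← Real.rpow_mul (by linarith)]
      norm_num
    have h7 : A ^ 2 = A ^ (5 / 3 : ℝ) * A ^ (1 / 3 : ℝ) := by
      rw [← Real.rpow_add hA0]
      norm_num
    have h8 : 0 < A ^ (1 / 3 : ℝ) := by positivity
    have h9 : 0 < A ^ (5 / 3 : ℝ) := by positivity
    have h10 : 3 * A * (15 * (s ^ 5 / A ^ 3)) = 45 * (s ^ 5 / A ^ 2) := by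
      field_simp
      ring
    rw [h10, h7, h6]
    field_simp
  linarith

end Pool.Agent.DUC
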