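import Pool.Agent.DUC.Defs
import Pool.Agent.DUC.Body
import Pool.Agent.DUC.CuspA
import Pool.Agent.DUC.CuspB

/-!
# DUC/CuspC: few reduced forms have a small leading coefficient

PLAN.  `RF_lead`: `v 0 ≥ 1` and `(v 0)⁴ ≤ Y`.  Partition by `a = v 0`, `1 ≤ a < δ Y^(1/4) =: A`; `cusp_inj`, `count_TT`;
`Σ_{1 ≤ a ≤ A} a^(-1/3) ≤ (3/2) A^(2/3)`; `Y^(5/6) (Y^(1/4))^(2/3) = Y`.
-/

set_option autoImplicit false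

namespace Pool.Agent.DUC

private theorem CuspC_cube (t : ℝ) (ht : 0 ≤ t) : (t ^ (1 / 3 : ℝ)) ^ 3 = t := by
  rw [← Real.rpow_natCast, ← Real.rpow_mul ht]
  norm_num

private theorem CuspC_sq (t : ℝ) (ht : 0 ≤ t) : (t ^ (1 / 3 : ℝ)) ^ 2 = t ^ (2 / 3 : ℝ) := by
  rw [← Real.rpow_natCast, ← Real.rpow_mul ht]
  norm_num

private theorem CuspC_step (n : ℕ) :
    1 / ((n + 1 : ℕ) : ℝ) ^ (1 / 3 : ℝ) ≤ 3 / 2 * (((n + 1 : ℕ) : ℝ) ^ (2 / 3 : ℝ) - (n : ℝ) ^ (2 / 3 : ℝ)) := by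
  have h1 : (0 : ℝ) < ((n + 1 : ℕ) : ℝ) := by positivity
  have h0 : (0 : ℝ) ≤ (n : ℝ) := by positivity
  rw [← CuspC_sq _ h1.le, ← CuspC_sq _ h0]
  have hx := CuspC_cube _ h1.le
  have hy := CuspC_cube _ h0
  have hxp : 0 < ((n + 1 : ℕ) : ℝ) ^ (1 / 3 : ℝ) := Real.rpow_pos_of_pos h1 _
  have hyp : 0 ≤ (n : ℝ) ^ (1 / 3 : ℝ) := Real.rpow_nonneg h0 _
  set x := ((n + 1 : ℕ) : ℝ) ^ (1 / 3 : ℝ)
  set y := (n : ℝ) ^ (1 / 3 : ℝ)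
  have hd : x ^ 3 - y ^ 3 = 1 := by
    rw [hx, hy]
    push_cast
    ring
  rw [div_le_iff₀ hxp]
  nlinarith [mul_nonneg (sq_nonneg (x - y)) (by positivity : 0 ≤ x + 2 * y)]

private theorem CuspC_sum (n : ℕ) :
    ∑ a ∈ Finset.Icc 1 n, 1 / (a : ℝ) ^ (1 / 3 : ℝ) ≤ 3 / 2 * (n : ℝ) ^ (2 / 3 : ℝ) := by
  induction n with
  | zero => simp
  | succ n ih =>
    rw [Finset.sum_Icc_succ_top (by omega)]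
    have := CuspC_step n
    linarith

theorem cusp_sum : ∃ K : ℝ, 0 < K ∧ ∀ Y : ℝ, 1 ≤ Y → ∀ δ : ℝ, 0 < δ → δ ≤ 1 →
    ({v : Fin 4 → ℤ | v ∈ RF Y ∧ (v 0 : ℝ) < δ * Y ^ (1 / 4 : ℝ)}.ncard : ℝ) ≤ K * δ ^ (2 / 3 : ℝ) * Y := by
  obtain ⟨K, hK, hT⟩ := count_TT
  refine ⟨3 / 2 * K, by positivity, ?_⟩
  intro Y hY δ hδ hδ1
  have hY0 : 0 < Y := by linarith
  set A : ℝ := δ * Y ^ (1 / 4 : ℝ) with hA
  have hYq : 0 < Y ^ (1 / 4 : ℝ) := Real.rpow_pos_of_pos hY0 _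
  have hA0 : 0 ≤ A := by positivity
  set n : ℕ := ⌊A⌋₊ with hn
  have hnA : (n : ℝ) ≤ A := Nat.floor_le hA0
  have hAY : A ≤ Y ^ (1 / 4 : ℝ) := mul_le_of_le_one_left hYq.le hδ1
  have hq4 : (Y ^ (1 / 4 : ℝ)) ^ 4 = Y := by
    rw [← Real.rpow_natCast, ← Real.rpow_mul hY0.le]
    norm_num
  have hsub : {v : Fin 4 → ℤ | v ∈ RF Y ∧ (v 0 : ℝ) < A} ⊆
      ⋃ a ∈ Finset.Icc 1 n, {v : Fin 4 → ℤ | v ∈ RF Y ∧ v 0 = (a : ℤ)} := by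
    rintro v ⟨hv, hlt⟩
    have h1 := (RF_lead Y v hv).1
    simp only [Set.mem_iUnion, Set.mem_setOf_eq, Finset.mem_Icc]
    refine ⟨(v 0).toNat, ⟨by omega, ?_⟩, hv, by omega⟩
    rw [hn]
    refine Nat.le_floor ?_
    have h2 : (((v 0).toNat : ℤ) : ℝ) = ((v 0 : ℤ) : ℝ) := by
      rw [Int.toNat_of_nonneg (by omega)]
    have h3 : (((v 0).toNat : ℕ) : ℝ) = ((v 0 : ℤ) : ℝ) := by
      rw [← h2]
      push_cast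
      rfl
    rw [h3]
    exact hlt.le
  have hfin : (⋃ a ∈ Finset.Icc 1 n, {v : Fin 4 → ℤ | v ∈ RF Y ∧ v 0 = (a : ℤ)}).Finite := by
    refine (RF_finite Y).subset ?_
    intro v hv
    simp only [Set.mem_iUnion, Set.mem_setOf_eq] at hv
    obtain ⟨a, -, h, -⟩ := hv
    exact h
  have hc1 : ({v : Fin 4 → ℤ | v ∈ RF Y ∧ (v 0 : ℝ) < A}.ncard : ℝ) ≤
      ∑ a ∈ Finset.Icc 1 n, ({v : Fin 4 → ℤ | v ∈ RF Y ∧ v 0 = (a : ℤ)}.ncard : ℝ) := by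
    have h1 := Set.ncard_le_ncard hsub hfin
    have h2 := Finset.set_ncard_biUnion_le (Finset.Icc 1 n)
      (fun a : ℕ => {v : Fin 4 → ℤ | v ∈ RF Y ∧ v 0 = (a : ℤ)})
    exact_mod_cast h1.trans h2
  have hc2 : ∑ a ∈ Finset.Icc 1 n, ({v : Fin 4 → ℤ | v ∈ RF Y ∧ v 0 = (a : ℤ)}.ncard : ℝ) ≤
      ∑ a ∈ Finset.Icc 1 n, K * Y ^ (5 / 6 : ℝ) * (1 / (a : ℝ) ^ (1 / 3 : ℝ)) := by
    refine Finset.sum_le_sum fun a ha => ?_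
    rw [Finset.mem_Icc] at ha
    have ha1 : (1 : ℤ) ≤ (a : ℤ) := by exact_mod_cast ha.1
    have haA : (a : ℝ) ≤ Y ^ (1 / 4 : ℝ) := by
      have : (a : ℝ) ≤ (n : ℝ) := by exact_mod_cast ha.2
      linarith
    have ha4 : (((a : ℤ) : ℝ)) ^ 4 ≤ Y := by
      rw [← hq4]
      push_cast
      exact pow_le_pow_left₀ (by positivity) haA 4
    obtain ⟨hf, hb⟩ := hT Y hY (a : ℤ) ha1 ha4
    have h3 : ({v : Fin 4 → ℤ | v ∈ RF Y ∧ v 0 = (a : ℤ)}.ncard : ℝ) ≤ ((TT (a : ℤ) Y).ncard : ℝ) := by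
      exact_mod_cast cusp_inj Y hY (a : ℤ) ha1 hf
    refine h3.trans (hb.trans (le_of_eq ?_))
    push_cast
    ring
  have hc3 : ∑ a ∈ Finset.Icc 1 n, K * Y ^ (5 / 6 : ℝ) * (1 / (a : ℝ) ^ (1 / 3 : ℝ)) ≤
      K * Y ^ (5 / 6 : ℝ) * (3 / 2 * (n : ℝ) ^ (2 / 3 : ℝ)) := by
    rw [← Finset.mul_sum]
    exact mul_le_mul_of_nonneg_left (CuspC_sum n) (by positivity)
  have hc4 : (n : ℝ) ^ (2 / 3 : ℝ) ≤ A ^ (2 / 3 : ℝ) :=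
    Real.rpow_le_rpow (by positivity) hnA (by norm_num)
  have hc5 : A ^ (2 / 3 : ℝ) = δ ^ (2 / 3 : ℝ) * Y ^ (1 / 6 : ℝ) := by
    rw [hA, Real.mul_rpow hδ.le hYq.le, ← Real.rpow_mul hY0.le]
    norm_num
  have hc6 : Y ^ (5 / 6 : ℝ) * Y ^ (1 / 6 : ℝ) = Y := by
    rw [← Real.rpow_add hY0]
    norm_num
  calc ({v : Fin 4 → ℤ | v ∈ RF Y ∧ (v 0 : ℝ) < A}.ncard : ℝ)
      ≤ K * Y ^ (5 / 6 : ℝ) * (3 / 2 * (n : ℝ) ^ (2 / 3 : ℝ)) := hc1.trans (hc2.trans hc3)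
    _ ≤ K * Y ^ (5 / 6 : ℝ) * (3 / 2 * (δ ^ (2 / 3 : ℝ) * Y ^ (1 / 6 : ℝ))) := by
        rw [← hc5]
        gcongr
    _ = 3 / 2 * K * δ ^ (2 / 3 : ℝ) * (Y ^ (5 / 6 : ℝ) * Y ^ (1 / 6 : ℝ)) := by ring
    _ = 3 / 2 * K * δ ^ (2 / 3 : ℝ) * Y := by rw [hc6]

end Pool.Agent.DUC
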