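import Pool.Agent.DUC.Defs

/-!
# DUC/IntA: the one dimensional integrals

PLAN.  (a) `∫ 4 a³ da = a⁴` over `0 < a ≤ A`, `A⁴ = 1 / (4 y² (w² + y²)²)`: the value is at most `y (w² + y²) A⁴`.
(b) `∫ dw / (w² + y²) = π / y` (`integral_univ_inv_one_add_sq` and scaling).
(c) inner integral: `y ≥ √(1 - x²)`, `∫_c^∞ dy / y² = 1 / c`; outer: `∫ dx / √(1 - x²) = arcsin 0 - arcsin (-1/2) = π/6`
over `[-1/2, 0]` (`integral_one_div_sqrt_one_sub_sq` or the derivative of `arcsin`).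
-/

set_option autoImplicit false

namespace Pool.Agent.DUC

open MeasureTheory in
theorem int_a (δ w y : ℝ) (hδ : 0 < δ) (hy : 0 < y) :
    ∫⁻ a in {a : ℝ | δ ≤ a ∧ 4 * a ^ 4 * y ^ 2 * (w ^ 2 + y ^ 2) ^ 2 ≤ 1},
      ENNReal.ofReal (4 * a ^ 3 * y * (w ^ 2 + y ^ 2)) ≤ ENNReal.ofReal (1 / (4 * y * (w ^ 2 + y ^ 2))) := by
  have hq : 0 < w ^ 2 + y ^ 2 := by positivity
  obtain ⟨q, hqe⟩ : ∃ q, q = w ^ 2 + y ^ 2 := ⟨_, rfl⟩
  rw [← hqe] at hq ⊢
  obtain ⟨M, hM⟩ : ∃ M, M = 1 / (4 * y ^ 2 * q ^ 2) := ⟨_, rfl⟩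
  have hM0 : 0 < M := by rw [hM]; positivity
  obtain ⟨A, hA⟩ : ∃ A, A = Real.sqrt (Real.sqrt M) := ⟨_, rfl⟩
  have hA0 : 0 ≤ A := by rw [hA]; exact Real.sqrt_nonneg _
  have hA4 : A ^ 4 = M := by
    rw [show A ^ 4 = (A ^ 2) ^ 2 by ring, hA, Real.sq_sqrt (Real.sqrt_nonneg _), Real.sq_sqrt hM0.le]
  have hsub : {a : ℝ | δ ≤ a ∧ 4 * a ^ 4 * y ^ 2 * q ^ 2 ≤ 1} ⊆ Set.Ioc 0 A := by
    rintro a ⟨h1, h2⟩
    have ha : 0 < a := hδ.trans_le h1
    refine ⟨ha, ?_⟩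
    rw [← pow_le_pow_iff_left₀ ha.le hA0 (by norm_num : (4 : ℕ) ≠ 0), hA4, hM,
      le_div_iff₀ (by positivity)]
    linarith
  refine (lintegral_mono_set hsub).trans ?_
  have hc : Continuous fun a : ℝ => 4 * a ^ 3 * y * q := by fun_prop
  have hint : IntegrableOn (fun a : ℝ => 4 * a ^ 3 * y * q) (Set.Ioc 0 A) :=
    (hc.integrableOn_Icc (a := 0) (b := A)).mono_set Set.Ioc_subset_Icc_self
  rw [← ofReal_integral_eq_lintegral_ofReal hint ?_]
  · refine ENNReal.ofReal_le_ofReal ?_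
    rw [← intervalIntegral.integral_of_le hA0]
    have h1 : ∫ a in (0 : ℝ)..A, 4 * a ^ 3 * y * q = y * q * A ^ 4 := by
      have h2 : (fun a : ℝ => 4 * a ^ 3 * y * q) = fun a => (4 * y * q) * a ^ 3 := by
        funext a
        ring
      rw [h2, intervalIntegral.integral_const_mul, integral_pow]
      push_cast
      ring
    rw [h1, hA4, hM]
    refine le_of_eq ?_
    field_simp
  · rw [Filter.EventuallyLE, ae_restrict_iff' measurableSet_Ioc]
    refine Filter.Eventually.of_forall fun a ha => ?_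
    have := ha.1
    show 0 ≤ 4 * a ^ 3 * y * q
    positivity

open MeasureTheory in
theorem int_w (y : ℝ) (hy : 0 < y) :
    ∫⁻ w : ℝ, ENNReal.ofReal (1 / (4 * y * (w ^ 2 + y ^ 2))) ≤ ENNReal.ofReal (Real.pi / (4 * y ^ 2)) := by
  have h1 : (fun w : ℝ => 1 / (4 * y * (w ^ 2 + y ^ 2))) =
      fun w => (1 / (4 * y ^ 3)) * (1 + (w / y) ^ 2)⁻¹ := by
    funext w
    have hq : 0 < w ^ 2 + y ^ 2 := by positivity
    have h2 : 1 + (w / y) ^ 2 = (w ^ 2 + y ^ 2) / y ^ 2 := by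
      field_simp
      ring
    rw [h2, inv_div]
    field_simp
  have h3 : Integrable fun w : ℝ => (1 + (w / y) ^ 2)⁻¹ :=
    (integrable_inv_one_add_sq).comp_div hy.ne'
  have h4 : Integrable fun w : ℝ => 1 / (4 * y * (w ^ 2 + y ^ 2)) := by
    rw [h1]
    exact h3.const_mul _
  rw [← ofReal_integral_eq_lintegral_ofReal h4 (Filter.Eventually.of_forall fun w => by
    show 0 ≤ 1 / (4 * y * (w ^ 2 + y ^ 2))
    positivity)]
  refine ENNReal.ofReal_le_ofReal ?_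
  rw [h1, integral_const_mul]
  have h5 := Measure.integral_comp_div (fun w : ℝ => (1 + w ^ 2)⁻¹) y
  rw [h5, integral_univ_inv_one_add_sq, abs_of_pos hy, smul_eq_mul]
  refine le_of_eq ?_
  field_simp

open MeasureTheory in
theorem int_xy :
    ∫⁻ x in Set.Icc (-(1 / 2) : ℝ) 0, ∫⁻ y in {y : ℝ | 0 < y ∧ 1 ≤ x ^ 2 + y ^ 2},
      ENNReal.ofReal (Real.pi / (4 * y ^ 2)) ≤ ENNReal.ofReal (Real.pi ^ 2 / 24) := by
  have hin : ∀ x ∈ Set.Icc (-(1 / 2) : ℝ) 0,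
      ∫⁻ y in {y : ℝ | 0 < y ∧ 1 ≤ x ^ 2 + y ^ 2}, ENNReal.ofReal (Real.pi / (4 * y ^ 2)) ≤
        ENNReal.ofReal (Real.pi / 4 * (1 / Real.sqrt (1 - x ^ 2))) := by
    intro x hx
    have hx2 : x ^ 2 ≤ 1 / 4 := by
      nlinarith [hx.1, hx.2]
    obtain ⟨c, hc⟩ : ∃ c, c = Real.sqrt (1 - x ^ 2) := ⟨_, rfl⟩
    have hc0 : 0 < c := by rw [hc]; exact Real.sqrt_pos.2 (by linarith)
    have hc2 : c ^ 2 = 1 - x ^ 2 := by rw [hc]; exact Real.sq_sqrt (by linarith)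
    rw [← hc]
    have hsub : {y : ℝ | 0 < y ∧ 1 ≤ x ^ 2 + y ^ 2} ⊆ Set.Ici c := by
      rintro y ⟨h1, h2⟩
      have h3 : c ^ 2 ≤ y ^ 2 := by rw [hc2]; linarith
      exact (pow_le_pow_iff_left₀ hc0.le h1.le (by norm_num : (2 : ℕ) ≠ 0)).1 h3
    refine (lintegral_mono_set hsub).trans ?_
    rw [setLIntegral_congr Ioi_ae_eq_Ici.symm]
    have hfe : ∀ t ∈ Set.Ioi c, Real.pi / (4 * t ^ 2) = Real.pi / 4 * t ^ (-2 : ℝ) := by
      intro t ht
      have ht0 : 0 < t := hc0.trans ht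
      rw [Real.rpow_neg ht0.le, show (2 : ℝ) = ((2 : ℕ) : ℝ) by norm_num, Real.rpow_natCast]
      field_simp
    have hi1 : IntegrableOn (fun t : ℝ => Real.pi / 4 * t ^ (-2 : ℝ)) (Set.Ioi c) :=
      (integrableOn_Ioi_rpow_of_lt (by norm_num) hc0).const_mul _
    have hi : IntegrableOn (fun t : ℝ => Real.pi / (4 * t ^ 2)) (Set.Ioi c) :=
      hi1.congr_fun (fun t ht => (hfe t ht).symm) measurableSet_Ioi
    rw [← ofReal_integral_eq_lintegral_ofReal hi (Filter.Eventually.of_forall fun t => by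
      show 0 ≤ Real.pi / (4 * t ^ 2)
      have := Real.pi_pos
      positivity)]
    refine ENNReal.ofReal_le_ofReal ?_
    rw [setIntegral_congr_fun measurableSet_Ioi hfe, integral_const_mul,
      integral_Ioi_rpow_of_lt (by norm_num) hc0]
    refine le_of_eq ?_
    rw [show (-2 : ℝ) + 1 = -1 by norm_num, Real.rpow_neg_one]
    field_simp
  refine (setLIntegral_mono' measurableSet_Icc hin).trans ?_
  have hc : ContinuousOn (fun x : ℝ => 1 / Real.sqrt (1 - x ^ 2)) (Set.Icc (-(1 / 2)) 0) := by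
    refine ContinuousOn.div continuousOn_const (by fun_prop) fun x hx => ?_
    have hx2 : x ^ 2 ≤ 1 / 4 := by nlinarith [hx.1, hx.2]
    exact (Real.sqrt_pos.2 (by linarith)).ne'
  have hi : IntegrableOn (fun x : ℝ => Real.pi / 4 * (1 / Real.sqrt (1 - x ^ 2)))
      (Set.Icc (-(1 / 2)) 0) := (hc.integrableOn_compact isCompact_Icc).const_mul _
  rw [← ofReal_integral_eq_lintegral_ofReal hi (Filter.Eventually.of_forall fun t => by
    show 0 ≤ Real.pi / 4 * (1 / Real.sqrt (1 - t ^ 2))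
    have := Real.pi_pos
    positivity)]
  refine ENNReal.ofReal_le_ofReal ?_
  rw [integral_Icc_eq_integral_Ioc, ← intervalIntegral.integral_of_le (by norm_num),
    intervalIntegral.integral_const_mul]
  have hI : ∫ x in (-(1 / 2) : ℝ)..0, 1 / Real.sqrt (1 - x ^ 2) = Real.arcsin 0 - Real.arcsin (-(1 / 2)) := by
    refine intervalIntegral.integral_eq_sub_of_hasDerivAt (fun x hx => ?_) ?_
    · rw [Set.uIcc_of_le (by norm_num)] at hx
      exact Real.hasDerivAt_arcsin (by linarith [hx.1]) (by linarith [hx.2])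
    · rw [intervalIntegrable_iff_integrableOn_Icc_of_le (by norm_num)]
      exact hc.integrableOn_compact isCompact_Icc
  have h6 : Real.arcsin (1 / 2) = Real.pi / 6 := by
    rw [← Real.sin_pi_div_six]
    exact Real.arcsin_sin (by linarith [Real.pi_pos]) (by linarith [Real.pi_pos])
  rw [hI, Real.arcsin_zero, Real.arcsin_neg, h6]
  refine le_of_eq ?_
  ring

end Pool.Agent.DUC
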