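import Pool.Agent.DUC.Defs
import Pool.Agent.DUC.IntA

/-!
# DUC/IntB: Tonelli

PLAN.  Write the integral over `Kd δ` as the integral over `Fin 4 → ℝ` of an indicator, transport it to
`ℝ × ℝ × ℝ × ℝ` (volume preserving equivalences: `volume_preserving_piFinSuccAbove`, `volume_preserving_finTwoArrow`, …), in the order
`x`, `y`, `w`, `a` (outer to inner), apply Tonelli (`lintegral_prod`, the integrand is measurable), then `int_a`, `int_w`,
`int_xy` with monotonicity of `∫⁻`.
-/

set_option autoImplicit false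

namespace Pool.Agent.DUC

open MeasureTheory in
/-- Tonelli for one coordinate -/
private theorem IntB_insert {n : ℕ} (i : Fin (n + 1)) (f : (Fin (n + 1) → ℝ) → ENNReal) (hf : Measurable f) :
    ∫⁻ p, f p = ∫⁻ x : ℝ, ∫⁻ q : Fin n → ℝ, f (i.insertNth x q) := by
  have h1 := ((volume_preserving_piFinSuccAbove (fun _ : Fin (n + 1) => ℝ) i).symm _).lintegral_comp hf
  have hm : Measurable fun z : ℝ × (Fin n → ℝ) =>
      f ((MeasurableEquiv.piFinSuccAbove (fun _ : Fin (n + 1) => ℝ) i).symm z) :=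
    hf.comp (MeasurableEquiv.piFinSuccAbove (fun _ : Fin (n + 1) => ℝ) i).symm.measurable
  rw [← h1]
  rw [Measure.volume_eq_prod, lintegral_prod (fun z : ℝ × (Fin n → ℝ) =>
      f ((MeasurableEquiv.piFinSuccAbove (fun _ : Fin (n + 1) => ℝ) i).symm z)) hm.aemeasurable]
  rfl

/-- the integrand -/
private noncomputable def IntB_f (δ : ℝ) : (Fin 4 → ℝ) → ENNReal :=
  (Kd δ).indicator fun p => ENNReal.ofReal (4 * p 0 ^ 3 * p 3 * (p 2 ^ 2 + p 3 ^ 2))

private theorem IntB_meas (δ : ℝ) : MeasurableSet (Kd δ) := by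
  unfold Kd
  simp only [Set.ofPred_and]
  refine MeasurableSet.inter ?_ (MeasurableSet.inter ?_ (MeasurableSet.inter ?_ (MeasurableSet.inter ?_
    (MeasurableSet.inter ?_ ?_))))
  · exact measurableSet_le (by fun_prop) (by fun_prop)
  · exact measurableSet_le (by fun_prop) (by fun_prop)
  · exact measurableSet_le (by fun_prop) (by fun_prop)
  · exact measurableSet_lt (by fun_prop) (by fun_prop)
  · exact measurableSet_le (by fun_prop) (by fun_prop)
  · exact measurableSet_le (by fun_prop) (by fun_prop)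

private theorem IntB_fmeas (δ : ℝ) : Measurable (IntB_f δ) := by
  unfold IntB_f
  refine Measurable.indicator ?_ (IntB_meas δ)
  fun_prop

private theorem IntB_ins (x y w a : ℝ) (q : Fin 0 → ℝ) :
    ((1 : Fin 4).insertNth x ((2 : Fin 3).insertNth y ((1 : Fin 2).insertNth w
      ((0 : Fin 1).insertNth a q : Fin 1 → ℝ) : Fin 2 → ℝ) : Fin 3 → ℝ) : Fin 4 → ℝ) = ![a, x, w, y] := by
  funext i
  fin_cases i <;> rfl

open MeasureTheory in
private theorem IntB_iter (δ : ℝ) :
    ∫⁻ p, IntB_f δ p = ∫⁻ x : ℝ, ∫⁻ y : ℝ, ∫⁻ w : ℝ, ∫⁻ a : ℝ, IntB_f δ ![a, x, w, y] := by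
  have m1 : ∀ x : ℝ, Measurable fun q : Fin 3 → ℝ => ((1 : Fin 4).insertNth x q : Fin 4 → ℝ) := by
    intro x
    refine measurable_pi_lambda _ fun i => ?_
    fin_cases i
    · exact measurable_pi_apply (0 : Fin 3)
    · exact measurable_const
    · exact measurable_pi_apply (1 : Fin 3)
    · exact measurable_pi_apply (2 : Fin 3)
  have m2 : ∀ x : ℝ, Measurable fun q : Fin 2 → ℝ => ((2 : Fin 3).insertNth x q : Fin 3 → ℝ) := by
    intro x
    refine measurable_pi_lambda _ fun i => ?_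
    fin_cases i
    · exact measurable_pi_apply (0 : Fin 2)
    · exact measurable_pi_apply (1 : Fin 2)
    · exact measurable_const
  have m3 : ∀ x : ℝ, Measurable fun q : Fin 1 → ℝ => ((1 : Fin 2).insertNth x q : Fin 2 → ℝ) := by
    intro x
    refine measurable_pi_lambda _ fun i => ?_
    fin_cases i
    · exact measurable_pi_apply (0 : Fin 1)
    · exact measurable_const
  rw [IntB_insert 1 _ (IntB_fmeas δ)]
  refine lintegral_congr fun x => ?_
  refine (IntB_insert 2 (fun q : Fin 3 → ℝ => IntB_f δ ((1 : Fin 4).insertNth x q))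
    ((IntB_fmeas δ).comp (m1 x))).trans ?_
  refine lintegral_congr fun y => ?_
  refine (IntB_insert 1 (fun q : Fin 2 → ℝ => IntB_f δ ((1 : Fin 4).insertNth x
    ((2 : Fin 3).insertNth y q : Fin 3 → ℝ))) (((IntB_fmeas δ).comp (m1 x)).comp (m2 y))).trans ?_
  refine lintegral_congr fun w => ?_
  refine (IntB_insert 0 (fun q : Fin 1 → ℝ => IntB_f δ ((1 : Fin 4).insertNth x
    ((2 : Fin 3).insertNth y ((1 : Fin 2).insertNth w q : Fin 2 → ℝ) : Fin 3 → ℝ)))
    ((((IntB_fmeas δ).comp (m1 x)).comp (m2 y)).comp (m3 w))).trans ?_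
  refine lintegral_congr fun a => ?_
  have h : ∀ q : Fin 0 → ℝ, IntB_f δ ((1 : Fin 4).insertNth x ((2 : Fin 3).insertNth y ((1 : Fin 2).insertNth w
      ((0 : Fin 1).insertNth a q : Fin 1 → ℝ) : Fin 2 → ℝ) : Fin 3 → ℝ)) = IntB_f δ ![a, x, w, y] := by
    intro q
    rw [← IntB_ins x y w a q]
  refine (lintegral_congr h).trans ?_
  have hv : (volume : Measure (Fin 0 → ℝ)) Set.univ = 1 := by
    rw [volume_pi, Measure.pi_univ, Finset.univ_eq_empty, Finset.prod_empty]
  rw [lintegral_const, hv, mul_one]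

open MeasureTheory in
theorem lintegral_Kd_le (δ : ℝ) (hδ : 0 < δ) :
    ∫⁻ p in Kd δ, ENNReal.ofReal (4 * p 0 ^ 3 * p 3 * (p 2 ^ 2 + p 3 ^ 2)) ≤
      ENNReal.ofReal (Real.pi ^ 2 / 24) := by
  rw [← lintegral_indicator (IntB_meas δ)]
  change ∫⁻ p, IntB_f δ p ≤ _
  rw [IntB_iter]
  refine le_trans ?_ int_xy
  rw [← lintegral_indicator measurableSet_Icc]
  refine lintegral_mono fun x => ?_
  by_cases hx : x ∈ Set.Icc (-(1 / 2) : ℝ) 0
  · rw [Set.indicator_of_mem hx]
    have hm : MeasurableSet {y : ℝ | 0 < y ∧ 1 ≤ x ^ 2 + y ^ 2} := by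
      simp only [Set.ofPred_and]
      exact MeasurableSet.inter (measurableSet_lt (by fun_prop) (by fun_prop))
        (measurableSet_le (by fun_prop) (by fun_prop))
    rw [← lintegral_indicator hm]
    refine lintegral_mono fun y => ?_
    by_cases hy : y ∈ {y : ℝ | 0 < y ∧ 1 ≤ x ^ 2 + y ^ 2}
    · rw [Set.indicator_of_mem hy]
      refine le_trans ?_ (int_w y hy.1)
      refine lintegral_mono fun w => ?_
      refine le_trans ?_ (int_a δ w y hδ hy.1)
      have hm2 : MeasurableSet {a : ℝ | δ ≤ a ∧ 4 * a ^ 4 * y ^ 2 * (w ^ 2 + y ^ 2) ^ 2 ≤ 1} := by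
        simp only [Set.ofPred_and]
        exact MeasurableSet.inter (measurableSet_le (by fun_prop) (by fun_prop))
          (measurableSet_le (by fun_prop) (by fun_prop))
      rw [← lintegral_indicator hm2]
      refine lintegral_mono fun a => ?_
      by_cases ha : a ∈ {a : ℝ | δ ≤ a ∧ 4 * a ^ 4 * y ^ 2 * (w ^ 2 + y ^ 2) ^ 2 ≤ 1}
      · rw [Set.indicator_of_mem ha]
        unfold IntB_f
        refine (Set.indicator_le_self _ _ _).trans ?_
        exact le_rfl
      · rw [Set.indicator_of_notMem ha]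
        unfold IntB_f
        rw [Set.indicator_of_notMem]
        rintro ⟨h1, h2, h3, h4, h5, h6⟩
        exact ha ⟨h1, h6⟩
    · rw [Set.indicator_of_notMem hy]
      have h0 : ∀ w a : ℝ, IntB_f δ ![a, x, w, y] = 0 := by
        intro w a
        unfold IntB_f
        rw [Set.indicator_of_notMem]
        rintro ⟨h1, h2, h3, h4, h5, h6⟩
        exact hy ⟨h4, h5⟩
      simp only [h0, lintegral_zero, le_refl]
  · rw [Set.indicator_of_notMem hx]
    have h0 : ∀ y w a : ℝ, IntB_f δ ![a, x, w, y] = 0 := by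
      intro y w a
      unfold IntB_f
      rw [Set.indicator_of_notMem]
      rintro ⟨h1, h2, h3, h4, h5, h6⟩
      exact hx ⟨h2, h3⟩
    simp only [h0, lintegral_zero, le_refl]

end Pool.Agent.DUC
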