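import Pool.Agent.DUC.Defs

/-!
# DUC/Jac: change of variables

PLAN.  `Sd_eq`, `MeasureTheory.addHaar_image_le_lintegral_abs_det_fderiv` (only the inequality is needed, no injectivity)
for `parF` on the measurable set `Kd δ`.  `parF` is polynomial: give its derivative at `p` as the continuous linear
map of the matrix (rows = components, columns = `a, x, w, y`)
`[1, 0, 0, 0; -(3x+w), -3a, -a, 0; 3x²+y²+2xw, a(6x+2w), 2ax, 2ay;
 -(x+w)(x²+y²), -a(x²+y²) - 2ax(x+w), -a(x²+y²), -2ay(x+w)]`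
(`Matrix.toLin'`, `hasFDerivAt_pi`), its determinant is `-4 a³ y (w² + y²)` (`Matrix.det_succ_row_zero`, `Fin.sum_univ_succ`,
`ring`), and `|det| = 4 a³ y (w² + y²)` on `Kd δ` (`a > 0`, `y > 0`).  Measurability of `Kd δ`: it is an intersection of sets
given by continuous functions.
-/

set_option autoImplicit false

namespace Pool.Agent.DUC

/-- the Jacobian matrix of the parametrisation -/
private def jacM (p : Fin 4 → ℝ) : Matrix (Fin 4) (Fin 4) ℝ :=
  !![1, 0, 0, 0;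
    -(3 * p 1 + p 2), -(3 * p 0), -(p 0), 0;
    3 * p 1 ^ 2 + p 3 ^ 2 + 2 * p 1 * p 2, p 0 * (6 * p 1 + 2 * p 2), 2 * p 0 * p 1, 2 * p 0 * p 3;
    -((p 1 + p 2) * (p 1 ^ 2 + p 3 ^ 2)),
      -(p 0 * (p 1 ^ 2 + p 3 ^ 2)) - 2 * p 0 * p 1 * (p 1 + p 2),
      -(p 0 * (p 1 ^ 2 + p 3 ^ 2)), -(2 * p 0 * p 3 * (p 1 + p 2))]

private theorem jacM_det (p : Fin 4 → ℝ) :
    (jacM p).det = -(4 * p 0 ^ 3 * p 3 * (p 2 ^ 2 + p 3 ^ 2)) := by
  unfold jacM
  rw [Matrix.det_succ_row_zero]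
  simp [Fin.sum_univ_succ, Matrix.det_fin_three, Fin.succAbove]
  ring

private noncomputable def jacL (p : Fin 4 → ℝ) : (Fin 4 → ℝ) →L[ℝ] (Fin 4 → ℝ) :=
  LinearMap.toContinuousLinearMap (Matrix.toLin' (jacM p))

private theorem jacL_det (p : Fin 4 → ℝ) :
    (jacL p).det = -(4 * p 0 ^ 3 * p 3 * (p 2 ^ 2 + p 3 ^ 2)) := by
  unfold jacL
  rw [LinearMap.det_toContinuousLinearMap, LinearMap.det_toLin', jacM_det]

private theorem jacL_deriv (p : Fin 4 → ℝ) : HasFDerivAt parF (jacL p) p := by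
  have h0 : HasFDerivAt (fun q : Fin 4 → ℝ => q 0)
      (ContinuousLinearMap.proj (R := ℝ) (φ := fun _ : Fin 4 => ℝ) 0) p := hasFDerivAt_apply 0 p
  have h1 : HasFDerivAt (fun q : Fin 4 → ℝ => q 1)
      (ContinuousLinearMap.proj (R := ℝ) (φ := fun _ : Fin 4 => ℝ) 1) p := hasFDerivAt_apply 1 p
  have h2 : HasFDerivAt (fun q : Fin 4 → ℝ => q 2)
      (ContinuousLinearMap.proj (R := ℝ) (φ := fun _ : Fin 4 => ℝ) 2) p := hasFDerivAt_apply 2 p
  have h3 : HasFDerivAt (fun q : Fin 4 → ℝ => q 3)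
      (ContinuousLinearMap.proj (R := ℝ) (φ := fun _ : Fin 4 => ℝ) 3) p := hasFDerivAt_apply 3 p
  have e : parF = fun q : Fin 4 → ℝ => fun i : Fin 4 => parF q i := rfl
  rw [e, hasFDerivAt_pi']
  intro i
  fin_cases i
  · have g : HasFDerivAt (fun q : Fin 4 → ℝ => q 0) _ p := h0
    refine HasFDerivAt.congr_fderiv (f := fun q : Fin 4 → ℝ => q 0) g ?_
    ext v
    simp [jacL, jacM, Matrix.toLin'_apply, Matrix.mulVec, dotProduct, Fin.sum_univ_four]
  · have g := (h0.neg).mul ((h1.const_mul 3).add h2)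
    refine HasFDerivAt.congr_fderiv (f := fun q : Fin 4 → ℝ => -q 0 * (3 * q 1 + q 2)) g ?_
    ext v
    simp [jacL, jacM, Matrix.toLin'_apply, Matrix.mulVec, dotProduct, Fin.sum_univ_four]
    ring
  · have g := h0.mul (((h1.pow 2).add (h3.pow 2)).add ((h1.const_mul 2).mul (h1.add h2)))
    refine HasFDerivAt.congr_fderiv
      (f := fun q : Fin 4 → ℝ => q 0 * (q 1 ^ 2 + q 3 ^ 2 + 2 * q 1 * (q 1 + q 2))) g ?_
    ext v
    simp [jacL, jacM, Matrix.toLin'_apply, Matrix.mulVec, dotProduct, Fin.sum_univ_four]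
    ring
  · have g := ((h0.neg).mul (h1.add h2)).mul ((h1.pow 2).add (h3.pow 2))
    refine HasFDerivAt.congr_fderiv
      (f := fun q : Fin 4 → ℝ => -q 0 * (q 1 + q 2) * (q 1 ^ 2 + q 3 ^ 2)) g ?_
    ext v
    simp [jacL, jacM, Matrix.toLin'_apply, Matrix.mulVec, dotProduct, Fin.sum_univ_four]
    ring

open MeasureTheory in
private theorem jac_meas (δ : ℝ) : MeasurableSet (Kd δ) := by
  have e : Kd δ = {p | δ ≤ p 0} ∩ ({p | -(1 / 2) ≤ p 1} ∩ ({p | p 1 ≤ 0} ∩ ({p | 0 < p 3} ∩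
      ({p | 1 ≤ p 1 ^ 2 + p 3 ^ 2} ∩
        {p | 4 * p 0 ^ 4 * p 3 ^ 2 * (p 2 ^ 2 + p 3 ^ 2) ^ 2 ≤ 1})))) := by
    ext p
    simp only [Kd, Set.mem_setOf_eq, Set.mem_inter_iff]
  rw [e]
  refine (isClosed_le continuous_const (continuous_apply 0)).measurableSet.inter ?_
  refine (isClosed_le continuous_const (continuous_apply 1)).measurableSet.inter ?_
  refine (isClosed_le (continuous_apply 1) continuous_const).measurableSet.inter ?_
  refine (isOpen_lt continuous_const (continuous_apply 3)).measurableSet.inter ?_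
  refine (isClosed_le continuous_const (by fun_prop)).measurableSet.inter ?_
  exact (isClosed_le (by fun_prop) continuous_const).measurableSet

open MeasureTheory in
theorem volume_Sd_le (δ : ℝ) (hδ : 0 < δ) : volume (Sd δ) ≤
    ∫⁻ p in Kd δ, ENNReal.ofReal (4 * p 0 ^ 3 * p 3 * (p 2 ^ 2 + p 3 ^ 2)) := by
  rw [Sd_eq]
  refine (addHaar_image_le_lintegral_abs_det_fderiv volume (jac_meas δ)
    (fun p _ => (jacL_deriv p).hasFDerivWithinAt)).trans (le_of_eq ?_)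
  refine setLIntegral_congr_fun (jac_meas δ) fun p hp => ?_
  have ha : 0 < p 0 := hδ.trans_le hp.1
  have hy : 0 < p 3 := hp.2.2.2.1
  have hn : 0 ≤ 4 * p 0 ^ 3 * p 3 * (p 2 ^ 2 + p 3 ^ 2) := by positivity
  simp only [jacL_det, abs_neg, abs_of_nonneg hn]

end Pool.Agent.DUC
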