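import Pool.Agent.DUC.Defs
import Pool.Agent.DUC.Cube
import Pool.Agent.DUC.Body
import Pool.Agent.DUC.Jac
import Pool.Agent.DUC.IntB
import Pool.Agent.DUC.CuspC

/-!
# DUC/Count: the number of reduced forms in given residue classes

PLAN.  `volume.real (Sd δ) ≤ π²/24` by `volume_Sd_le`, `lintegral_Kd_le`.  Choose `δ ≤ 1` with `K δ^(2/3) ≤ ε/2`
(`cusp_sum`).  For `v ∈ RF Y` with `v 0 ≥ δ L`, `L = Y^(1/4)`: `v / L ∈ Sd δ` (if `castv ℝ v = par a x w y` then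
`v / L = par (a/L) x w y`, and `4 (a/L)⁴ y² (w² + y²)² = -disc v / Y ≤ 1`).  Apply `count_compact` with `S = Sd δ`
(`isCompact_Sd`) and `ε' = ε/2`; sum over the classes `r ∈ A` (`A.card ≤ M⁴`).
-/

set_option autoImplicit false

namespace Pool.Agent.DUC

open MeasureTheory

private theorem Count_vol (δ : ℝ) (hδ : 0 < δ) : volume.real (Sd δ) ≤ Real.pi ^ 2 / 24 := by
  have h : volume (Sd δ) ≤ ENNReal.ofReal (Real.pi ^ 2 / 24) :=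
    (volume_Sd_le δ hδ).trans (lintegral_Kd_le δ hδ)
  rw [measureReal_def]
  exact ENNReal.toReal_le_of_le_ofReal (by positivity) h

private theorem Count_delta (K ε : ℝ) (hK : 0 < K) (hε : 0 < ε) :
    ∃ δ : ℝ, 0 < δ ∧ δ ≤ 1 ∧ K * δ ^ (2 / 3 : ℝ) ≤ ε / 2 := by
  have h0 : 0 < ε / (2 * K) := by positivity
  refine ⟨min 1 ((ε / (2 * K)) ^ (3 / 2 : ℝ)), lt_min one_pos (Real.rpow_pos_of_pos h0 _), min_le_left _ _, ?_⟩
  have h1 : (min 1 ((ε / (2 * K)) ^ (3 / 2 : ℝ))) ^ (2 / 3 : ℝ) ≤ ((ε / (2 * K)) ^ (3 / 2 : ℝ)) ^ (2 / 3 : ℝ) :=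
    Real.rpow_le_rpow (lt_min one_pos (Real.rpow_pos_of_pos h0 _)).le (min_le_right _ _) (by norm_num)
  rw [← Real.rpow_mul h0.le] at h1
  have h2 : (3 / 2 : ℝ) * (2 / 3 : ℝ) = 1 := by norm_num
  rw [h2, Real.rpow_one] at h1
  calc K * (min 1 ((ε / (2 * K)) ^ (3 / 2 : ℝ))) ^ (2 / 3 : ℝ) ≤ K * (ε / (2 * K)) :=
        mul_le_mul_of_nonneg_left h1 hK.le
    _ = ε / 2 := by field_simp

private theorem Count_biUnion {α β : Type*} [DecidableEq α] (A : Finset α) (f : α → Set β)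
    (hf : ∀ r ∈ A, (f r).Finite) : (⋃ r ∈ A, f r).ncard ≤ ∑ r ∈ A, (f r).ncard := by
  classical
  induction A using Finset.induction_on with
  | empty => simp
  | insert a s ha ih =>
    rw [Finset.sum_insert ha]
    have h1 : (⋃ r ∈ insert a s, f r) = f a ∪ ⋃ r ∈ s, f r := by
      simp [Set.iUnion_or, Set.iUnion_union_distrib]
    rw [h1]
    exact (Set.ncard_union_le _ _).trans (Nat.add_le_add_left (ih fun r hr => hf r (Finset.mem_insert_of_mem hr)) _)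

private theorem Count_mem (Y L δ : ℝ) (hL : 0 < L) (hL4 : L ^ 4 = Y) (v : Fin 4 → ℤ) (hv : v ∈ RF Y)
    (hd : δ * L ≤ (v 0 : ℝ)) : (fun i => (v i : ℝ) / L) ∈ Sd δ := by
  obtain ⟨⟨a, x, w, y, ha, hx1, hx2, hy, hxy, hp⟩, hdisc⟩ := hv
  have hva : (v 0 : ℝ) = a := by
    have := congrFun hp 0
    simpa [castv, par] using this
  have hY : 0 < Y := by rw [← hL4]; positivity
  refine ⟨a / L, x, w, y, ?_, hx1, hx2, hy, hxy, ?_, ?_⟩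
  · rw [le_div_iff₀ hL, ← hva]
    exact hd
  · have h1 := disc_castv ℝ v
    rw [hp, disc_par] at h1
    have h2 : 4 * a ^ 4 * y ^ 2 * (w ^ 2 + y ^ 2) ^ 2 ≤ Y := by linarith
    have h3 : 4 * (a / L) ^ 4 * y ^ 2 * (w ^ 2 + y ^ 2) ^ 2 = 4 * a ^ 4 * y ^ 2 * (w ^ 2 + y ^ 2) ^ 2 / Y := by
      rw [div_pow, hL4]
      ring
    rw [h3, div_le_one hY]
    exact h2
  · funext i
    have hi := congrFun hp i
    simp only [castv] at hi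
    rw [hi]
    fin_cases i
    · simp [par]
    · simp [par]
      ring
    · simp [par]
      ring
    · simp [par]
      ring

theorem count_RF (M : ℕ) [NeZero M] (A : Finset (Fin 4 → ZMod M)) (ε : ℝ) (hε : 0 < ε) :
    ∃ Y₀ : ℝ, ∀ Y : ℝ, Y₀ ≤ Y →
      ({v : Fin 4 → ℤ | v ∈ RF Y ∧ castv (ZMod M) v ∈ A}.ncard : ℝ) ≤
        (Real.pi ^ 2 / 24 * (A.card / (M : ℝ) ^ 4) + ε) * Y := by
  classical
  obtain ⟨K, hK, hcusp⟩ := cusp_sum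
  obtain ⟨δ, hδ, hδ1, hKδ⟩ := Count_delta K ε hK hε
  obtain ⟨L₀, hL₀, hcomp⟩ := count_compact (Sd δ) (isCompact_Sd δ hδ) M (ε / 2) (by positivity)
  have hV := Count_vol δ hδ
  refine ⟨max 1 (L₀ ^ 4), fun Y hY => ?_⟩
  have hY1 : 1 ≤ Y := (le_max_left _ _).trans hY
  have hY0 : 0 < Y := by linarith
  set L : ℝ := Y ^ (1 / 4 : ℝ) with hLdef
  have hL : 0 < L := Real.rpow_pos_of_pos hY0 _
  have hL4 : L ^ 4 = Y := by
    rw [hLdef, ← Real.rpow_natCast, ← Real.rpow_mul hY0.le]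
    norm_num
  have hLL : L₀ ≤ L := by
    have h1 : L₀ ^ 4 ≤ L ^ 4 := by rw [hL4]; exact (le_max_right _ _).trans hY
    exact le_of_pow_le_pow_left₀ (by norm_num) hL.le h1
  have hM : (0 : ℝ) < (M : ℝ) ^ 4 := by
    have : (0 : ℝ) < (M : ℝ) := by exact_mod_cast Nat.pos_of_ne_zero (NeZero.ne M)
    positivity
  have hAc : (A.card : ℝ) ≤ (M : ℝ) ^ 4 := by
    have h1 : A.card ≤ Fintype.card (Fin 4 → ZMod M) := Finset.card_le_univ A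
    rw [Fintype.card_fun, ZMod.card, Fintype.card_fin] at h1
    exact_mod_cast h1
  -- the covering
  have hsub : {v : Fin 4 → ℤ | v ∈ RF Y ∧ castv (ZMod M) v ∈ A} ⊆
      {v : Fin 4 → ℤ | v ∈ RF Y ∧ (v 0 : ℝ) < δ * Y ^ (1 / 4 : ℝ)} ∪
      ⋃ r ∈ A, {v : Fin 4 → ℤ | castv (ZMod M) v = r ∧ (fun i => (v i : ℝ) / L) ∈ Sd δ} := by
    rintro v ⟨hv, hvA⟩
    by_cases h : (v 0 : ℝ) < δ * Y ^ (1 / 4 : ℝ)
    · exact Or.inl ⟨hv, h⟩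
    · refine Or.inr ?_
      simp only [Set.mem_iUnion]
      exact ⟨castv (ZMod M) v, hvA, rfl, Count_mem Y L δ hL hL4 v hv (not_lt.mp h)⟩
  have hfin1 : {v : Fin 4 → ℤ | v ∈ RF Y ∧ (v 0 : ℝ) < δ * Y ^ (1 / 4 : ℝ)}.Finite :=
    (RF_finite Y).subset fun v hv => hv.1
  have hfin2 : (⋃ r ∈ A, {v : Fin 4 → ℤ | castv (ZMod M) v = r ∧ (fun i => (v i : ℝ) / L) ∈ Sd δ}).Finite :=
    A.finite_toSet.biUnion fun r _ => (hcomp L hLL r).1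
  have hcard2 : ((⋃ r ∈ A, {v : Fin 4 → ℤ | castv (ZMod M) v = r ∧ (fun i => (v i : ℝ) / L) ∈ Sd δ}).ncard : ℝ) ≤
      A.card * ((Real.pi ^ 2 / 24 + ε / 2) * Y / (M : ℝ) ^ 4) := by
    have h1 : (⋃ r ∈ A, {v : Fin 4 → ℤ | castv (ZMod M) v = r ∧ (fun i => (v i : ℝ) / L) ∈ Sd δ}).ncard ≤
        ∑ r ∈ A, {v : Fin 4 → ℤ | castv (ZMod M) v = r ∧ (fun i => (v i : ℝ) / L) ∈ Sd δ}.ncard :=
      Count_biUnion A _ fun r _ => (hcomp L hLL r).1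
    have h2 : ∀ r ∈ A, ({v : Fin 4 → ℤ | castv (ZMod M) v = r ∧ (fun i => (v i : ℝ) / L) ∈ Sd δ}.ncard : ℝ) ≤
        (Real.pi ^ 2 / 24 + ε / 2) * Y / (M : ℝ) ^ 4 := by
      intro r _
      rw [le_div_iff₀ hM]
      refine ((hcomp L hLL r).2).trans ?_
      rw [hL4]
      exact mul_le_mul_of_nonneg_right (by linarith) hY0.le
    calc ((⋃ r ∈ A, {v : Fin 4 → ℤ | castv (ZMod M) v = r ∧ (fun i => (v i : ℝ) / L) ∈ Sd δ}).ncard : ℝ) ≤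
          ∑ r ∈ A, ({v : Fin 4 → ℤ | castv (ZMod M) v = r ∧ (fun i => (v i : ℝ) / L) ∈ Sd δ}.ncard : ℝ) := by
          exact_mod_cast h1
      _ ≤ ∑ r ∈ A, (Real.pi ^ 2 / 24 + ε / 2) * Y / (M : ℝ) ^ 4 := Finset.sum_le_sum h2
      _ = A.card * ((Real.pi ^ 2 / 24 + ε / 2) * Y / (M : ℝ) ^ 4) := by
          rw [Finset.sum_const, nsmul_eq_mul]
  have hcard : ({v : Fin 4 → ℤ | v ∈ RF Y ∧ castv (ZMod M) v ∈ A}.ncard : ℝ) ≤
      K * δ ^ (2 / 3 : ℝ) * Y + A.card * ((Real.pi ^ 2 / 24 + ε / 2) * Y / (M : ℝ) ^ 4) := by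
    have h1 : {v : Fin 4 → ℤ | v ∈ RF Y ∧ castv (ZMod M) v ∈ A}.ncard ≤ _ :=
      (Set.ncard_le_ncard hsub (hfin1.union hfin2)).trans (Set.ncard_union_le _ _)
    have h2 := hcusp Y hY1 δ hδ hδ1
    have h3 : ({v : Fin 4 → ℤ | v ∈ RF Y ∧ castv (ZMod M) v ∈ A}.ncard : ℝ) ≤
        ({v : Fin 4 → ℤ | v ∈ RF Y ∧ (v 0 : ℝ) < δ * Y ^ (1 / 4 : ℝ)}.ncard : ℝ) +
        ((⋃ r ∈ A, {v : Fin 4 → ℤ | castv (ZMod M) v = r ∧ (fun i => (v i : ℝ) / L) ∈ Sd δ}).ncard : ℝ) := by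
      exact_mod_cast h1
    linarith
  refine hcard.trans ?_
  have h5 : K * δ ^ (2 / 3 : ℝ) * Y ≤ ε / 2 * Y := mul_le_mul_of_nonneg_right hKδ hY0.le
  have h6 : (A.card : ℝ) * ((Real.pi ^ 2 / 24 + ε / 2) * Y / (M : ℝ) ^ 4) =
      (Real.pi ^ 2 / 24 * (A.card / (M : ℝ) ^ 4)) * Y + (A.card / (M : ℝ) ^ 4) * (ε / 2 * Y) := by
    field_simp
  have h7 : (A.card : ℝ) / (M : ℝ) ^ 4 ≤ 1 := (div_le_one hM).mpr hAc
  have h8 : ((A.card : ℝ) / (M : ℝ) ^ 4) * (ε / 2 * Y) ≤ 1 * (ε / 2 * Y) :=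
    mul_le_mul_of_nonneg_right h7 (by positivity)
  rw [h6]
  nlinarith

end Pool.Agent.DUC
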