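import Pool.Agent.DUC.Defs

/-!
# DUC/Prod: the Euler product of `ζ(2)`

PLAN.  `riemannZeta_eulerProduct_tendsto` (or the `EulerProduct` file) at `s = 2` and `riemannZeta_two`:
`∏_{p < n} (1 - 1/p²)⁻¹ → π²/6`; invert, remove the factors at `2` and `3`: `(3/4)(8/9) = 2/3`; `(6/π²)/(2/3) = 9/π²`.
-/

set_option autoImplicit false

namespace Pool.Agent.DUC

/-- the completely multiplicative function `1 / n²` -/
noncomputable def prod_f : ℕ →*₀ ℝ where
  toFun n := 1 / (n : ℝ) ^ 2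
  map_zero' := by simp
  map_one' := by simp
  map_mul' m n := by
    push_cast
    rw [mul_pow, one_div_mul_one_div]

theorem prod_euler : Filter.Tendsto (fun n : ℕ => ∏ p ∈ Nat.primesBelow n, (1 - 1 / (p : ℝ) ^ 2)⁻¹)
    Filter.atTop (nhds (Real.pi ^ 2 / 6)) := by
  have hs : HasSum (fun n : ℕ => prod_f n) (Real.pi ^ 2 / 6) := hasSum_zeta_two
  have h := EulerProduct.eulerProduct_completely_multiplicative (f := prod_f)
    (by simpa using hs.summable.norm)
  rw [hs.tsum_eq] at h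
  exact h

theorem prod_split (P : ℕ) (hP : 3 ≤ P) : ∏ p ∈ Nat.primesBelow (P + 1), (1 - 1 / (p : ℝ) ^ 2)⁻¹
    = (3 / 2) * (∏ p ∈ prs P, (1 - 1 / (p : ℝ) ^ 2))⁻¹ := by
  have hset : Nat.primesBelow (P + 1) = insert 2 (insert 3 (prs P)) := by
    ext p
    simp only [Nat.primesBelow, prs, Finset.mem_filter, Finset.mem_range, Finset.mem_insert,
      Finset.mem_Icc]
    constructor
    · rintro ⟨h1, h2⟩
      by_cases h5 : 5 ≤ p
      · exact Or.inr (Or.inr ⟨⟨h5, by omega⟩, h2⟩)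
      · interval_cases p
        · exact absurd h2 (by norm_num)
        · exact absurd h2 (by norm_num)
        · exact Or.inl rfl
        · exact Or.inr (Or.inl rfl)
        · exact absurd h2 (by norm_num)
    · rintro (rfl | rfl | ⟨⟨h1, h2⟩, h3⟩)
      · exact ⟨by omega, Nat.prime_two⟩
      · exact ⟨by omega, Nat.prime_three⟩
      · exact ⟨by omega, h3⟩
  rw [hset, Finset.prod_insert (by simp [prs]), Finset.prod_insert (by simp [prs]),
    Finset.prod_inv_distrib, ← mul_assoc]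
  norm_num

theorem prod_tendsto : Filter.Tendsto (fun P : ℕ => ∏ p ∈ prs P, (1 - 1 / (p : ℝ) ^ 2)) Filter.atTop
    (nhds (9 / Real.pi ^ 2)) := by
  have h1 := (Filter.tendsto_add_atTop_iff_nat 1).mpr prod_euler
  have h2 : Filter.Tendsto (fun P : ℕ => (3 / 2) * (∏ p ∈ prs P, (1 - 1 / (p : ℝ) ^ 2))⁻¹)
      Filter.atTop (nhds (Real.pi ^ 2 / 6)) :=
    h1.congr' ((Filter.eventually_ge_atTop 3).mono fun P hP => prod_split P hP)
  have hpi : Real.pi ^ 2 / 6 ≠ 0 := by positivity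
  have h3 := (h2.inv₀ hpi).const_mul (3 / 2 : ℝ)
  have e : (3 / 2 : ℝ) * (Real.pi ^ 2 / 6)⁻¹ = 9 / Real.pi ^ 2 := by
    have : Real.pi ≠ 0 := Real.pi_ne_zero
    field_simp
    norm_num
  rw [e] at h3
  refine h3.congr fun P => ?_
  rw [mul_inv, inv_inv, ← mul_assoc, mul_inv_cancel₀ (by norm_num : (3 / 2 : ℝ) ≠ 0), one_mul]

end Pool.Agent.DUC
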