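import Pool.Agent.DUC.Defs

/-!
# DUC/LocP: forms modulo `p²` with nonzero discriminant

PLAN.  `A` = all `v` mod `p²` with `disc v ≠ 0`.  There are `p⁸` vectors; we need at least `2 p⁶ - p⁴` vectors with
`disc v = 0` mod `p²`.  Let `E` = the `v` with `p ∣ v2`, `p ∣ v3`, and (`p ∣ v1` or `p² ∣ v3`): for them `disc v ≡ 0` mod `p²`
(look at the five terms of the discriminant).  `|E| = p² * p * (2 p² - p) = 2p⁵ - p⁴`, `E` contains the `p⁴` vectors `≡ 0` mod `p`;
so `E* = {v ∈ E, v ≢ 0 mod p}` has `2 p⁴ (p - 1)` elements, and each has modulo `p` the shape `x² (v0 x + v1 y)`: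
a double zero at `(0 : 1)`.  For the `p + 1` points of the projective line take the images of `E*` under
`act 1 0 k 1` (`k = 0, …, p-1`: `f(x, k x + y)`) and `act 0 1 1 0` (`f(y, x)`) (choose the matrices so that the double zeros modulo `p`
are at different points): these are bijections preserving `disc` up to a square unit, and the `p + 1` images are pairwise
disjoint, since a nonzero cubic form mod `p` cannot have double zeros at two different points.  Together with the vectors
`≡ 0` mod `p`: `p⁴ + (p + 1) 2 p⁴ (p - 1) = 2 p⁶ - p⁴`.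
(Any other proof is fine, e.g. fibring over `v` mod `p`: for `v̄ ≠ 0` with a double zero, a proportion `1/p` or all of the
lifts have `disc = 0` mod `p²`.)
-/

set_option autoImplicit false

namespace Pool.Agent.DUC

section LocP

open Finset

variable {p : ℕ} [hp : Fact p.Prime]

/-- reduction modulo `p` -/
private def LocP_f (p : ℕ) : ZMod (p ^ 2) →+* ZMod p :=
  ZMod.castHom (dvd_pow_self p two_ne_zero) (ZMod p)

private theorem LocP_dvd (x : ZMod (p ^ 2)) (hx : LocP_f p x = 0) :
    ∃ m : ℕ, m < p ∧ x = (p : ZMod (p ^ 2)) * (m : ZMod (p ^ 2)) := by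
  have h1 : ((x.val : ℕ) : ZMod (p ^ 2)) = x := ZMod.natCast_zmod_val x
  rw [← h1, map_natCast, ZMod.natCast_eq_zero_iff] at hx
  obtain ⟨m, hm⟩ := hx
  refine ⟨m, ?_, ?_⟩
  · have h2 := ZMod.val_lt x
    rw [hm, pow_two] at h2
    exact Nat.lt_of_mul_lt_mul_left h2
  · rw [← h1, hm]
    push_cast
    rfl

/-- the elements divisible by `p` -/
private def LocP_P (p : ℕ) [Fact p.Prime] : Finset (ZMod (p ^ 2)) :=
  univ.filter (fun x => LocP_f p x = 0)

/-- the elements not divisible by `p` -/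
private def LocP_U (p : ℕ) [Fact p.Prime] : Finset (ZMod (p ^ 2)) :=
  univ.filter (fun x => ¬ LocP_f p x = 0)

private theorem LocP_card_P : (LocP_P p).card = p := by
  have h : LocP_P p = (range p).image (fun m : ℕ => (p : ZMod (p ^ 2)) * (m : ZMod (p ^ 2))) := by
    ext x
    simp only [LocP_P, mem_filter, mem_univ, true_and, mem_image, mem_range]
    constructor
    · intro hx
      obtain ⟨m, hm, he⟩ := LocP_dvd x hx
      exact ⟨m, hm, he.symm⟩
    · rintro ⟨m, hm, rfl⟩
      rw [map_mul, map_natCast, map_natCast, ZMod.natCast_self, zero_mul]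
  rw [h, card_image_of_injOn, card_range]
  intro m hm m' hm' he
  have hm1 : m < p := by simpa using hm
  have hm2 : m' < p := by simpa using hm'
  have hpos := hp.out.pos
  have he' : ((p * m : ℕ) : ZMod (p ^ 2)) = ((p * m' : ℕ) : ZMod (p ^ 2)) := by
    push_cast
    exact he
  rw [ZMod.natCast_eq_natCast_iff', Nat.mod_eq_of_lt, Nat.mod_eq_of_lt] at he'
  · exact Nat.eq_of_mul_eq_mul_left hpos he'
  · rw [pow_two]
    exact Nat.mul_lt_mul_of_pos_left hm2 hpos
  · rw [pow_two]
    exact Nat.mul_lt_mul_of_pos_left hm1 hpos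

private theorem LocP_card_U : (LocP_U p).card + p = p ^ 2 := by
  have h := Finset.card_filter_add_card_filter_not (s := (univ : Finset (ZMod (p ^ 2))))
    (fun x => LocP_f p x = 0)
  rw [Finset.card_univ, ZMod.card] at h
  have h2 := LocP_card_P (p := p)
  unfold LocP_P at h2
  unfold LocP_U
  omega

private theorem LocP_mul {x y : ZMod (p ^ 2)} (hx : LocP_f p x = 0) (hy : LocP_f p y = 0) :
    x * y = 0 := by
  obtain ⟨m, -, rfl⟩ := LocP_dvd x hx
  obtain ⟨m', -, rfl⟩ := LocP_dvd y hy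
  have h : ((p ^ 2 : ℕ) : ZMod (p ^ 2)) = 0 := ZMod.natCast_self _
  have h2 : (p : ZMod (p ^ 2)) * (p : ZMod (p ^ 2)) = 0 := by
    rw [← pow_two]
    exact_mod_cast h
  linear_combination (m : ZMod (p ^ 2)) * (m' : ZMod (p ^ 2)) * h2

/-- forms with a triple zero at `(0 : 1)` -/
private def LocP_E1 (p : ℕ) [Fact p.Prime] : Finset (Fin 4 → ZMod (p ^ 2)) :=
  Fintype.piFinset ![LocP_U p, LocP_P p, LocP_P p, LocP_P p]

/-- forms with a double zero at `(0 : 1)` -/
private def LocP_E2 (p : ℕ) [Fact p.Prime] : Finset (Fin 4 → ZMod (p ^ 2)) :=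
  Fintype.piFinset ![univ, LocP_U p, LocP_P p, {0}]

/-- forms divisible by `p` -/
private def LocP_D (p : ℕ) [Fact p.Prime] : Finset (Fin 4 → ZMod (p ^ 2)) :=
  Fintype.piFinset ![LocP_P p, LocP_P p, LocP_P p, LocP_P p]

private theorem LocP_mem_E1 (v : Fin 4 → ZMod (p ^ 2)) : v ∈ LocP_E1 p ↔
    ¬ LocP_f p (v 0) = 0 ∧ LocP_f p (v 1) = 0 ∧ LocP_f p (v 2) = 0 ∧ LocP_f p (v 3) = 0 := by
  simp [LocP_E1, LocP_U, LocP_P, Fintype.mem_piFinset, Fin.forall_fin_succ]

private theorem LocP_mem_E2 (v : Fin 4 → ZMod (p ^ 2)) : v ∈ LocP_E2 p ↔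
    ¬ LocP_f p (v 1) = 0 ∧ LocP_f p (v 2) = 0 ∧ v 3 = 0 := by
  simp [LocP_E2, LocP_U, LocP_P, Fintype.mem_piFinset, Fin.forall_fin_succ]

private theorem LocP_mem_D (v : Fin 4 → ZMod (p ^ 2)) : v ∈ LocP_D p ↔
    LocP_f p (v 0) = 0 ∧ LocP_f p (v 1) = 0 ∧ LocP_f p (v 2) = 0 ∧ LocP_f p (v 3) = 0 := by
  simp [LocP_D, LocP_P, Fintype.mem_piFinset, Fin.forall_fin_succ]

/-- the forms with a multiple zero at `(0 : 1)` -/
private def LocP_E (p : ℕ) [Fact p.Prime] : Finset (Fin 4 → ZMod (p ^ 2)) :=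
  LocP_E1 p ∪ LocP_E2 p

private theorem LocP_mem_E {v : Fin 4 → ZMod (p ^ 2)} (hv : v ∈ LocP_E p) :
    LocP_f p (v 2) = 0 ∧ LocP_f p (v 3) = 0 ∧ ¬ (LocP_f p (v 0) = 0 ∧ LocP_f p (v 1) = 0) ∧
      disc v = 0 := by
  unfold LocP_E at hv
  rw [mem_union, LocP_mem_E1, LocP_mem_E2] at hv
  rcases hv with ⟨h0, h1, h2, h3⟩ | ⟨h1, h2, h3⟩
  · refine ⟨h2, h3, fun h => h0 h.1, ?_⟩
    have h22 := LocP_mul h2 h2
    have h13 := LocP_mul h1 h3
    have h33 := LocP_mul h3 h3
    unfold disc
    linear_combination (v 1 ^ 2 - 4 * v 0 * v 2) * h22 +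
      (- 4 * v 1 ^ 2 + 18 * v 0 * v 2) * h13 - 27 * v 0 ^ 2 * h33
  · have h22 := LocP_mul h2 h2
    refine ⟨h2, by rw [h3, map_zero], fun h => h1 h.2, ?_⟩
    unfold disc
    rw [h3]
    linear_combination (v 1 ^ 2 - 4 * v 0 * v 2) * h22

private theorem LocP_card_E : (LocP_E p).card + 2 * p ^ 4 = 2 * p ^ 5 := by
  have hd : Disjoint (LocP_E1 p) (LocP_E2 p) := by
    rw [disjoint_left]
    intro v h1 h2
    rw [LocP_mem_E1] at h1
    rw [LocP_mem_E2] at h2
    exact h2.1 h1.2.1
  have h1 : (LocP_E1 p).card = (LocP_U p).card * p * p * p := by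
    unfold LocP_E1
    rw [Fintype.card_piFinset, Fin.prod_univ_four]
    simp [LocP_card_P]
  have h2 : (LocP_E2 p).card = p ^ 2 * (LocP_U p).card * p * 1 := by
    unfold LocP_E2
    rw [Fintype.card_piFinset, Fin.prod_univ_four]
    simp [LocP_card_P, ZMod.card]
  have h3 := LocP_card_U (p := p)
  unfold LocP_E
  rw [card_union_of_disjoint hd, h1, h2]
  have h4 : ((LocP_U p).card + p) * p ^ 3 = p ^ 2 * p ^ 3 := by rw [h3]
  nlinarith [h4]

private theorem LocP_card_D : (LocP_D p).card = p ^ 4 := by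
  unfold LocP_D
  rw [Fintype.card_piFinset, Fin.prod_univ_four]
  simp [LocP_card_P]
  ring

/-- the forms with a multiple zero at `(-k : 1)` -/
private def LocP_B (p : ℕ) [Fact p.Prime] (k : ℕ) : Finset (Fin 4 → ZMod (p ^ 2)) :=
  (LocP_E p).image (act 1 (k : ZMod (p ^ 2)) 0 1)

/-- the forms with a multiple zero at `(1 : 0)` -/
private def LocP_B' (p : ℕ) [Fact p.Prime] : Finset (Fin 4 → ZMod (p ^ 2)) :=
  (LocP_E p).image (act 0 1 1 0)

private theorem LocP_inj {R : Type*} [CommRing R] (k : R) :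
    Function.Injective (act 1 k 0 1 : (Fin 4 → R) → Fin 4 → R) := by
  intro v w h
  have h0 := congrFun h 0
  have h1 := congrFun h 1
  have h2 := congrFun h 2
  have h3 := congrFun h 3
  simp only [act, Matrix.cons_val] at h0 h1 h2 h3
  have e0 : v 0 = w 0 := by linear_combination h0
  have e1 : v 1 = w 1 := by
    rw [e0] at h1
    linear_combination h1
  have e2 : v 2 = w 2 := by
    rw [e0, e1] at h2
    linear_combination h2
  have e3 : v 3 = w 3 := by
    rw [e0, e1, e2] at h3
    linear_combination h3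
  funext i
  fin_cases i
  · exact e0
  · exact e1
  · exact e2
  · exact e3

private theorem LocP_inj' {R : Type*} [CommRing R] :
    Function.Injective (act 0 1 1 0 : (Fin 4 → R) → Fin 4 → R) := by
  intro v w h
  have h0 := congrFun h 0
  have h1 := congrFun h 1
  have h2 := congrFun h 2
  have h3 := congrFun h 3
  simp only [act, Matrix.cons_val] at h0 h1 h2 h3
  funext i
  fin_cases i
  · show v 0 = w 0
    linear_combination h3
  · show v 1 = w 1
    linear_combination h2
  · show v 2 = w 2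
    linear_combination h1
  · show v 3 = w 3
    linear_combination h0

private theorem LocP_disj (k l : ℕ) (hk : k < p) (hl : l < p) (hkl : k ≠ l) :
    Disjoint (LocP_B p k) (LocP_B p l) := by
  rw [disjoint_left]
  intro v h1 h2
  unfold LocP_B at h1 h2
  rw [mem_image] at h1 h2
  obtain ⟨w, hw, rfl⟩ := h1
  obtain ⟨w', hw', he⟩ := h2
  obtain ⟨a2, a3, a0, -⟩ := LocP_mem_E hw
  obtain ⟨b2, b3, b0, -⟩ := LocP_mem_E hw'
  have e0 := congrArg (LocP_f p) (congrFun he 0)
  have e1 := congrArg (LocP_f p) (congrFun he 1)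
  have e2 := congrArg (LocP_f p) (congrFun he 2)
  have e3 := congrArg (LocP_f p) (congrFun he 3)
  simp only [act, Matrix.cons_val, map_add, map_mul, map_pow, map_one, map_zero, map_natCast,
    a2, a3, b2, b3, map_ofNat] at e0 e1 e2 e3
  set x := LocP_f p (w 0)
  set y := LocP_f p (w 1)
  set x' := LocP_f p (w' 0)
  set y' := LocP_f p (w' 1)
  have hd : ((l : ZMod p) - (k : ZMod p)) ≠ 0 := by
    intro h
    rw [sub_eq_zero, ZMod.natCast_eq_natCast_iff', Nat.mod_eq_of_lt hl, Nat.mod_eq_of_lt hk] at h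
    exact hkl h.symm
  have c0 : x' = x := by linear_combination e0
  rw [c0] at e1 e2 e3
  have c1 : y' = y + 3 * x * ((k : ZMod p) - l) := by linear_combination e1
  rw [c1] at e2 e3
  -- the second coefficient
  have c2 : ((l : ZMod p) - k) * (3 * x * ((k : ZMod p) - l) + 2 * y) = 0 := by
    linear_combination e2
  have c3 : ((l : ZMod p) - k) ^ 3 * x = 0 := by
    linear_combination -2 * e3 + ((l : ZMod p) + k) * c2
  have c5 : x = 0 := (mul_eq_zero.1 c3).resolve_left (pow_ne_zero 3 hd)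
  rw [c5] at e3 c2
  have c4 : ((l : ZMod p) - k) ^ 2 * y = 0 := by
    linear_combination e3 - (k : ZMod p) * c2
  exact a0 ⟨c5, (mul_eq_zero.1 c4).resolve_left (pow_ne_zero 2 hd)⟩

private theorem LocP_disj' (k : ℕ) : Disjoint (LocP_B' p) (LocP_B p k) := by
  rw [disjoint_left]
  intro v h1 h2
  unfold LocP_B' at h1
  unfold LocP_B at h2
  rw [mem_image] at h1 h2
  obtain ⟨w, hw, rfl⟩ := h1
  obtain ⟨w', hw', he⟩ := h2
  obtain ⟨a2, a3, a0, -⟩ := LocP_mem_E hw
  obtain ⟨b2, b3, b0, -⟩ := LocP_mem_E hw'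
  have e0 := congrArg (LocP_f p) (congrFun he 0)
  have e1 := congrArg (LocP_f p) (congrFun he 1)
  simp only [act, Matrix.cons_val, map_add, map_mul, map_pow, map_one, map_zero, map_natCast,
    a2, a3, b2, b3, map_ofNat] at e0 e1
  have c0 : LocP_f p (w' 0) = 0 := by linear_combination e0
  rw [c0] at e1
  exact b0 ⟨c0, by linear_combination e1⟩

private theorem LocP_disjD (k : ℕ) : Disjoint (LocP_D p) (LocP_B p k) := by
  rw [disjoint_left]
  intro v h1 h2
  unfold LocP_B at h2
  rw [mem_image] at h2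
  obtain ⟨w', hw', rfl⟩ := h2
  rw [LocP_mem_D] at h1
  obtain ⟨b2, b3, b0, -⟩ := LocP_mem_E hw'
  obtain ⟨e0, e1, -, -⟩ := h1
  simp only [act, Matrix.cons_val, map_add, map_mul, map_pow, map_one, map_zero, map_natCast,
    b2, b3, map_ofNat] at e0 e1
  have c0 : LocP_f p (w' 0) = 0 := by linear_combination e0
  rw [c0] at e1
  exact b0 ⟨c0, by linear_combination e1⟩

private theorem LocP_disjD' : Disjoint (LocP_D p) (LocP_B' p) := by
  rw [disjoint_left]
  intro v h1 h2
  unfold LocP_B' at h2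
  rw [mem_image] at h2
  obtain ⟨w', hw', rfl⟩ := h2
  rw [LocP_mem_D] at h1
  obtain ⟨b2, b3, b0, -⟩ := LocP_mem_E hw'
  obtain ⟨-, -, e2, e3⟩ := h1
  simp only [act, Matrix.cons_val, map_add, map_mul, map_pow, map_one, map_zero,
    b2, b3, map_ofNat] at e2 e3
  exact b0 ⟨by linear_combination e3, by linear_combination e2⟩

end LocP

theorem loc_p (p : ℕ) (hp : p.Prime) (h5 : 5 ≤ p) :
    ∃ A : Finset (Fin 4 → ZMod (p ^ 2)), A.card + 2 * p ^ 6 ≤ p ^ 8 + p ^ 4 ∧
      ∀ v : Fin 4 → ℤ, ¬ ((p : ℤ) ^ 2 ∣ disc v) → castv (ZMod (p ^ 2)) v ∈ A := by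
  classical
  have : Fact p.Prime := ⟨hp⟩
  refine ⟨Finset.univ.filter (fun v => ¬ disc v = 0), ?_, ?_⟩
  · set S : Finset (Fin 4 → ZMod (p ^ 2)) :=
      LocP_D p ∪ (LocP_B' p ∪ (Finset.range p).biUnion (LocP_B p)) with hS
    have hsub : S ⊆ Finset.univ.filter (fun v : Fin 4 → ZMod (p ^ 2) => disc v = 0) := by
      intro v hv
      rw [Finset.mem_filter]
      refine ⟨Finset.mem_univ _, ?_⟩
      rw [hS, Finset.mem_union, Finset.mem_union, Finset.mem_biUnion] at hv
      rcases hv with hv | hv | ⟨k, -, hv⟩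
      · rw [LocP_mem_D] at hv
        obtain ⟨h0, h1, h2, h3⟩ := hv
        have h22 := LocP_mul h2 h2
        have h13 := LocP_mul h1 h3
        have h33 := LocP_mul h3 h3
        unfold disc
        linear_combination (v 1 ^ 2 - 4 * v 0 * v 2) * h22 +
          (- 4 * v 1 ^ 2 + 18 * v 0 * v 2) * h13 - 27 * v 0 ^ 2 * h33
      · unfold LocP_B' at hv
        rw [Finset.mem_image] at hv
        obtain ⟨w, hw, rfl⟩ := hv
        rw [disc_act, (LocP_mem_E hw).2.2.2, mul_zero]
      · unfold LocP_B at hv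
        rw [Finset.mem_image] at hv
        obtain ⟨w, hw, rfl⟩ := hv
        rw [disc_act, (LocP_mem_E hw).2.2.2, mul_zero]
    have hcardB : ∀ k, (LocP_B p k).card = (LocP_E p).card := by
      intro k
      unfold LocP_B
      exact Finset.card_image_of_injective _ (LocP_inj _)
    have hcardB' : (LocP_B' p).card = (LocP_E p).card := by
      unfold LocP_B'
      exact Finset.card_image_of_injective _ LocP_inj'
    have hbi : ((Finset.range p).biUnion (LocP_B p)).card = p * (LocP_E p).card := by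
      rw [Finset.card_biUnion]
      · rw [Finset.sum_congr rfl (fun k _ => hcardB k), Finset.sum_const, Finset.card_range,
          smul_eq_mul]
      · intro k hk l hl hkl
        exact LocP_disj k l (Finset.mem_range.1 hk) (Finset.mem_range.1 hl) hkl
    have hcard : S.card = p ^ 4 + ((LocP_E p).card + p * (LocP_E p).card) := by
      rw [hS, Finset.card_union_of_disjoint, Finset.card_union_of_disjoint, hbi, hcardB', LocP_card_D]
      · rw [Finset.disjoint_biUnion_right]
        intro k _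
        exact LocP_disj' k
      · rw [Finset.disjoint_union_right]
        refine ⟨LocP_disjD', ?_⟩
        rw [Finset.disjoint_biUnion_right]
        intro k _
        exact LocP_disjD k
    have hle := Finset.card_le_card hsub
    have htot := Finset.card_filter_add_card_filter_not
      (s := (Finset.univ : Finset (Fin 4 → ZMod (p ^ 2)))) (fun v => disc v = 0)
    have hall : (Finset.univ : Finset (Fin 4 → ZMod (p ^ 2))).card = p ^ 8 := by
      rw [Finset.card_univ, Fintype.card_fun, ZMod.card, Fintype.card_fin, ← pow_mul]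
    rw [hall] at htot
    have hE := LocP_card_E (p := p)
    have hE2 : ((LocP_E p).card + 2 * p ^ 4) * (p + 1) = 2 * p ^ 5 * (p + 1) := by rw [hE]
    have hid : S.card + p ^ 4 = 2 * p ^ 6 := by
      rw [hcard]
      nlinarith [hE2]
    omega
  · intro v hv
    rw [Finset.mem_filter]
    refine ⟨Finset.mem_univ _, ?_⟩
    rw [disc_castv]
    intro h
    apply hv
    rw [ZMod.intCast_zmod_eq_zero_iff_dvd] at h
    exact_mod_cast h

end Pool.Agent.DUC
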