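import Pool.Agent.DUC.Defs

/-!
# DUC/LocS: the conditions at 2 and 3

PLAN.  Finite checks.  `small_two`, `r % 4 = 3` (`sg r = 1`): `disc v` odd is a condition on `v` mod 2, satisfied by 6 of the 16
vectors mod 2, so by 96 of the 256 vectors mod 4.  `r % 4 ≠ 3` (`sg r = 4`): `disc v ≡ -4 r` mod 16, i.e. `12` (`r % 4 = 1`) or `8` (`r % 4 = 2`) mod
16; the set of residues mod 4 of such `v` has 24 elements (checked by computer: 6144 classes mod 16 = all lifts of 24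
classes mod 4).  To avoid a check over `16⁴` vectors use `disc (v₀ + 4 e) ≡ disc v₀ + 4 ∂disc(v₀)·e` mod 16, or
split: a condition mod 4 (`disc ≡ 0` mod 4: 256 vectors) and so on; or count in `Nat` with `decide +kernel`.
`small_three`: `disc v ≡ -r` mod 3: 24 of 81 vectors; `Split` in addition (with `r % 3 = 2`, `disc ≡ 1`): 8 vectors.
-/

set_option autoImplicit false

namespace Pool.Agent.DUC

/-- the discriminant of `a x³ + b x² y + c x y² + e y³` -/
private def locSF (a b c d : ℤ) : ℤ :=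
  b ^ 2 * c ^ 2 - 4 * a * c ^ 3 - 4 * b ^ 3 * d - 27 * a ^ 2 * d ^ 2 + 18 * a * b * c * d

private theorem locSF_eq (v : Fin 4 → ℤ) : disc v = locSF (v 0) (v 1) (v 2) (v 3) := by
  simp only [disc, locSF]

/-- the change of the discriminant modulo `16` under a change of the form modulo `4` -/
private theorem locSF_add (a b c d e0 e1 e2 e3 : ℤ) :
    ∃ R : ℤ, locSF (a + 4 * e0) (b + 4 * e1) (c + 4 * e2) (d + 4 * e3) =
      locSF a b c d + 8 * ((a * d + b * c) * (d * e0 + c * e1 + b * e2 + a * e3)) + 16 * R := by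
  refine ⟨(-14 * a ^ 2 * d * e3) + (-27 * a ^ 2 * e3 ^ 2) + (4 * a * b * c * e3) + (4 * a * b * d * e2)
      + (18 * a * b * e2 * e3) + (-3 * a * c ^ 2 * e2) + (4 * a * c * d * e1) + (18 * a * c * e1 * e3)
      + (-12 * a * c * e2 ^ 2) + (-14 * a * d ^ 2 * e0) + (-108 * a * d * e0 * e3)
      + (18 * a * d * e1 * e2) + (-216 * a * e0 * e3 ^ 2) + (72 * a * e1 * e2 * e3) + (-16 * a * e2 ^ 3)
      + (-1 * b ^ 3 * e3) + (-3 * b ^ 2 * d * e1) + (-12 * b ^ 2 * e1 * e3) + (1 * b ^ 2 * e2 ^ 2)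
      + (4 * b * c * d * e0) + (18 * b * c * e0 * e3) + (4 * b * c * e1 * e2) + (18 * b * d * e0 * e2)
      + (-12 * b * d * e1 ^ 2) + (72 * b * e0 * e2 * e3) + (-48 * b * e1 ^ 2 * e3)
      + (8 * b * e1 * e2 ^ 2) + (-1 * c ^ 3 * e0) + (-12 * c ^ 2 * e0 * e2) + (1 * c ^ 2 * e1 ^ 2)
      + (18 * c * d * e0 * e1) + (72 * c * e0 * e1 * e3) + (-48 * c * e0 * e2 ^ 2)
      + (8 * c * e1 ^ 2 * e2) + (-27 * d ^ 2 * e0 ^ 2) + (-216 * d * e0 ^ 2 * e3)
      + (72 * d * e0 * e1 * e2) + (-16 * d * e1 ^ 3) + (-432 * e0 ^ 2 * e3 ^ 2)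
      + (288 * e0 * e1 * e2 * e3) + (-64 * e0 * e2 ^ 3) + (-64 * e1 ^ 3 * e3) + (16 * e1 ^ 2 * e2 ^ 2), ?_⟩
  simp only [locSF]
  ring

/-- a discriminant divisible by `4` is, modulo `16`, a function of the form modulo `4` -/
private theorem locSF_mod (a b c d e0 e1 e2 e3 : ℤ)
    (h : (4 : ℤ) ∣ locSF (a + 4 * e0) (b + 4 * e1) (c + 4 * e2) (d + 4 * e3)) :
    (16 : ℤ) ∣ locSF (a + 4 * e0) (b + 4 * e1) (c + 4 * e2) (d + 4 * e3) - locSF a b c d := by
  obtain ⟨R, hR⟩ := locSF_add a b c d e0 e1 e2 e3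
  have h1 : (4 : ℤ) ∣ (a * d + b * c) ^ 2 := by
    obtain ⟨k, hk⟩ := h
    refine ⟨k - 2 * ((a * d + b * c) * (d * e0 + c * e1 + b * e2 + a * e3)) - 4 * R + a * c ^ 3 + b ^ 3 * d +
      7 * a ^ 2 * d ^ 2 - 4 * a * b * c * d, ?_⟩
    rw [hR] at hk
    simp only [locSF] at hk
    linear_combination hk
  have h2 : Even ((a * d + b * c) ^ 2) := by
    obtain ⟨k, hk⟩ := h1
    exact ⟨2 * k, by rw [hk]; ring⟩
  have h3 : Even (a * d + b * c) := (Int.even_pow.1 h2).1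
  obtain ⟨k, hk⟩ := h3
  refine ⟨k * (d * e0 + c * e1 + b * e2 + a * e3) + R, ?_⟩
  rw [hR, hk]
  ring

/-- the discriminant modulo `16` on natural numbers -/
private def locSN (a b c e : ℕ) : ℕ :=
  (b * b * c * c + 12 * a * c * c * c + 12 * b * b * b * e + 5 * a * a * e * e + 2 * a * b * c * e) % 16

private theorem locSN_dvd (a b c e : ℕ) : (16 : ℤ) ∣ locSF a b c e - (locSN a b c e : ℤ) := by
  have h : (16 : ℤ) ∣ ((b * b * c * c + 12 * a * c * c * c + 12 * b * b * b * e + 5 * a * a * e * e +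
      2 * a * b * c * e : ℕ) : ℤ) - (locSN a b c e : ℤ) := by
    simp only [locSN]
    omega
  obtain ⟨k, hk⟩ := h
  refine ⟨k - a * c ^ 3 - b ^ 3 * e - 2 * a ^ 2 * e ^ 2 + a * b * c * e, ?_⟩
  push_cast at hk
  simp only [locSF]
  linear_combination hk

private theorem locSN_lt (a b c e : ℕ) : locSN a b c e < 16 := Nat.mod_lt _ (by norm_num)

private def locSA12 : Finset (ZMod 4 × ZMod 4 × ZMod 4 × ZMod 4) :=
  Finset.univ.filter (fun w => locSN w.1.val w.2.1.val w.2.2.1.val w.2.2.2.val = 12)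

private def locSA8 : Finset (ZMod 4 × ZMod 4 × ZMod 4 × ZMod 4) :=
  Finset.univ.filter (fun w => locSN w.1.val w.2.1.val w.2.2.1.val w.2.2.2.val = 8)

private def locSA1 : Finset (ZMod 4 × ZMod 4 × ZMod 4 × ZMod 4) :=
  Finset.univ.filter (fun w => locSN w.1.val w.2.1.val w.2.2.1.val w.2.2.2.val % 2 = 1)

private theorem locS_cnt12 : locSA12.card = 24 := by
  decide +kernel

private theorem locS_cnt8 : locSA8.card = 24 := by
  decide +kernel

private theorem locS_cnt1 : locSA1.card = 96 := by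
  decide +kernel

private theorem locS_mem12 {w : ZMod 4 × ZMod 4 × ZMod 4 × ZMod 4}
    (h : locSN w.1.val w.2.1.val w.2.2.1.val w.2.2.2.val = 12) : w ∈ locSA12 :=
  Finset.mem_filter.2 ⟨Finset.mem_univ _, h⟩

private theorem locS_mem8 {w : ZMod 4 × ZMod 4 × ZMod 4 × ZMod 4}
    (h : locSN w.1.val w.2.1.val w.2.2.1.val w.2.2.2.val = 8) : w ∈ locSA8 :=
  Finset.mem_filter.2 ⟨Finset.mem_univ _, h⟩

private theorem locS_mem1 {w : ZMod 4 × ZMod 4 × ZMod 4 × ZMod 4}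
    (h : locSN w.1.val w.2.1.val w.2.2.1.val w.2.2.2.val % 2 = 1) : w ∈ locSA1 :=
  Finset.mem_filter.2 ⟨Finset.mem_univ _, h⟩

/-- quadruples as vectors -/
private def locSv (n : ℕ) [NeZero n] (w : ZMod n × ZMod n × ZMod n × ZMod n) : Fin 4 → ZMod n :=
  ![w.1, w.2.1, w.2.2.1, w.2.2.2]

private theorem locSv_cast (n : ℕ) [NeZero n] (v : Fin 4 → ℤ) :
    locSv n ((v 0 : ZMod n), (v 1 : ZMod n), (v 2 : ZMod n), (v 3 : ZMod n)) = castv (ZMod n) v := by
  funext i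
  fin_cases i
  · rfl
  · rfl
  · rfl
  · rfl

/-- the discriminant modulo `16` (if divisible by `4`) and modulo `2` from the residues modulo `4` -/
private theorem locS_key (v : Fin 4 → ℤ) :
    ((4 : ℤ) ∣ disc v → (16 : ℤ) ∣ disc v - (locSN (v 0 : ZMod 4).val (v 1 : ZMod 4).val (v 2 : ZMod 4).val
      (v 3 : ZMod 4).val : ℤ)) ∧ (2 : ℤ) ∣ disc v - (locSN (v 0 : ZMod 4).val (v 1 : ZMod 4).val
        (v 2 : ZMod 4).val (v 3 : ZMod 4).val : ℤ) := by
  have hv : ∀ i, v i = ((v i : ZMod 4).val : ℤ) + 4 * (v i / 4) := by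
    intro i
    have h : (((v i : ZMod 4).val : ℕ) : ℤ) = v i % ((4 : ℕ) : ℤ) := ZMod.val_intCast (n := 4) (v i)
    rw [h]
    have := Int.emod_add_mul_ediv (v i) 4
    push_cast
    linarith
  set a := (v 0 : ZMod 4).val
  set b := (v 1 : ZMod 4).val
  set c := (v 2 : ZMod 4).val
  set d := (v 3 : ZMod 4).val
  have hd : disc v = locSF ((a : ℤ) + 4 * (v 0 / 4)) ((b : ℤ) + 4 * (v 1 / 4)) ((c : ℤ) + 4 * (v 2 / 4))
      ((d : ℤ) + 4 * (v 3 / 4)) := by
    rw [← hv 0, ← hv 1, ← hv 2, ← hv 3, locSF_eq]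
  have hN := locSN_dvd a b c d
  constructor
  · intro h4
    rw [hd] at h4
    have h := locSF_mod _ _ _ _ _ _ _ _ h4
    rw [hd]
    have := dvd_add h hN
    rwa [sub_add_sub_cancel] at this
  · obtain ⟨R, hR⟩ := locSF_add (a : ℤ) b c d (v 0 / 4) (v 1 / 4) (v 2 / 4) (v 3 / 4)
    have h2 : (2 : ℤ) ∣ locSF a b c d - (locSN a b c d : ℤ) := dvd_trans (by norm_num) hN
    obtain ⟨k, hk⟩ := h2
    rw [hd, hR]
    refine ⟨k + 4 * (((a : ℤ) * d + b * c) * ((d : ℤ) * (v 0 / 4) + c * (v 1 / 4) + b * (v 2 / 4) + a * (v 3 / 4))) +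
      8 * R, ?_⟩
    linear_combination hk

private theorem locS_img {A : Finset (ZMod 4 × ZMod 4 × ZMod 4 × ZMod 4)} {k : ℕ} (h : A.card = k) :
    (A.image (locSv 4)).card ≤ k := by
  rw [← h]
  exact Finset.card_image_le

theorem small_two (r : ℕ) (hr : r ∈ Cls) : ∃ A : Finset (Fin 4 → ZMod 4), (A.card : ℤ) * sg r ≤ 96 ∧
    ∀ v : Fin 4 → ℤ, Loc r v → castv (ZMod 4) v ∈ A := by
  have hc : r % 4 = 1 ∨ r % 4 = 2 ∨ r % 4 = 3 := by
    simp only [Cls, Finset.mem_insert, Finset.mem_singleton] at hr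
    omega
  rcases hc with hc | hc | hc
  · refine ⟨locSA12.image (locSv 4), ?_, ?_⟩
    · have h := locS_img locS_cnt12
      have hs : sg r = 4 := by
        unfold sg
        rw [if_neg (by omega)]
      rw [hs]
      omega
    · intro v hv
      have h16 := hv.1
      rw [if_neg (by omega)] at h16
      have h4 : (4 : ℤ) ∣ disc v := by omega
      have hk := (locS_key v).1 h4
      refine Finset.mem_image.2 ⟨((v 0 : ZMod 4), (v 1 : ZMod 4), (v 2 : ZMod 4), (v 3 : ZMod 4)),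
        locS_mem12 ?_, locSv_cast 4 v⟩
      have hlt := locSN_lt (v 0 : ZMod 4).val (v 1 : ZMod 4).val (v 2 : ZMod 4).val (v 3 : ZMod 4).val
      have hr4 : (r : ℤ) % 4 = 1 := by omega
      dsimp only
      omega
  · refine ⟨locSA8.image (locSv 4), ?_, ?_⟩
    · have h := locS_img locS_cnt8
      have hs : sg r = 4 := by
        unfold sg
        rw [if_neg (by omega)]
      rw [hs]
      omega
    · intro v hv
      have h16 := hv.1
      rw [if_neg (by omega)] at h16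
      have h4 : (4 : ℤ) ∣ disc v := by omega
      have hk := (locS_key v).1 h4
      refine Finset.mem_image.2 ⟨((v 0 : ZMod 4), (v 1 : ZMod 4), (v 2 : ZMod 4), (v 3 : ZMod 4)),
        locS_mem8 ?_, locSv_cast 4 v⟩
      have hlt := locSN_lt (v 0 : ZMod 4).val (v 1 : ZMod 4).val (v 2 : ZMod 4).val (v 3 : ZMod 4).val
      have hr4 : (r : ℤ) % 4 = 2 := by omega
      dsimp only
      omega
  · refine ⟨locSA1.image (locSv 4), ?_, ?_⟩
    · have h := locS_img locS_cnt1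
      have hs : sg r = 1 := by
        unfold sg
        rw [if_pos hc]
      rw [hs]
      omega
    · intro v hv
      have h16 := hv.1
      rw [if_pos hc] at h16
      have hk := (locS_key v).2
      refine Finset.mem_image.2 ⟨((v 0 : ZMod 4), (v 1 : ZMod 4), (v 2 : ZMod 4), (v 3 : ZMod 4)),
        locS_mem1 ?_, locSv_cast 4 v⟩
      have h1 := Int.odd_iff.1 h16
      dsimp only
      omega

private theorem locS_cnt3 (k : ZMod 3) (hk : k ≠ 0) :
    ((Finset.univ : Finset (ZMod 3 × ZMod 3 × ZMod 3 × ZMod 3)).filter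
    (fun w => disc (locSv 3 w) = k)).card = 24 := by
  revert k
  decide +kernel

private instance (v : Fin 4 → ZMod 3) : Decidable (Split v) := by
  unfold Split
  infer_instance

private theorem locS_cntS :
    ((Finset.univ : Finset (ZMod 3 × ZMod 3 × ZMod 3 × ZMod 3)).filter
    (fun w => disc (locSv 3 w) = 1 ∧ Split (locSv 3 w))).card = 8 := by
  decide +kernel

private theorem locS_disc3 (r : ℕ) (v : Fin 4 → ℤ) (h : Loc r v) :
    disc (castv (ZMod 3) v) = -(r : ZMod 3) := by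
  rw [disc_castv]
  have h1 : (((disc v + r : ℤ)) : ZMod 3) = 0 := (ZMod.intCast_zmod_eq_zero_iff_dvd _ 3).2 (by exact_mod_cast h.2)
  push_cast at h1
  exact eq_neg_of_add_eq_zero_left h1

theorem small_three (r : ℕ) (hr : r ∈ Cls) : ∃ A : Finset (Fin 4 → ZMod 3), A.card ≤ 24 ∧
    ∀ v : Fin 4 → ℤ, Loc r v → castv (ZMod 3) v ∈ A := by
  classical
  have hr0 : -(r : ZMod 3) ≠ 0 := by
    intro h
    have h1 : (3 : ℕ) ∣ r := (ZMod.natCast_eq_zero_iff r 3).1 (neg_eq_zero.1 h)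
    simp only [Cls, Finset.mem_insert, Finset.mem_singleton] at hr
    omega
  refine ⟨((Finset.univ : Finset (ZMod 3 × ZMod 3 × ZMod 3 × ZMod 3)).filter
    (fun w => disc (locSv 3 w) = -(r : ZMod 3))).image (locSv 3),
    Finset.card_image_le.trans (locS_cnt3 _ hr0).le, ?_⟩
  intro v hv
  refine Finset.mem_image.2 ⟨((v 0 : ZMod 3), (v 1 : ZMod 3), (v 2 : ZMod 3), (v 3 : ZMod 3)),
    Finset.mem_filter.2 ⟨Finset.mem_univ _, ?_⟩, locSv_cast 3 v⟩
  rw [locSv_cast]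
  exact locS_disc3 r v hv

theorem small_split (r : ℕ) (hr : r ∈ Cls) (h2 : r % 3 = 2) : ∃ A : Finset (Fin 4 → ZMod 3), A.card ≤ 8 ∧
    ∀ v : Fin 4 → ℤ, Loc r v → Split (castv (ZMod 3) v) → castv (ZMod 3) v ∈ A := by
  classical
  have hr1 : -(r : ZMod 3) = 1 := by
    have h : (r : ZMod 3) = ((r % 3 : ℕ) : ZMod 3) := (ZMod.natCast_mod r 3).symm
    rw [h, h2]
    decide
  refine ⟨((Finset.univ : Finset (ZMod 3 × ZMod 3 × ZMod 3 × ZMod 3)).filter
    (fun w => disc (locSv 3 w) = 1 ∧ Split (locSv 3 w))).image (locSv 3),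
    Finset.card_image_le.trans locS_cntS.le, ?_⟩
  intro v hv hs
  refine Finset.mem_image.2 ⟨((v 0 : ZMod 3), (v 1 : ZMod 3), (v 2 : ZMod 3), (v 3 : ZMod 3)),
    Finset.mem_filter.2 ⟨Finset.mem_univ _, ?_⟩, locSv_cast 3 v⟩
  rw [locSv_cast]
  exact ⟨(locS_disc3 r v hv).trans hr1, hs⟩

end Pool.Agent.DUC
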