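import Pool.Agent.DUC.Defs
import Pool.Agent.DUC.LocP
import Pool.Agent.DUC.LocS

/-!
# DUC/Sieve: the local conditions put together

PLAN.  `crt_step`: the map `(Fin 4 → ZMod (M * N)) ≃ (Fin 4 → ZMod M) × (Fin 4 → ZMod N)` from `ZMod.chineseRemainder`; `C` = preimage of
`A ×ˢ B`.  `sieve`: `small_two` (modulus 4) × `small_three` (modulus 3) × `loc_p` for `p ∈ prs P` (induction on the finset
`prs P`, moduli `4 * 3 * ∏ p²`, coprime): densities `(96 / sg r) / 256 = 3/(8 sg r)`, `24/81 = 8/27`, product `1/(9 sg r)`; and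
`A.card / p⁸ ≤ 1 - 2/p² + 1/p⁴ = (1 - 1/p²)²`.  `sieveS`: `8/81` at 3, product `1/(27 sg r)`.  Do the induction for a general
starting pair `(M₀, A₀)` with `M₀` coprime to the primes `≥ 5`.
-/

set_option autoImplicit false

namespace Pool.Agent.DUC

theorem crt_step (M N : ℕ) [NeZero M] [NeZero N] (h : Nat.Coprime M N) (A : Finset (Fin 4 → ZMod M))
    (B : Finset (Fin 4 → ZMod N)) : ∃ C : Finset (Fin 4 → ZMod (M * N)), C.card = A.card * B.card ∧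
      ∀ v : Fin 4 → ℤ, castv (ZMod M) v ∈ A → castv (ZMod N) v ∈ B → castv (ZMod (M * N)) v ∈ C := by
  classical
  set e := ZMod.chineseRemainder h with he
  have hinj : Function.Injective
      (fun q : (Fin 4 → ZMod M) × (Fin 4 → ZMod N) => (fun i => e.symm (q.1 i, q.2 i) : Fin 4 → ZMod (M * N))) := by
    rintro ⟨a, b⟩ ⟨a', b'⟩ hab
    have h1 : ∀ i, a i = a' i ∧ b i = b' i := by
      intro i
      have h2 := congrFun hab i
      simp only at h2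
      have h3 := e.symm.injective h2
      exact ⟨congrArg Prod.fst h3, congrArg Prod.snd h3⟩
    exact Prod.ext (funext fun i => (h1 i).1) (funext fun i => (h1 i).2)
  refine ⟨(A ×ˢ B).image (fun q => (fun i => e.symm (q.1 i, q.2 i) : Fin 4 → ZMod (M * N))), ?_, ?_⟩
  · rw [Finset.card_image_of_injective _ hinj, Finset.card_product]
  · intro v hA hB
    rw [Finset.mem_image]
    refine ⟨(castv (ZMod M) v, castv (ZMod N) v), Finset.mem_product.mpr ⟨hA, hB⟩, ?_⟩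
    funext i
    have h4 : ((castv (ZMod M) v i, castv (ZMod N) v i) : ZMod M × ZMod N) = ((v i : ℤ) : ZMod M × ZMod N) := by
      simp only [castv]
      exact Prod.ext (by simp) (by simp)
    simp only
    rw [h4, map_intCast]
    rfl

/-- adding the primes of a finite set one after the other -/
theorem sieve_fam (Q : (Fin 4 → ℤ) → Prop) (M0 : ℕ) [NeZero M0] (A0 : Finset (Fin 4 → ZMod M0))
    (hA0 : ∀ v, Q v → castv (ZMod M0) v ∈ A0) (hc : ∀ p : ℕ, p.Prime → 5 ≤ p → Nat.Coprime M0 p) (S : Finset ℕ) :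
    (∀ p ∈ S, p.Prime ∧ 5 ≤ p) → ∃ (M : ℕ) (_ : NeZero M) (A : Finset (Fin 4 → ZMod M)),
      (A.card : ℝ) / (M : ℝ) ^ 4 ≤ (A0.card : ℝ) / (M0 : ℝ) ^ 4 * (∏ p ∈ S, (1 - 1 / (p : ℝ) ^ 2)) ^ 2 ∧
      (∀ v : Fin 4 → ℤ, Q v → (∀ p ∈ S, ¬ ((p : ℤ) ^ 2 ∣ disc v)) → castv (ZMod M) v ∈ A) ∧
      ∀ p : ℕ, p.Prime → 5 ≤ p → p ∉ S → Nat.Coprime M p := by
  classical
  induction S using Finset.induction_on with
  | empty =>
    intro _
    refine ⟨M0, inferInstance, A0, by simp, fun v hv _ => hA0 v hv, fun p hp h5 _ => hc p hp h5⟩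
  | insert p S hpS ih =>
    intro hS
    obtain ⟨M, hM, A, h1, h2, h3⟩ := ih (fun q hq => hS q (Finset.mem_insert_of_mem hq))
    obtain ⟨hp, h5⟩ := hS p (Finset.mem_insert_self p S)
    obtain ⟨B, hB1, hB2⟩ := loc_p p hp h5
    have hp0 : 0 < p := hp.pos
    haveI : NeZero (p ^ 2) := ⟨(pow_pos hp0 2).ne'⟩
    have hcop : Nat.Coprime M (p ^ 2) := Nat.Coprime.pow_right 2 (h3 p hp h5 hpS)
    obtain ⟨C, hC1, hC2⟩ := crt_step M (p ^ 2) hcop A B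
    have hM0 : 0 < M := Nat.pos_of_ne_zero hM.out
    refine ⟨M * p ^ 2, ⟨(Nat.mul_pos hM0 (pow_pos hp0 2)).ne'⟩, C, ?_, ?_, ?_⟩
    · have hpR : (0 : ℝ) < (p : ℝ) := by exact_mod_cast hp0
      have hMR : (0 : ℝ) < (M : ℝ) := by exact_mod_cast hM0
      have hBR : (B.card : ℝ) + 2 * (p : ℝ) ^ 6 ≤ (p : ℝ) ^ 8 + (p : ℝ) ^ 4 := by exact_mod_cast hB1
      have hB3 : (B.card : ℝ) / (p : ℝ) ^ 8 ≤ (1 - 1 / (p : ℝ) ^ 2) ^ 2 := by
        rw [div_le_iff₀ (by positivity)]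
        have : (1 - 1 / (p : ℝ) ^ 2) ^ 2 * (p : ℝ) ^ 8 = (p : ℝ) ^ 8 + (p : ℝ) ^ 4 - 2 * (p : ℝ) ^ 6 := by
          field_simp
          ring
        rw [this]
        linarith
      rw [hC1, Finset.prod_insert hpS, mul_pow]
      push_cast
      have e1 : (A.card : ℝ) * (B.card : ℝ) / ((M : ℝ) * (p : ℝ) ^ 2) ^ 4
          = ((A.card : ℝ) / (M : ℝ) ^ 4) * ((B.card : ℝ) / (p : ℝ) ^ 8) := by
        field_simp
      rw [e1]
      have hB0 : (0 : ℝ) ≤ (B.card : ℝ) / (p : ℝ) ^ 8 := by positivity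
      have hA0' : (0 : ℝ) ≤ (A0.card : ℝ) / (M0 : ℝ) ^ 4 * (∏ q ∈ S, (1 - 1 / (q : ℝ) ^ 2)) ^ 2 := by positivity
      calc ((A.card : ℝ) / (M : ℝ) ^ 4) * ((B.card : ℝ) / (p : ℝ) ^ 8)
          ≤ ((A0.card : ℝ) / (M0 : ℝ) ^ 4 * (∏ q ∈ S, (1 - 1 / (q : ℝ) ^ 2)) ^ 2) * (1 - 1 / (p : ℝ) ^ 2) ^ 2 :=
            mul_le_mul h1 hB3 hB0 hA0'
        _ = _ := by ring
    · intro v hv hd
      exact hC2 v (h2 v hv (fun q hq => hd q (Finset.mem_insert_of_mem hq)))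
        (hB2 v (hd p (Finset.mem_insert_self p S)))
    · intro q hq hq5 hqS
      rw [Finset.mem_insert, not_or] at hqS
      refine Nat.Coprime.mul_left (h3 q hq hq5 hqS.2) ?_
      exact Nat.Coprime.pow_left 2 ((Nat.coprime_primes hp hq).mpr (fun h => hqS.1 h.symm))

private theorem sg_pos (r : ℕ) : (0 : ℝ) < ((sg r : ℤ) : ℝ) := by
  unfold sg
  split_ifs <;> norm_num

private theorem cop12 (p : ℕ) (hp : p.Prime) (h5 : 5 ≤ p) : Nat.Coprime (4 * 3) p := by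
  have h2 : Nat.Coprime 2 p := (Nat.coprime_primes Nat.prime_two hp).mpr (by omega)
  have h3 : Nat.Coprime 3 p := (Nat.coprime_primes Nat.prime_three hp).mpr (by omega)
  have h4 : Nat.Coprime 4 p := by
    have := Nat.Coprime.pow_left 2 h2
    simpa using this
  exact Nat.Coprime.mul_left h4 h3

private theorem prs_mem (P : ℕ) : ∀ p ∈ prs P, p.Prime ∧ 5 ≤ p := by
  intro p hp
  unfold prs at hp
  rw [Finset.mem_filter, Finset.mem_Icc] at hp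
  exact ⟨hp.2, hp.1.1⟩

theorem sieve (r : ℕ) (hr : r ∈ Cls) (P : ℕ) : ∃ (M : ℕ) (_ : NeZero M) (A : Finset (Fin 4 → ZMod M)),
    (A.card : ℝ) / (M : ℝ) ^ 4 ≤ 1 / (9 * (sg r : ℝ)) * (∏ p ∈ prs P, (1 - 1 / (p : ℝ) ^ 2)) ^ 2 ∧
      ∀ v : Fin 4 → ℤ, Loc r v → (∀ p ∈ prs P, ¬ ((p : ℤ) ^ 2 ∣ disc v)) → castv (ZMod M) v ∈ A := by
  obtain ⟨A2, h21, h22⟩ := small_two r hr
  obtain ⟨A3, h31, h32⟩ := small_three r hr
  obtain ⟨A0, h01, h02⟩ := crt_step 4 3 (by norm_num) A2 A3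
  haveI : NeZero (4 * 3) := ⟨by norm_num⟩
  obtain ⟨M, hM, A, h1, h2, -⟩ := sieve_fam (Loc r) (4 * 3) A0 (fun v hv => h02 v (h22 v hv) (h32 v hv))
    cop12 (prs P) (prs_mem P)
  refine ⟨M, hM, A, h1.trans ?_, h2⟩
  refine mul_le_mul_of_nonneg_right ?_ (by positivity)
  have hs := sg_pos r
  have h2R : (A2.card : ℝ) * (sg r : ℝ) ≤ 96 := by exact_mod_cast h21
  have h3R : (A3.card : ℝ) ≤ 24 := by exact_mod_cast h31
  have h3' : (0 : ℝ) ≤ (A3.card : ℝ) := by positivity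
  rw [h01]
  push_cast
  rw [div_le_div_iff₀ (by norm_num) (by positivity)]
  have h4 : (A2.card : ℝ) * (sg r : ℝ) * (A3.card : ℝ) ≤ 96 * 24 := by
    calc (A2.card : ℝ) * (sg r : ℝ) * (A3.card : ℝ) ≤ 96 * (A3.card : ℝ) := mul_le_mul_of_nonneg_right h2R h3'
      _ ≤ 96 * 24 := by linarith
  have e : (A2.card : ℝ) * (A3.card : ℝ) * (9 * (sg r : ℝ)) = 9 * ((A2.card : ℝ) * (sg r : ℝ) * (A3.card : ℝ)) := by
    ring
  rw [e]
  linarith

theorem sieveS (r : ℕ) (hr : r ∈ Cls) (h2 : r % 3 = 2) (P : ℕ) :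
    ∃ (M : ℕ) (_ : NeZero M) (A : Finset (Fin 4 → ZMod M)),
      (A.card : ℝ) / (M : ℝ) ^ 4 ≤ 1 / (27 * (sg r : ℝ)) * (∏ p ∈ prs P, (1 - 1 / (p : ℝ) ^ 2)) ^ 2 ∧
      ∀ v : Fin 4 → ℤ, Loc r v → Split (castv (ZMod 3) v) → (∀ p ∈ prs P, ¬ ((p : ℤ) ^ 2 ∣ disc v)) →
        castv (ZMod M) v ∈ A := by
  obtain ⟨A2, h21, h22⟩ := small_two r hr
  obtain ⟨A3, h31, h32⟩ := small_split r hr h2
  obtain ⟨A0, h01, h02⟩ := crt_step 4 3 (by norm_num) A2 A3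
  haveI : NeZero (4 * 3) := ⟨by norm_num⟩
  obtain ⟨M, hM, A, h1, h3, -⟩ := sieve_fam (fun v => Loc r v ∧ Split (castv (ZMod 3) v)) (4 * 3) A0
    (fun v hv => h02 v (h22 v hv.1) (h32 v hv.1 hv.2)) cop12 (prs P) (prs_mem P)
  refine ⟨M, hM, A, h1.trans ?_, fun v hv hv' hd => h3 v ⟨hv, hv'⟩ hd⟩
  refine mul_le_mul_of_nonneg_right ?_ (by positivity)
  have hs := sg_pos r
  have h2R : (A2.card : ℝ) * (sg r : ℝ) ≤ 96 := by exact_mod_cast h21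
  have h3R : (A3.card : ℝ) ≤ 8 := by exact_mod_cast h31
  have h3' : (0 : ℝ) ≤ (A3.card : ℝ) := by positivity
  rw [h01]
  push_cast
  rw [div_le_div_iff₀ (by norm_num) (by positivity)]
  have h4 : (A2.card : ℝ) * (sg r : ℝ) * (A3.card : ℝ) ≤ 96 * 8 := by
    calc (A2.card : ℝ) * (sg r : ℝ) * (A3.card : ℝ) ≤ 96 * (A3.card : ℝ) := mul_le_mul_of_nonneg_right h2R h3'
      _ ≤ 96 * 8 := by linarith
  have e : (A2.card : ℝ) * (A3.card : ℝ) * (27 * (sg r : ℝ)) = 27 * ((A2.card : ℝ) * (sg r : ℝ) * (A3.card : ℝ)) := by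
    ring
  rw [e]
  linarith

end Pool.Agent.DUC
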