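import Pool.Agent.DUC.Defs

/-!
# DUC/FormIrr: the cube root of the fundamental unit

`d = 3 m` squarefree, `u = 3 v`.  The cubic form `F(A, B) = v A³ + t A² B + 9 m v A B² + m t B³` has no rational zero.

PLAN.  Put `α = A + B √d`, `α' = A - B √d`, `E = t + u √d`, `E' = t - u √d` (so the unit `ε` is `E` or `E / 2`), with
`u = 3 v`.  Identity: `E α³ - E' α'³ = 6 √d F(A, B)` (`√d² = 3 m`).  Since `3 ∣ d`, the norm is `+1` (`+4`): `-1` and
`-4` are not squares mod 3.  So `ε ε' = 1`.  Suppose `F(A,B) = 0`, `(A,B) ≠ 0`; then `α, α' ≠ 0` (`√d` irrational) and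
`ε α³ = ε' α'³`.  Put `γ = ε α / α'`; then `γ³ = ε³ α³ / α'³ = ε³ ε' / ε = ε` (as `α³/α'³ = ε'/ε = ε^{-2}`), so `γ > 1`
(real) and `γ < γ³ = ε`.  With `γ' = ε' α' / α`: `γ γ' = 1`, `s = γ + γ'` and `q = (γ - γ') / √d` are RATIONAL
(`γ = E α² / (N · c)`, `N = A² - d B²`, `c = 1` or `2`, expand), `s³ - 3 s = γ³ + γ'³ = ε + ε'` is an integer (`2 t` or `t`),
so `s` is an integer (rational root theorem: `IsInteger` of a root of a monic integer polynomial, e.g.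
`isInteger_of_is_root_of_monic` or integrally closed `ℤ`), `d q² = s² - 4` is an integer and `d` squarefree, so `q` is an
integer.  `γ = (s + q √d) / 2`, `s² - d q² = 4`.  If `d % 4 = 1` this is a unit pair `(s, q)` of value `γ`; otherwise
(`d % 4 = 2, 3`) `s` and `q` are even (mod 4) and `(s/2, q/2)` is a unit pair of value `γ`.  `1 < γ < ε` contradicts
`IsFundamental`.  (`d % 4 ≠ 0` as `d` is squarefree.)
-/

set_option autoImplicit false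

namespace Pool.Agent.DUC

open Pool.Agent.Helper51.Pell

private theorem FormIrr_root (a n : ℤ) (s : ℚ) (h : s ^ 3 - a * s = n) : ∃ k : ℤ, (k : ℚ) = s := by
  have hi : IsIntegral ℤ s := by
    refine ⟨Polynomial.X ^ 3 - Polynomial.C a * Polynomial.X - Polynomial.C n, ?_, ?_⟩
    · monicity!
    · simp only [Polynomial.eval₂_sub, Polynomial.eval₂_mul, Polynomial.eval₂_pow, Polynomial.eval₂_X,
        Polynomial.eval₂_C]
      simp only [algebraMap_int_eq, eq_intCast]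
      linarith
  obtain ⟨y, hy⟩ := (IsIntegrallyClosed.isIntegral_iff (R := ℤ) (K := ℚ)).1 hi
  exact ⟨y, by simpa using hy⟩

private theorem FormIrr_sq (D k : ℤ) (hD : Squarefree D) (q : ℚ) (h : (D : ℚ) * q ^ 2 = k) :
    ∃ y : ℤ, (y : ℚ) = q := by
  have hD0 : D ≠ 0 := hD.ne_zero
  have hi : IsIntegral ℤ ((D : ℚ) * q) := by
    refine ⟨Polynomial.X ^ 2 - Polynomial.C (D * k), ?_, ?_⟩
    · monicity!
    · simp only [Polynomial.eval₂_sub, Polynomial.eval₂_pow, Polynomial.eval₂_X,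
        Polynomial.eval₂_C]
      simp only [algebraMap_int_eq, eq_intCast]
      push_cast
      rw [← h]; ring
  obtain ⟨w, hw⟩ := (IsIntegrallyClosed.isIntegral_iff (R := ℤ) (K := ℚ)).1 hi
  have hw' : (w : ℚ) = D * q := by simpa using hw
  have hw2 : w ^ 2 = D * k := by
    have : (w : ℚ) ^ 2 = D * k := by rw [hw', ← h]; ring
    exact_mod_cast this
  have hdv : D ∣ w ^ 2 := ⟨k, hw2⟩
  have hdw : D ∣ w := (hD.dvd_pow_iff_dvd two_ne_zero).1 hdv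
  obtain ⟨y, rfl⟩ := hdw
  refine ⟨y, ?_⟩
  have hDq : (D : ℚ) ≠ 0 := by exact_mod_cast hD0
  push_cast at hw'
  exact mul_left_cancel₀ hDq hw'

private theorem FormIrr_nonsq (D : ℤ) (hD : Squarefree D) (h3 : 3 ∣ D) (A B : ℤ) (h : A ^ 2 - D * B ^ 2 = 0) :
    A = 0 ∧ B = 0 := by
  by_cases hB : B = 0
  · subst hB
    refine ⟨?_, rfl⟩
    have : A ^ 2 = 0 := by linarith
    exact pow_eq_zero_iff two_ne_zero |>.1 this
  · exfalso
    have hBq : (B : ℚ) ≠ 0 := by exact_mod_cast hB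
    have hh : ((A : ℚ) / B) ^ 2 = D := by
      have : (A : ℚ) ^ 2 - D * B ^ 2 = 0 := by exact_mod_cast h
      field_simp
      linarith
    have hi : IsIntegral ℤ ((A : ℚ) / B) := by
      refine ⟨Polynomial.X ^ 2 - Polynomial.C D, ?_, ?_⟩
      · monicity!
      · simp only [Polynomial.eval₂_sub, Polynomial.eval₂_pow, Polynomial.eval₂_X,
          Polynomial.eval₂_C]
        simp only [algebraMap_int_eq, eq_intCast]
        rw [hh]; ring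
    obtain ⟨w, hw⟩ := (IsIntegrallyClosed.isIntegral_iff (R := ℤ) (K := ℚ)).1 hi
    have hw' : (w : ℚ) = A / B := by simpa using hw
    have hw2 : w * w = D := by
      have : (w : ℚ) * w = D := by rw [hw', ← hh]; ring
      exact_mod_cast this
    have hu : IsUnit w := hD w (by rw [hw2])
    rcases Int.isUnit_iff.1 hu with rfl | rfl <;> omega

/-- the algebra: `γ = (s + q √D) / 2` is a cube root of `(t + 3 v √D) / c` -/
private theorem FormIrr_alg (D c t u A B F N : ℤ) (r : ℝ) (hr : r ^ 2 = D) (hc : c ≠ 0) (hN : N ≠ 0)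
    (hNd : N = A ^ 2 - D * B ^ 2) (hn : t ^ 2 - D * u ^ 2 = c ^ 2)
    (hF : 3 * F = t * (3 * A ^ 2 * B + D * B ^ 3) + u * (A ^ 3 + 3 * A * D * B ^ 2)) (hF0 : F = 0) :
    (((t * (A ^ 2 + D * B ^ 2) + 2 * u * A * B * D : ℤ) : ℝ) + ((u * (A ^ 2 + D * B ^ 2) + 2 * t * A * B : ℤ) : ℝ) * r) ^ 3
      = ((c * N : ℤ) : ℝ) ^ 3 * (((t : ℝ) + u * r) / c) := by
  have hcR : (c : ℝ) ≠ 0 := by exact_mod_cast hc
  have h1 : (((t * (A ^ 2 + D * B ^ 2) + 2 * u * A * B * D : ℤ) : ℝ) + ((u * (A ^ 2 + D * B ^ 2) + 2 * t * A * B : ℤ) : ℝ) * r)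
      = (t + u * r) * (A + B * r) ^ 2 := by
    push_cast
    linear_combination (-(t * B ^ 2) - 2 * u * A * B - u * B ^ 2 * r) * hr
  have hF' : (t : ℝ) * (3 * A ^ 2 * B + D * B ^ 3) + u * (A ^ 3 + 3 * A * D * B ^ 2) = 0 := by
    have : t * (3 * A ^ 2 * B + D * B ^ 3) + u * (A ^ 3 + 3 * A * D * B ^ 2) = 0 := by rw [← hF, hF0]; ring
    exact_mod_cast this
  have h2 : ((t : ℝ) + u * r) * (A + B * r) ^ 3 = (t - u * r) * (A - B * r) ^ 3 := by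
    linear_combination (2 * r) * hF' + (2 * t * B ^ 3 * r + 6 * u * A * B ^ 2 * r) * hr
  have h3 : ((t : ℝ) + u * r) * (t - u * r) = c ^ 2 := by
    have : (t : ℝ) ^ 2 - D * u ^ 2 = c ^ 2 := by exact_mod_cast hn
    linear_combination this - (u : ℝ) ^ 2 * hr
  have h4 : ((A : ℝ) + B * r) * (A - B * r) = N := by
    have : (N : ℝ) = A ^ 2 - D * B ^ 2 := by exact_mod_cast hNd
    linear_combination -this - (B : ℝ) ^ 2 * hr
  rw [h1]
  push_cast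
  have h5 : (((t : ℝ) + u * r) * (A + B * r) ^ 2) ^ 3 = (t + u * r) * (c ^ 2 * N ^ 3) := by
    calc (((t : ℝ) + u * r) * (A + B * r) ^ 2) ^ 3
        = (t + u * r) ^ 2 * (A + B * r) ^ 3 * ((t + u * r) * (A + B * r) ^ 3) := by ring
      _ = (t + u * r) ^ 2 * (A + B * r) ^ 3 * ((t - u * r) * (A - B * r) ^ 3) := by rw [h2]
      _ = (t + u * r) * (((t + u * r) * (t - u * r)) * ((A + B * r) * (A - B * r)) ^ 3) := by ring
      _ = (t + u * r) * (c ^ 2 * N ^ 3) := by rw [h3, h4]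
  rw [h5]
  field_simp

private theorem FormIrr_cub (D c t u A B F N : ℤ)
    (hNd : N = A ^ 2 - D * B ^ 2) (hn : t ^ 2 - D * u ^ 2 = c ^ 2)
    (hF : 3 * F = t * (3 * A ^ 2 * B + D * B ^ 3) + u * (A ^ 3 + 3 * A * D * B ^ 2)) (hF0 : F = 0) :
    4 * (t * (A ^ 2 + D * B ^ 2) + 2 * u * A * B * D) ^ 3 -
      3 * (t * (A ^ 2 + D * B ^ 2) + 2 * u * A * B * D) * (c * N) ^ 2 = t * c ^ 2 * N ^ 3 := by
  have hG : t * (3 * A ^ 2 * B + D * B ^ 3) + u * (A ^ 3 + 3 * A * D * B ^ 2) = 0 := by rw [← hF, hF0]; ring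
  have e1 : (t * (A ^ 2 + D * B ^ 2) + 2 * u * A * B * D) ^ 2 - D * (u * (A ^ 2 + D * B ^ 2) + 2 * t * A * B) ^ 2 =
      (c * N) ^ 2 := by
    rw [mul_pow, ← hn, hNd]; ring
  have e2 : (t * (A ^ 2 + D * B ^ 2) + 2 * u * A * B * D) ^ 3 +
      3 * (t * (A ^ 2 + D * B ^ 2) + 2 * u * A * B * D) * (D * (u * (A ^ 2 + D * B ^ 2) + 2 * t * A * B) ^ 2) =
      t * c ^ 2 * N ^ 3 := by
    rw [← hn, hNd]
    linear_combination (2 * D * ((t ^ 2 + D * u ^ 2) * (3 * A ^ 2 * B + D * B ^ 3) +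
      2 * t * u * (A ^ 3 + 3 * A * D * B ^ 2))) * hG
  linear_combination e2 + 3 * (t * (A ^ 2 + D * B ^ 2) + 2 * u * A * B * D) * e1

private theorem FormIrr_main (D c t u A B F : ℤ) (hD : Squarefree D) (h3 : 3 ∣ D) (r : ℝ) (hr : r ^ 2 = D)
    (hc : c = 1 ∨ c = 2) (hn : t ^ 2 - D * u ^ 2 = c ^ 2)
    (hF : 3 * F = t * (3 * A ^ 2 * B + D * B ^ 3) + u * (A ^ 3 + 3 * A * D * B ^ 2)) (hF0 : F = 0)
    (hAB : ¬ (A = 0 ∧ B = 0)) :
    ∃ s q : ℤ, s ^ 2 - D * q ^ 2 = 4 ∧ (((s : ℝ) + q * r) / 2) ^ 3 = ((t : ℝ) + u * r) / c := by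
  obtain ⟨N, hNd⟩ : ∃ N, N = A ^ 2 - D * B ^ 2 := ⟨_, rfl⟩
  have hN : N ≠ 0 := fun h => hAB (FormIrr_nonsq D hD h3 A B (by rw [← hNd, h]))
  have hc0 : c ≠ 0 := by rcases hc with rfl | rfl <;> norm_num
  obtain ⟨X, hX⟩ : ∃ X, X = t * (A ^ 2 + D * B ^ 2) + 2 * u * A * B * D := ⟨_, rfl⟩
  obtain ⟨Y, hY⟩ : ∃ Y, Y = u * (A ^ 2 + D * B ^ 2) + 2 * t * A * B := ⟨_, rfl⟩
  have halg := FormIrr_alg D c t u A B F N r hr hc0 hN hNd hn hF hF0
  have hcub := FormIrr_cub D c t u A B F N hNd hn hF hF0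
  have hnrm : X ^ 2 - D * Y ^ 2 = (c * N) ^ 2 := by
    rw [hX, hY, mul_pow, ← hn, hNd]; ring
  rw [← hX] at hcub
  rw [← hX, ← hY] at halg
  have hcN : ((c * N : ℤ) : ℚ) ≠ 0 := by exact_mod_cast mul_ne_zero hc0 hN
  obtain ⟨n, hnn⟩ : ∃ n : ℤ, n * c = 2 * t := by
    rcases hc with rfl | rfl
    · exact ⟨2 * t, by ring⟩
    · exact ⟨t, by ring⟩
  obtain ⟨s, hs⟩ := FormIrr_root 3 n (2 * X / ((c * N : ℤ) : ℚ)) (by
    have h : (4 : ℚ) * X ^ 3 - 3 * X * ((c * N : ℤ) : ℚ) ^ 2 = t * c ^ 2 * N ^ 3 := by exact_mod_cast hcub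
    have h' : (n : ℚ) * c = 2 * t := by exact_mod_cast hnn
    field_simp
    push_cast at h ⊢
    linear_combination 2 * h - (c ^ 2 * N ^ 3 : ℚ) * h')
  obtain ⟨q, hq⟩ := FormIrr_sq D (s ^ 2 - 4) hD (2 * Y / ((c * N : ℤ) : ℚ)) (by
    have h : (X : ℚ) ^ 2 - D * Y ^ 2 = ((c * N : ℤ) : ℚ) ^ 2 := by exact_mod_cast hnrm
    have e0 : ((s ^ 2 - 4 : ℤ) : ℚ) = (2 * X / ((c * N : ℤ) : ℚ)) ^ 2 - 4 := by rw [← hs]; push_cast; ring
    rw [e0, div_pow, div_pow, eq_sub_iff_add_eq, mul_div_assoc', div_add' _ _ _ (pow_ne_zero 2 hcN)]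
    congr 1
    linear_combination -4 * h)
  have hs' : (s : ℚ) * ((c * N : ℤ) : ℚ) = 2 * X := by rw [hs]; field_simp
  have hq' : (q : ℚ) * ((c * N : ℤ) : ℚ) = 2 * Y := by rw [hq]; field_simp
  have hsZ : s * (c * N) = 2 * X := by exact_mod_cast hs'
  have hqZ : q * (c * N) = 2 * Y := by exact_mod_cast hq'
  refine ⟨s, q, ?_, ?_⟩
  · have hk : (c * N) ^ 2 ≠ 0 := pow_ne_zero _ (mul_ne_zero hc0 hN)
    apply mul_right_cancel₀ hk
    calc (s ^ 2 - D * q ^ 2) * (c * N) ^ 2 = (s * (c * N)) ^ 2 - D * (q * (c * N)) ^ 2 := by ring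
      _ = 4 * (X ^ 2 - D * Y ^ 2) := by rw [hsZ, hqZ]; ring
      _ = 4 * (c * N) ^ 2 := by rw [hnrm]
  · have hk : ((c * N : ℤ) : ℝ) ^ 3 ≠ 0 := pow_ne_zero _ (by exact_mod_cast mul_ne_zero hc0 hN)
    apply mul_left_cancel₀ hk
    rw [← halg]
    have e1 : (s : ℝ) * ((c * N : ℤ) : ℝ) = 2 * X := by exact_mod_cast hsZ
    have e2 : (q : ℝ) * ((c * N : ℤ) : ℝ) = 2 * Y := by exact_mod_cast hqZ
    have e3 : ((c * N : ℤ) : ℝ) * (((s : ℝ) + q * r) / 2) = X + Y * r := by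
      linear_combination (1 / 2 : ℝ) * e1 + (r / 2) * e2
    rw [← mul_pow, e3]

theorem irr_core (m : ℕ) (hd : Squarefree (3 * m)) (t v : ℤ) (h : IsFundamental (3 * m) t (3 * v)) (A B : ℤ)
    (h0 : v * A ^ 3 + t * A ^ 2 * B + 9 * m * v * A * B ^ 2 + m * t * B ^ 3 = 0) : A = 0 ∧ B = 0 := by
  by_contra hAB
  obtain ⟨hu, h1, hmin⟩ := h
  have hD : Squarefree ((3 * m : ℕ) : ℤ) := Int.squarefree_natCast.2 hd
  have h3 : (3 : ℤ) ∣ ((3 * m : ℕ) : ℤ) := ⟨m, by push_cast; ring⟩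
  have hr : (√((3 * m : ℕ) : ℝ)) ^ 2 = (((3 * m : ℕ) : ℤ) : ℝ) := by
    rw [Real.sq_sqrt (by positivity)]; norm_num
  have h4 : (3 * m) % 4 ≠ 0 := by
    intro h4
    have h5 : 2 * 2 ∣ 3 * m := by omega
    have := hd 2 h5
    norm_num at this
  have hF : 3 * (v * A ^ 3 + t * A ^ 2 * B + 9 * m * v * A * B ^ 2 + m * t * B ^ 3) =
      t * (3 * A ^ 2 * B + ((3 * m : ℕ) : ℤ) * B ^ 3) +
      (3 * v) * (A ^ 3 + 3 * A * ((3 * m : ℕ) : ℤ) * B ^ 2) := by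
    push_cast; ring
  have hmod : ∀ x : ℤ, x ^ 2 % 3 = 0 ∨ x ^ 2 % 3 = 1 := by
    intro x
    have : x % 3 = 0 ∨ x % 3 = 1 ∨ x % 3 = 2 := by omega
    rcases this with h | h | h <;> simp [pow_two, Int.mul_emod, h]
  have hmul : ∃ k : ℤ, ((3 * m : ℕ) : ℤ) * (3 * v) ^ 2 = 3 * k := ⟨m * (3 * v) ^ 2, by push_cast; ring⟩
  obtain ⟨k, hk⟩ := hmul
  have hmt := hmod t
  by_cases h41 : (3 * m) % 4 = 1
  · -- the case of half integers
    have hn : t ^ 2 - ((3 * m : ℕ) : ℤ) * (3 * v) ^ 2 = 2 ^ 2 := by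
      have hu' := hu
      rw [IsUnitPair, if_pos h41] at hu'
      rcases hu' with hu' | hu'
      · rw [hu']; norm_num
      · exfalso; rw [hk] at hu'; omega
    obtain ⟨s, q, hsq, hcube⟩ := FormIrr_main _ 2 t (3 * v) A B _ hD h3 _ hr (Or.inr rfl) hn hF h0 hAB
    have hval : unitVal (3 * m) t (3 * v) = ((t : ℝ) + ((3 * v : ℤ) : ℝ) * √((3 * m : ℕ) : ℝ)) / ((2 : ℤ) : ℝ) := by
      rw [unitVal, if_pos h41]; norm_num
    have hval' : unitVal (3 * m) s q = ((s : ℝ) + q * √((3 * m : ℕ) : ℝ)) / 2 := by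
      rw [unitVal, if_pos h41]
    rw [← hval, ← hval'] at hcube
    have hg1 : 1 < unitVal (3 * m) s q := by
      by_contra hcon
      push Not at hcon
      have : (unitVal (3 * m) s q) ^ 3 ≤ 1 := by
        nlinarith [sq_nonneg (unitVal (3 * m) s q + 1), sq_nonneg (unitVal (3 * m) s q)]
      linarith
    have hle := hmin s q (by rw [IsUnitPair, if_pos h41]; exact Or.inl hsq) hg1
    rw [← hcube] at hle
    nlinarith [mul_pos (sub_pos.2 hg1) (by linarith : (0 : ℝ) < unitVal (3 * m) s q)]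
  · have hn : t ^ 2 - ((3 * m : ℕ) : ℤ) * (3 * v) ^ 2 = 1 ^ 2 := by
      have hu' := hu
      rw [IsUnitPair, if_neg h41] at hu'
      rcases hu' with hu' | hu'
      · rw [hu']; norm_num
      · exfalso; rw [hk] at hu'; omega
    obtain ⟨s, q, hsq, hcube⟩ := FormIrr_main _ 1 t (3 * v) A B _ hD h3 _ hr (Or.inl rfl) hn hF h0 hAB
    have hpar : ∃ s' q' : ℤ, s = 2 * s' ∧ q = 2 * q' := by
      have hD4 : ((3 * m : ℕ) : ℤ) % 4 = 2 ∨ ((3 * m : ℕ) : ℤ) % 4 = 3 := by omega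
      have hsm : s ^ 2 % 4 = (((3 * m : ℕ) : ℤ) % 4 * (q ^ 2 % 4)) % 4 := by
        rw [← Int.mul_emod]; omega
      have hs4 : s % 4 = 0 ∨ s % 4 = 1 ∨ s % 4 = 2 ∨ s % 4 = 3 := by omega
      have hq4 : q % 4 = 0 ∨ q % 4 = 1 ∨ q % 4 = 2 ∨ q % 4 = 3 := by omega
      have key : s % 2 = 0 ∧ q % 2 = 0 := by
        rcases hD4 with hD4 | hD4 <;> rcases hs4 with hs4 | hs4 | hs4 | hs4 <;>
          rcases hq4 with hq4 | hq4 | hq4 | hq4 <;>
          simp [pow_two, Int.mul_emod, hD4, hs4, hq4] at hsm <;> omega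
      exact ⟨s / 2, q / 2, by omega, by omega⟩
    obtain ⟨s', q', rfl, rfl⟩ := hpar
    have hval : unitVal (3 * m) t (3 * v) = ((t : ℝ) + ((3 * v : ℤ) : ℝ) * √((3 * m : ℕ) : ℝ)) / ((1 : ℤ) : ℝ) := by
      rw [unitVal, if_neg h41]; norm_num
    have hval' : unitVal (3 * m) s' q' = (((2 * s' : ℤ) : ℝ) + ((2 * q' : ℤ) : ℝ) * √((3 * m : ℕ) : ℝ)) / 2 := by
      rw [unitVal, if_neg h41]; push_cast; ring
    rw [← hval, ← hval'] at hcube
    have hg1 : 1 < unitVal (3 * m) s' q' := by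
      by_contra hcon
      push Not at hcon
      have : (unitVal (3 * m) s' q') ^ 3 ≤ 1 := by
        nlinarith [sq_nonneg (unitVal (3 * m) s' q' + 1), sq_nonneg (unitVal (3 * m) s' q')]
      linarith
    have hsq' : s' ^ 2 - ((3 * m : ℕ) : ℤ) * q' ^ 2 = 1 := by linarith
    have hle := hmin s' q' (by rw [IsUnitPair, if_neg h41]; exact Or.inl hsq') hg1
    rw [← hcube] at hle
    nlinarith [mul_pos (sub_pos.2 hg1) (by linarith : (0 : ℝ) < unitVal (3 * m) s' q')]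

end Pool.Agent.DUC
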