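import Pool.Agent.DUC.Defs
import Pool.Agent.DUC.FormIrr

/-!
# DUC/Form: from a unit with `3 ∣ u` to an irreducible cubic form of small discriminant

PLAN.  `u = 3 v`; as `3 ∣ d = 3 m`, the norm is `t² - d u² = t² - 27 m v² = 1` (or `4` if `d % 4 = 1`, i.e. `m % 4 = 3`):
the signs `-1`, `-4` are impossible mod 3.
CASE `m % 4 ≠ 3` (then `3 m % 4 ≠ 1`): the form `![v, t, 9 m v, m t]`, discriminant `-4 m (t² - 27 m v²)² = -4 m` (`ring`
after substituting).  Irreducible by `irr_core`.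
CASE `m % 4 = 3`: the form `F(2x + y, y) / 8`, i.e. `![v, (3v + t)/2, (3v(1+3m) + 2t)/4, (v(1+9m) + t(1+m))/8]`.  The
quotients are integers: `t² - 27 m v² = 4` gives `t ≡ v mod 2`; write `m = 4 k + 3`, and `t = v + 2 s`.  (Substitute
`m = 4k+3`, `t = v + 2s`: the entries are `v, 2v + s, 8v... ` - compute them as explicit polynomials, e.g.
`(3v(1+3m)+2t)/4 = (3v(12k+10) + 2v + 4s)/4 = 9kv + 8v + s`, `(v(1+9m)+t(1+m))/8 = (v(36k+28)+(v+2s)(4k+4))/8
= (40 k v + 32 v + 8 k s + 8 s)/8 = 5kv + 4v + ks + s`, `(3v+t)/2 = 2v + s`.)  Discriminant: `-m` (the identity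
`disc = -m (t² - 27 m v²)²/16`).  Irreducible: `8 ev g x y = F(2x + y, y)`, `irr_core`.
SPLIT: if `9 ∣ u` then `3 ∣ v`, and modulo 3 with `m ≡ 2`: in the first case the form is `t x² y + m t y³ = t y (x² - y²)`:
zeros `(1,0), (1,1)`; in the second case (`m = 4k+3 ≡ 2`, so `k ≡ 2`): `v ≡ 0`: `![0, s, s, (k+1) s] = ![0, s, s, 0]`:
`s x y (x + y)`: zeros `(1,0), (0,1)`.  (Checked by computer for all `d = 3 m`, `m < 20000`.)
-/

set_option autoImplicit false

namespace Pool.Agent.DUC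

open Pool.Agent.Helper51.Pell

private theorem Form_norm (m : ℕ) (t v : ℤ) (h : IsUnitPair (3 * m) t (3 * v)) :
    (m % 4 ≠ 3 ∧ t ^ 2 - 27 * m * v ^ 2 = 1) ∨ (m % 4 = 3 ∧ t ^ 2 - 27 * m * v ^ 2 = 4) := by
  have ht : t ^ 2 % 3 = 0 ∨ t ^ 2 % 3 = 1 := by
    have h0 : t % 3 = 0 ∨ t % 3 = 1 ∨ t % 3 = 2 := by omega
    rcases h0 with h0 | h0 | h0
    · left; rw [pow_two, Int.mul_emod, h0]; norm_num
    · right; rw [pow_two, Int.mul_emod, h0]; norm_num
    · right; rw [pow_two, Int.mul_emod, h0]; norm_num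
  have hX : ((3 * m : ℕ) : ℤ) * (3 * v) ^ 2 = 27 * m * v ^ 2 := by push_cast; ring
  unfold IsUnitPair at h
  rw [hX] at h
  have hw : (27 : ℤ) * m * v ^ 2 = 3 * (9 * m * v ^ 2) := by ring
  by_cases hm : m % 4 = 3
  · right
    refine ⟨hm, ?_⟩
    rw [if_pos (by omega)] at h
    rcases h with h | h
    · exact h
    · exfalso
      rw [hw] at h
      generalize (9 : ℤ) * m * v ^ 2 = w at h
      omega
  · left
    refine ⟨hm, ?_⟩
    rw [if_neg (by omega)] at h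
    rcases h with h | h
    · exact h
    · exfalso
      rw [hw] at h
      generalize (9 : ℤ) * m * v ^ 2 = w at h
      omega

private theorem Form_cast3 {v : ℤ} (h : (3 : ℤ) ∣ v) : ((v : ℤ) : ZMod 3) = 0 := by
  have h1 := (ZMod.intCast_zmod_eq_zero_iff_dvd v 3).2 (by exact_mod_cast h)
  exact h1

private theorem Form_caseA (m : ℕ) (hd : Squarefree (3 * m)) (t v : ℤ)
    (h : IsFundamental (3 * m) t (3 * v)) (hm : m % 4 ≠ 3) (hn : t ^ 2 - 27 * m * v ^ 2 = 1) :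
    ∃ w : Fin 4 → ℤ, Irr w ∧ disc w = -(sg m * m) ∧
      ((3 : ℤ) ∣ v → m % 3 = 2 → Split (castv (ZMod 3) w)) := by
  refine ⟨![v, t, 9 * m * v, m * t], ?_, ?_, ?_⟩
  · intro x y hxy
    refine irr_core m hd t v h x y ?_
    simp only [ev, Matrix.cons_val] at hxy
    linear_combination hxy
  · simp only [disc, Matrix.cons_val, sg, if_neg hm]
    linear_combination (-4 * (m : ℤ)) * (t ^ 2 - 27 * m * v ^ 2 + 1) * hn
  · intro h3 h2
    have hv := Form_cast3 h3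
    have hmc : ((m : ℕ) : ZMod 3) = 2 := by
      have h5 : (m : ZMod 3) = ((m % 3 : ℕ) : ZMod 3) := by rw [ZMod.natCast_mod]
      rw [h5, h2]
      rfl
    have h3' : (3 : ZMod 3) = 0 := by decide
    refine ⟨1, 0, 1, 1, by decide, ?_, ?_⟩
    · simp only [ev, castv, Matrix.cons_val]
      push_cast
      rw [hv]
      ring
    · simp only [ev, castv, Matrix.cons_val]
      push_cast
      rw [hv, hmc]
      linear_combination (t : ZMod 3) * h3'

private theorem Form_caseB (m : ℕ) (hd : Squarefree (3 * m)) (t v : ℤ)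
    (h : IsFundamental (3 * m) t (3 * v)) (hm : m % 4 = 3) (hn : t ^ 2 - 27 * m * v ^ 2 = 4) :
    ∃ w : Fin 4 → ℤ, Irr w ∧ disc w = -(sg m * m) ∧
      ((3 : ℤ) ∣ v → m % 3 = 2 → Split (castv (ZMod 3) w)) := by
  obtain ⟨k, hk⟩ : ∃ k : ℕ, m = 4 * k + 3 := ⟨m / 4, by omega⟩
  have hmk : (m : ℤ) = 4 * k + 3 := by exact_mod_cast hk
  obtain ⟨s, hs⟩ : ∃ s : ℤ, t = v + 2 * s := by
    have h1 : (2 : ℤ) ∣ t ^ 2 - v ^ 2 := by
      refine ⟨2 + (54 * k + 40) * v ^ 2, ?_⟩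
      rw [hmk] at hn
      linear_combination hn
    have h2 : (t ^ 2 - v ^ 2) = (t - v) * (t - v + 2 * v) := by ring
    rw [h2] at h1
    rcases Int.prime_two.dvd_or_dvd h1 with h3 | h3
    · obtain ⟨s, hs⟩ := h3
      exact ⟨s, by linarith⟩
    · obtain ⟨s, hs⟩ := h3
      exact ⟨s - v, by linarith⟩
  refine ⟨![v, 2 * v + s, 9 * k * v + 8 * v + s, 5 * k * v + 4 * v + k * s + s], ?_, ?_, ?_⟩
  · intro x y hxy
    have h1 := irr_core m hd t v h (2 * x + y) y (by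
      simp only [ev, Matrix.cons_val] at hxy
      rw [hmk, hs]
      linear_combination 8 * hxy)
    obtain ⟨h2, h3⟩ := h1
    exact ⟨by omega, h3⟩
  · simp only [disc, Matrix.cons_val, sg, if_pos hm]
    have h16 : (16 : ℤ) ≠ 0 := by norm_num
    apply mul_left_cancel₀ h16
    rw [hmk] at hn ⊢
    rw [hs] at hn
    linear_combination (-(4 * (k : ℤ) + 3)) * ((v + 2 * s) ^ 2 - 27 * (4 * k + 3) * v ^ 2 + 4) * hn
  · intro h3 h2
    have hv := Form_cast3 h3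
    have hkc : ((k : ℕ) : ZMod 3) = 2 := by
      have h5 : (k : ZMod 3) = ((k % 3 : ℕ) : ZMod 3) := by rw [ZMod.natCast_mod]
      have h6 : k % 3 = 2 := by omega
      rw [h5, h6]
      rfl
    have h3' : (3 : ZMod 3) = 0 := by decide
    refine ⟨1, 0, 0, 1, by decide, ?_, ?_⟩
    · simp only [ev, castv, Matrix.cons_val]
      push_cast
      rw [hv]
      ring
    · simp only [ev, castv, Matrix.cons_val]
      push_cast
      rw [hv, hkc]
      linear_combination (s : ZMod 3) * h3'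

theorem form_of_unit (m : ℕ) (hd : Squarefree (3 * m)) (t u : ℤ) (h : IsFundamental (3 * m) t u)
    (h3 : (3 : ℤ) ∣ u) : ∃ v : Fin 4 → ℤ, Irr v ∧ disc v = -(sg m * m) ∧
      ((9 : ℤ) ∣ u → m % 3 = 2 → Split (castv (ZMod 3) v)) := by
  obtain ⟨v, rfl⟩ := h3
  have h9 : (9 : ℤ) ∣ 3 * v → (3 : ℤ) ∣ v := by
    intro h
    obtain ⟨c, hc⟩ := h
    exact ⟨c, by omega⟩
  rcases Form_norm m t v h.1 with ⟨hm, hn⟩ | ⟨hm, hn⟩
  · obtain ⟨w, h1, h2, h3⟩ := Form_caseA m hd t v h hm hn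
    exact ⟨w, h1, h2, fun h4 => h3 (h9 h4)⟩
  · obtain ⟨w, h1, h2, h3⟩ := Form_caseB m hd t v h hm hn
    exact ⟨w, h1, h2, fun h4 => h3 (h9 h4)⟩

end Pool.Agent.DUC
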