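import Pool.Agent.DUC.Defs

/-!
# DUC/Root: a real cubic form of negative discriminant has a zero in the upper half plane

PLAN.  The cubic polynomial `v0 X³ + v1 X² + v2 X + v3` has a real root `ρ` (intermediate value theorem, or odd degree).
Divide: `= v0 (X - ρ)(X² + β X + γ)`, `β = v1/v0 + ρ`, `γ = v2/v0 + ρ β`, `v3 = -v0 ρ γ`.  Then
`disc v = v0⁴ (β² - 4γ) (ρ² + β ρ + γ)²` (`ring` after substituting `v1 = v0 (β - ρ)`, `v2 = v0 (γ - ρ β)`,
`v3 = -v0 ρ γ`), so `β² - 4 γ < 0`, and `z = (-β + i √(4γ - β²)) / 2` is the root.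
-/

set_option autoImplicit false

namespace Pool.Agent.DUC

theorem Root_real (b c d : ℝ) : ∃ x : ℝ, x ^ 3 + b * x ^ 2 + c * x + d = 0 := by
  have hc : Continuous fun x : ℝ => x ^ 3 + b * x ^ 2 + c * x + d := by fun_prop
  set M : ℝ := 1 + |b| + |c| + |d| with hM
  have hb := abs_nonneg b
  have hc' := abs_nonneg c
  have hd := abs_nonneg d
  have hM1 : 1 ≤ M := by linarith
  have hM2 : M ≤ M ^ 2 := by nlinarith
  have hM3 : M ^ 3 = M ^ 2 + |b| * M ^ 2 + |c| * M ^ 2 + |d| * M ^ 2 := by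
    rw [show M ^ 3 = M * M ^ 2 by ring]
    nth_rewrite 1 [hM]
    ring
  have h1 : |b * M ^ 2| = |b| * M ^ 2 := by rw [abs_mul, abs_of_nonneg (sq_nonneg M)]
  have h2 : |c * M| ≤ |c| * M ^ 2 := by
    rw [abs_mul, abs_of_nonneg (by linarith : (0 : ℝ) ≤ M)]
    exact mul_le_mul_of_nonneg_left hM2 hc'
  have h3 : |d| ≤ |d| * M ^ 2 := by nlinarith
  obtain ⟨h4, h5⟩ := abs_le.1 h1.le
  obtain ⟨h6, h7⟩ := abs_le.1 h2
  obtain ⟨h8, h9⟩ := abs_le.1 h3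
  obtain ⟨x, hx⟩ := mem_range_of_exists_le_of_exists_ge hc (c := 0)
    ⟨-M, by
      have : (-M) ^ 3 + b * (-M) ^ 2 + c * (-M) + d = -M ^ 3 + b * M ^ 2 - c * M + d := by ring
      change (-M) ^ 3 + b * (-M) ^ 2 + c * (-M) + d ≤ 0
      rw [this]
      nlinarith⟩
    ⟨M, by
      change 0 ≤ M ^ 3 + b * M ^ 2 + c * M + d
      nlinarith⟩
  exact ⟨x, hx⟩

theorem exists_root (v : Fin 4 → ℝ) (h0 : v 0 ≠ 0) (hD : disc v < 0) :
    ∃ z : ℂ, 0 < z.im ∧ ev (fun i => (v i : ℂ)) z 1 = 0 := by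
  obtain ⟨ρ, hρ⟩ := Root_real (v 1 / v 0) (v 2 / v 0) (v 3 / v 0)
  obtain ⟨β, hβ⟩ : ∃ β, β = v 1 / v 0 + ρ := ⟨_, rfl⟩
  obtain ⟨γ, hγ⟩ : ∃ γ, γ = v 2 / v 0 + ρ * β := ⟨_, rfl⟩
  have e1 : v 1 = v 0 * (β - ρ) := by
    rw [hβ]
    field_simp
    ring
  have e2 : v 2 = v 0 * (γ - ρ * β) := by
    rw [hγ]
    field_simp
    ring
  have e3 : v 3 = -(v 0 * ρ * γ) := by
    have h1 : v 3 / v 0 = -(ρ * γ) := by
      rw [e1, e2, mul_div_cancel_left₀ _ h0, mul_div_cancel_left₀ _ h0] at hρ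
      linear_combination hρ
    rw [div_eq_iff h0] at h1
    rw [h1]
    ring
  have hdisc : disc v = v 0 ^ 4 * (β ^ 2 - 4 * γ) * (ρ ^ 2 + β * ρ + γ) ^ 2 := by
    unfold disc
    rw [e1, e2, e3]
    ring
  have hneg : β ^ 2 - 4 * γ < 0 := by
    by_contra hcon
    rw [not_lt] at hcon
    rw [hdisc] at hD
    have : 0 ≤ v 0 ^ 4 * (β ^ 2 - 4 * γ) * (ρ ^ 2 + β * ρ + γ) ^ 2 := by positivity
    linarith
  obtain ⟨s, hs0, hs⟩ : ∃ s : ℝ, 0 < s ∧ s ^ 2 = 4 * γ - β ^ 2 :=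
    ⟨√(4 * γ - β ^ 2), Real.sqrt_pos.2 (by linarith), Real.sq_sqrt (by linarith)⟩
  refine ⟨⟨-β / 2, s / 2⟩, ?_, ?_⟩
  · change 0 < s / 2
    linarith
  · obtain ⟨z, hz⟩ : ∃ z : ℂ, z = ⟨-β / 2, s / 2⟩ := ⟨_, rfl⟩
    rw [← hz]
    have hq : z ^ 2 + β * z + γ = 0 := by
      apply Complex.ext
      · rw [hz]
        simp only [pow_two, Complex.add_re, Complex.mul_re, Complex.ofReal_re, Complex.ofReal_im,
          Complex.zero_re]
        linear_combination (-1 / 4) * hs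
      · rw [hz]
        simp only [pow_two, Complex.add_im, Complex.mul_im, Complex.ofReal_re, Complex.ofReal_im,
          Complex.zero_im]
        ring
    have e1' : (v 1 : ℂ) = v 0 * (β - ρ) := by
      rw [e1]
      push_cast
      ring
    have e2' : (v 2 : ℂ) = v 0 * (γ - ρ * β) := by
      rw [e2]
      push_cast
      ring
    have e3' : (v 3 : ℂ) = -(v 0 * ρ * γ) := by
      rw [e3]
      push_cast
      ring
    unfold ev
    simp only [one_pow, mul_one]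
    rw [e1', e2', e3']
    linear_combination (v 0 : ℂ) * (z - ρ) * hq

end Pool.Agent.DUC
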