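import Pool.Agent.DUC.Defs
import Pool.Agent.DUC.Root

/-!
# DUC/Reduce: every irreducible integral form of negative discriminant is equivalent to a reduced one

PLAN.  `v 0 ≠ 0` (`Irr` at `(1, 0)`).  `exists_root` gives `z` in the upper half plane with `v(z, 1) = 0`.
`ModularGroup.exists_smul_mem_fd` gives `γ = (a b; c d) ∈ SL₂(ℤ)` with `w = γ • z = (a z + b)/(c z + d)` in the
fundamental domain `1 ≤ |w|²`, `|re w| ≤ 1/2`.  Put `g = act d (-b) (-c) a v`, i.e. `g(X, Y) = v(d X - b Y, -c X + a Y)`: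
`disc g = disc v` (`disc_act`, determinant 1), `g(w, 1) = v(d w - b, -c w + a)`, and `(d w - b : -c w + a) = (z : 1)`
(homogeneity), so `g(w, 1) = 0`.  If `re w > 0` replace `g` by `act (-1) 0 0 1 g` (root `-conj w`; the form has
integer coefficients so `conj w` is a zero too).  If `g 0 < 0` replace `g` by `act (-1) 0 0 (-1) g = -g`.
`g 0 ≠ 0` since `g(1, 0) = v(d, -c)` (resp. a sign) and `Irr v`.
Now `Red`: `a = g 0`, `x = re w`, `y = im w`, `w' = -g1/a - 3x`.  From `g(x + i y, 1) = 0`: imaginary part / `y`: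
`a (3x² - y²) + 2 x g1 + g2 = 0`; real part: `a (x³ - 3 x y²) + g1 (x² - y²) + g2 x + g3 = 0`; these give exactly
`castv ℝ g = par a x w' y`.
`Split`: if `(x, y)`, `(x', y')` are independent zeros of `v` mod 3, their images under the inverse matrix are
independent zeros of `act … v` (`ev_act`, `ps - qr = ±1`): prove it once for `act p q r s` with `p s - q r = 1 ∨ -1`.
-/

set_option autoImplicit false

namespace Pool.Agent.DUC

open scoped MatrixGroups UpperHalfPlane Modular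

private theorem Reduce_castv_act (R : Type*) [CommRing R] (p q r s : ℤ) (v : Fin 4 → ℤ) :
    castv R (act p q r s v) = act (p : R) (q : R) (r : R) (s : R) (castv R v) := by
  funext i
  fin_cases i <;> simp [castv, act]

private theorem Reduce_irr {p q r s : ℤ} (hd : p * s - q * r = 1 ∨ p * s - q * r = -1) {v : Fin 4 → ℤ}
    (hi : Irr v) : Irr (act p q r s v) := by
  intro x y h
  rw [ev_act] at h
  obtain ⟨h1, h2⟩ := hi _ _ h
  have hx : (p * s - q * r) * x = 0 := by linear_combination s * h1 - q * h2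
  have hy : (p * s - q * r) * y = 0 := by linear_combination p * h2 - r * h1
  rcases hd with hd | hd <;> rw [hd] at hx hy <;> omega

private theorem Reduce_disc {p q r s : ℤ} (hd : p * s - q * r = 1 ∨ p * s - q * r = -1) (v : Fin 4 → ℤ) :
    disc (act p q r s v) = disc v := by
  rw [disc_act]
  rcases hd with hd | hd <;> rw [hd] <;> norm_num

private theorem Reduce_split {p q r s : ℤ} (hd : p * s - q * r = 1 ∨ p * s - q * r = -1) {v : Fin 4 → ℤ}
    (h : Split (castv (ZMod 3) v)) : Split (castv (ZMod 3) (act p q r s v)) := by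
  obtain ⟨x, y, x', y', h0, h1, h2⟩ := h
  rw [Reduce_castv_act]
  obtain ⟨D, hD, hD2⟩ : ∃ D : ZMod 3, (p : ZMod 3) * s - q * r = D ∧ D * D = 1 := by
    refine ⟨(p : ZMod 3) * s - q * r, rfl, ?_⟩
    rcases hd with hd | hd
    · have h3 : (p : ZMod 3) * s - q * r = 1 := by
        have := congrArg (fun z : ℤ => (z : ZMod 3)) hd
        push_cast at this
        exact this
      rw [h3, mul_one]
    · have h3 : (p : ZMod 3) * s - q * r = -1 := by
        have := congrArg (fun z : ℤ => (z : ZMod 3)) hd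
        push_cast at this
        exact this
      rw [h3]
      ring
  have e1 : ∀ x y : ZMod 3, (p : ZMod 3) * (D * (s * x - q * y)) + q * (D * (p * y - r * x)) = x := by
    intro x y
    linear_combination (D * x) * hD + x * hD2
  have e2 : ∀ x y : ZMod 3, (r : ZMod 3) * (D * (s * x - q * y)) + s * (D * (p * y - r * x)) = y := by
    intro x y
    linear_combination (D * y) * hD + y * hD2
  refine ⟨D * (s * x - q * y), D * (p * y - r * x), D * (s * x' - q * y'), D * (p * y' - r * x'), ?_, ?_, ?_⟩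
  · intro h3
    apply h0
    have h4 : D * (x * y' - y * x') = 0 := by
      linear_combination h3 - (x * y' - y * x') * D * D * hD - (x * y' - y * x') * D * hD2
    calc x * y' - y * x' = D * D * (x * y' - y * x') := by rw [hD2, one_mul]
      _ = D * (D * (x * y' - y * x')) := by ring
      _ = 0 := by rw [h4, mul_zero]
  · rw [ev_act, e1, e2]
    exact h1
  · rw [ev_act, e1, e2]
    exact h2

private theorem Reduce_parts (a b c e x y : ℝ) (hy : y ≠ 0)
    (h : (a : ℂ) * ((x : ℂ) + y * Complex.I) ^ 3 + b * ((x : ℂ) + y * Complex.I) ^ 2 +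
      c * ((x : ℂ) + y * Complex.I) + e = 0) :
    c = -a * (3 * x ^ 2 - y ^ 2) - 2 * b * x ∧ e = (2 * a * x + b) * (x ^ 2 + y ^ 2) := by
  have hI : Complex.I ^ 2 = -1 := Complex.I_sq
  have h1 : (((a * (x ^ 3 - 3 * x * y ^ 2) + b * (x ^ 2 - y ^ 2) + c * x + e : ℝ) : ℂ)) +
      ((y * (a * (3 * x ^ 2 - y ^ 2) + 2 * b * x + c) : ℝ) : ℂ) * Complex.I = 0 := by
    rw [← h]
    push_cast
    linear_combination (-(a * (3 * x * y ^ 2 + y ^ 3 * Complex.I) + b * y ^ 2) : ℂ) * hI
  have hre := congrArg Complex.re h1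
  have him := congrArg Complex.im h1
  rw [Complex.add_re, Complex.ofReal_re, Complex.re_ofReal_mul, Complex.I_re, mul_zero, add_zero,
    Complex.zero_re] at hre
  rw [Complex.add_im, Complex.ofReal_im, Complex.im_ofReal_mul, Complex.I_im, mul_one, zero_add,
    Complex.zero_im] at him
  have h2 := (mul_eq_zero.1 him).resolve_left hy
  have h3 : c = -a * (3 * x ^ 2 - y ^ 2) - 2 * b * x := by linear_combination h2
  refine ⟨h3, ?_⟩
  rw [h3] at hre
  linear_combination hre

private theorem Reduce_fin (g : Fin 4 → ℤ) (w : ℂ) (h0 : 0 < g 0) (h1 : -(1 / 2) ≤ w.re) (h2 : w.re ≤ 0)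
    (h3 : 0 < w.im) (h4 : 1 ≤ Complex.normSq w) (hw : ev (castv ℂ g) w 1 = 0) : Red (castv ℝ g) := by
  have ha : (0 : ℝ) < (g 0 : ℝ) := by exact_mod_cast h0
  obtain ⟨h5, h6⟩ := Reduce_parts (g 0) (g 1) (g 2) (g 3) w.re w.im h3.ne' (by
    have h7 : (w.re : ℂ) + w.im * Complex.I = w := Complex.re_add_im w
    rw [h7]
    simp only [ev, castv] at hw
    push_cast
    linear_combination hw)
  refine ⟨g 0, w.re, -(g 1 : ℝ) / g 0 - 3 * w.re, w.im, ha, h1, h2, h3, ?_, ?_⟩
  · rw [Complex.normSq_apply] at h4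
    nlinarith [h4]
  · funext i
    fin_cases i
    · simp [castv, par]
    · simp only [castv, par]
      simp
      field_simp
    · have h7 : (castv ℝ g) 2 = g 2 := rfl
      simp only [castv, par]
      simp
      rw [h5]
      field_simp
      ring
    · simp only [castv, par]
      simp
      rw [h6]
      field_simp
      ring

theorem reduce (v : Fin 4 → ℤ) (hi : Irr v) (hD : disc v < 0) :
    ∃ g : Fin 4 → ℤ, Red (castv ℝ g) ∧ disc g = disc v ∧
      (Split (castv (ZMod 3) v) → Split (castv (ZMod 3) g)) := by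
  have h0 : v 0 ≠ 0 := by
    intro h
    have h1 := hi 1 0 (by simp [ev, h])
    exact one_ne_zero h1.1
  have hD' : disc (castv ℝ v) < 0 := by
    rw [disc_castv]
    exact_mod_cast hD
  obtain ⟨z, hz, hz0⟩ := exists_root (castv ℝ v) (by
    simp only [castv]
    exact_mod_cast h0) hD'
  have hz1 : ev (castv ℂ v) z 1 = 0 := by
    have e : (fun i => ((castv ℝ v i : ℝ) : ℂ)) = castv ℂ v := by
      funext i
      simp [castv]
    rwa [e] at hz0
  obtain ⟨γ, hγ⟩ := ModularGroup.exists_smul_mem_fd ⟨z, hz⟩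
  -- the form with the root in the fundamental domain
  have key : ∃ (g : Fin 4 → ℤ) (w : ℂ), (Irr g ∧ disc g = disc v ∧
      (Split (castv (ZMod 3) v) → Split (castv (ZMod 3) g))) ∧ |w.re| ≤ 1 / 2 ∧ 0 < w.im ∧
      1 ≤ Complex.normSq w ∧ ev (castv ℂ g) w 1 = 0 := by
    have hdet : (γ 0 0) * (γ 1 1) - (γ 0 1) * (γ 1 0) = 1 := by
      have := Matrix.SpecialLinearGroup.det_coe γ
      rwa [Matrix.det_fin_two] at this
    have hd : (γ 1 1) * (γ 0 0) - (-(γ 0 1)) * (-(γ 1 0)) = 1 ∨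
        (γ 1 1) * (γ 0 0) - (-(γ 0 1)) * (-(γ 1 0)) = -1 := Or.inl (by linarith)
    refine ⟨act (γ 1 1) (-(γ 0 1)) (-(γ 1 0)) (γ 0 0) v, ((γ • (⟨z, hz⟩ : ℍ) : ℍ) : ℂ),
      ⟨Reduce_irr hd hi, Reduce_disc hd v, Reduce_split hd⟩, hγ.2, (γ • (⟨z, hz⟩ : ℍ)).im_pos, hγ.1, ?_⟩
    rw [Reduce_castv_act, ev_act]
    have hw : ((γ • (⟨z, hz⟩ : ℍ) : ℍ) : ℂ) = ((γ 0 0 : ℤ) * z + (γ 0 1 : ℤ)) / ((γ 1 0 : ℤ) * z + (γ 1 1 : ℤ)) := by
      rw [UpperHalfPlane.coe_specialLinearGroup_apply]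
      simp
    have ht : ((γ 1 0 : ℤ) : ℂ) * z + ((γ 1 1 : ℤ) : ℂ) ≠ 0 := by
      intro h
      have h5 := congrArg Complex.im h
      have h6 := congrArg Complex.re h
      simp at h5 h6
      rcases h5 with h5 | h5
      · rw [h5] at h6 hdet
        simp at h6
        rw [h6] at hdet
        simp at hdet
      · exact hz.ne' h5
    rw [hw]
    have hdetC : ((γ 0 0 : ℤ) : ℂ) * ((γ 1 1 : ℤ) : ℂ) - ((γ 0 1 : ℤ) : ℂ) * ((γ 1 0 : ℤ) : ℂ) = 1 := by
      exact_mod_cast hdet
    set t : ℂ := ((γ 1 0 : ℤ) : ℂ) * z + ((γ 1 1 : ℤ) : ℂ) with htdef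
    have e1 : ((γ 1 1 : ℤ) : ℂ) * ((((γ 0 0 : ℤ) : ℂ) * z + ((γ 0 1 : ℤ) : ℂ)) / t) +
        ((-(γ 0 1) : ℤ) : ℂ) * 1 = z / t := by
      push_cast
      rw [mul_div_assoc', mul_one, ← sub_eq_add_neg, div_sub' ht, div_left_inj' ht, htdef]
      linear_combination z * hdetC
    have e2 : ((-(γ 1 0) : ℤ) : ℂ) * ((((γ 0 0 : ℤ) : ℂ) * z + ((γ 0 1 : ℤ) : ℂ)) / t) +
        ((γ 0 0 : ℤ) : ℂ) * 1 = 1 / t := by
      push_cast
      rw [mul_div_assoc', mul_one, div_add' _ _ _ ht, div_left_inj' ht, htdef]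
      linear_combination hdetC
    rw [e1, e2]
    have e3 : ev (castv ℂ v) (z / t) (1 / t) = (1 / t) ^ 3 * ev (castv ℂ v) z 1 := by
      simp only [ev]
      ring
    rw [e3, hz1, mul_zero]
  obtain ⟨g, w, ⟨hg1, hg2, hg3⟩, hw1, hw2, hw3, hw4⟩ := key
  -- the real part
  have key2 : ∃ (g : Fin 4 → ℤ) (w : ℂ), (Irr g ∧ disc g = disc v ∧
      (Split (castv (ZMod 3) v) → Split (castv (ZMod 3) g))) ∧ (-(1 / 2) ≤ w.re ∧ w.re ≤ 0) ∧ 0 < w.im ∧
      1 ≤ Complex.normSq w ∧ ev (castv ℂ g) w 1 = 0 := by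
    rw [abs_le] at hw1
    rcases le_or_gt w.re 0 with h | h
    · exact ⟨g, w, ⟨hg1, hg2, hg3⟩, ⟨hw1.1, h⟩, hw2, hw3, hw4⟩
    · have hd : (-1 : ℤ) * 1 - 0 * 0 = 1 ∨ (-1 : ℤ) * 1 - 0 * 0 = -1 := Or.inr (by norm_num)
      refine ⟨act (-1) 0 0 1 g, -(starRingEnd ℂ) w,
        ⟨Reduce_irr hd hg1, (Reduce_disc hd g).trans hg2, fun h => Reduce_split hd (hg3 h)⟩, ⟨?_, ?_⟩, ?_, ?_, ?_⟩
      · simp only [Complex.neg_re, Complex.conj_re]
        linarith
      · simp only [Complex.neg_re, Complex.conj_re]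
        linarith
      · simp only [Complex.neg_im, Complex.conj_im, neg_neg]
        exact hw2
      · rw [Complex.normSq_neg, Complex.normSq_conj]
        exact hw3
      · rw [Reduce_castv_act, ev_act]
        have h5 := congrArg (starRingEnd ℂ) hw4
        simp only [ev, castv, map_add, map_mul, map_pow, map_intCast, map_one, map_zero] at h5
        simp only [ev, castv]
        push_cast
        linear_combination h5
  obtain ⟨g', w', ⟨hg1', hg2', hg3'⟩, hw1', hw2', hw3', hw4'⟩ := key2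
  have hg0 : g' 0 ≠ 0 := by
    intro h
    have h1 := hg1' 1 0 (by simp [ev, h])
    exact one_ne_zero h1.1
  rcases lt_or_gt_of_ne hg0 with h | h
  · have hd : (-1 : ℤ) * (-1) - 0 * 0 = 1 ∨ (-1 : ℤ) * (-1) - 0 * 0 = -1 := Or.inl (by norm_num)
    refine ⟨act (-1) 0 0 (-1) g', Reduce_fin _ w' ?_ hw1'.1 hw1'.2 hw2' hw3' ?_, (Reduce_disc hd g').trans hg2',
      fun h => Reduce_split hd (hg3' h)⟩
    · simp only [act, Matrix.cons_val_zero]
      nlinarith
    · rw [Reduce_castv_act, ev_act]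
      simp only [ev, castv] at hw4' ⊢
      push_cast
      linear_combination -hw4'
  · exact ⟨g', Reduce_fin _ w' h hw1'.1 hw1'.2 hw2' hw3' hw4', hg2', hg3'⟩

end Pool.Agent.DUC
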