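import Pool.Agent.DUC.Defs
import Pool.Agent.DUC.Form
import Pool.Agent.DUC.Reduce
import Pool.Agent.DUC.Body

/-!
# DUC/Transfer: from `m` to reduced forms

PLAN.  For `m ∈ badm r 3 N`: `3 m` is squarefree (`r ∈ Cls`: `3 ∤ m`), `form_of_unit` gives an irreducible `v` with
`disc v = -(sg m * m) < 0`, `reduce` gives `g` reduced with the same discriminant; `sg m = sg r` (`m % 12 = r` determines `m % 4`).  So
`g ∈ RF (sg r * N)`, `Loc r g` (`disc g = -sg r * m`, `m ≡ r` mod 12), and `p² ∤ disc g` for primes `p ≥ 5` (`p ∤ sg r`, `m` squarefree).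
Choose `g` for each `m`; the map is injective since `disc g` determines `m`.  `Set.ncard_le_ncard_of_injOn` with
`RF_finite`.  `transfer9`: the same with `9 ∣ u`, `m % 3 = 2`: `Split` is carried along.
-/

set_option autoImplicit false

namespace Pool.Agent.DUC

open Pool.Agent.Helper51.Pell

private theorem Transfer_mod3 {r m : ℕ} (hr : r ∈ Cls) (hm : m % 12 = r) : ¬ 3 ∣ m := by
  intro h
  simp only [Cls, Finset.mem_insert, Finset.mem_singleton] at hr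
  omega

private theorem Transfer_sg {r m : ℕ} (hm : m % 12 = r) : sg m = sg r := by
  have h : m % 4 = r % 4 := by omega
  simp only [sg, h]

private theorem Transfer_sg_pos (r : ℕ) : 0 < sg r := by
  unfold sg
  split_ifs <;> norm_num

private theorem Transfer_sqf {r m : ℕ} (hr : r ∈ Cls) (hm : m % 12 = r) (hs : Squarefree m) :
    Squarefree (3 * m) := by
  have hc : Nat.Coprime 3 m := (Nat.Prime.coprime_iff_not_dvd Nat.prime_three).2 (Transfer_mod3 hr hm)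
  exact (Nat.squarefree_mul hc).2 ⟨Nat.prime_three.prime.squarefree, hs⟩

private theorem Transfer_loc {r m : ℕ} (hm : m % 12 = r) (g : Fin 4 → ℤ) (hg : disc g = -(sg r * m)) :
    Loc r g := by
  obtain ⟨k, hk⟩ : ∃ k : ℕ, m = 12 * k + r := ⟨m / 12, by omega⟩
  have hk' : (m : ℤ) = 12 * k + r := by exact_mod_cast hk
  unfold Loc
  rw [hg]
  by_cases h : r % 4 = 3
  · have hs : sg r = 1 := by simp [sg, h]
    rw [if_pos h, hs, one_mul]
    refine ⟨?_, ⟨-(4 * k), by rw [hk']; ring⟩⟩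
    rw [Int.odd_iff]
    omega
  · have hs : sg r = 4 := by simp [sg, h]
    rw [if_neg h, hs]
    exact ⟨⟨-(3 * k), by rw [hk']; ring⟩, ⟨-(16 * k + r), by rw [hk']; ring⟩⟩

private theorem Transfer_prime {r m : ℕ} (hs : Squarefree m) (g : Fin 4 → ℤ) (hg : disc g = -(sg r * m))
    (p : ℕ) (hp : p.Prime) (h5 : 5 ≤ p) : ¬ ((p : ℤ) ^ 2 ∣ disc g) := by
  intro h
  rw [hg, dvd_neg] at h
  have h1 : (p : ℤ) ^ 2 ∣ (m : ℤ) := by
    unfold sg at h
    split_ifs at h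
    · rwa [one_mul] at h
    · have hc : IsCoprime ((p : ℤ) ^ 2) (4 : ℤ) := by
        have h2 : Nat.Coprime p 2 := by
          rw [Nat.coprime_primes hp Nat.prime_two]
          omega
        have h4 : Nat.Coprime (p ^ 2) 4 := by
          have := Nat.Coprime.pow 2 2 h2
          simpa using this
        exact_mod_cast Nat.isCoprime_iff_coprime.2 h4
      exact hc.dvd_of_dvd_mul_left h
  have h2 : p * p ∣ m := by
    rw [← pow_two]
    exact_mod_cast h1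
  have h3 := hs p h2
  rw [Nat.isUnit_iff] at h3
  exact hp.one_lt.ne' h3

private theorem Transfer_exists (r : ℕ) (hr : r ∈ Cls) (N m : ℕ) (k : ℤ) (h3k : (3 : ℤ) ∣ k) (hm : m ∈ badm r k N) :
    ∃ g : Fin 4 → ℤ, g ∈ RF (sg r * N) ∧ Loc r g ∧ (∀ p : ℕ, p.Prime → 5 ≤ p → ¬ ((p : ℤ) ^ 2 ∣ disc g)) ∧
      disc g = -(sg r * m) ∧ ((9 : ℤ) ∣ k → r % 3 = 2 → Split (castv (ZMod 3) g)) := by
  obtain ⟨⟨h1, hN, hmod, hsq⟩, t, u, hf, hku⟩ := hm
  obtain ⟨v, hv, hd, hsp⟩ := form_of_unit m (Transfer_sqf hr hmod hsq) t u hf (h3k.trans hku)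
  have hpos : (0 : ℤ) < sg m * m := mul_pos (Transfer_sg_pos m) (by exact_mod_cast h1)
  obtain ⟨g, hred, hgd, hgs⟩ := reduce v hv (by rw [hd]; exact neg_lt_zero.2 hpos)
  have hg : disc g = -(sg r * m) := by rw [hgd, hd, Transfer_sg hmod]
  refine ⟨g, ⟨hred, ?_⟩, Transfer_loc hmod g hg, Transfer_prime hsq g hg, hg, fun h9 h2 => ?_⟩
  · rw [hg]
    push_cast
    have h2 : (0 : ℝ) < (sg r : ℝ) := by exact_mod_cast Transfer_sg_pos r
    have h3 : (m : ℝ) ≤ (N : ℝ) := by exact_mod_cast hN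
    exact neg_le_neg (mul_le_mul_of_nonneg_left h3 h2.le)
  · exact hgs (hsp (h9.trans hku) (by omega))

private theorem Transfer_inj {r m m' : ℕ} (g : Fin 4 → ℤ) (h : disc g = -(sg r * m)) (h' : disc g = -(sg r * m')) :
    m = m' := by
  have h1 : sg r * (m : ℤ) = sg r * (m' : ℤ) := by
    rw [h] at h'
    exact neg_injective h'
  have h2 := mul_left_cancel₀ (Transfer_sg_pos r).ne' h1
  exact_mod_cast h2

theorem transfer (r : ℕ) (hr : r ∈ Cls) (N : ℕ) : (badm r 3 N).ncard ≤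
    {v : Fin 4 → ℤ | v ∈ RF (sg r * N) ∧ Loc r v ∧
      ∀ p : ℕ, p.Prime → 5 ≤ p → ¬ ((p : ℤ) ^ 2 ∣ disc v)}.ncard := by
  have h : ∀ m : ℕ, ∃ g : Fin 4 → ℤ, m ∈ badm r 3 N → g ∈ RF (sg r * N) ∧ Loc r g ∧
      (∀ p : ℕ, p.Prime → 5 ≤ p → ¬ ((p : ℤ) ^ 2 ∣ disc g)) ∧ disc g = -(sg r * m) := by
    intro m
    by_cases hm : m ∈ badm r 3 N
    · obtain ⟨g, h1, h2, h3, h4, -⟩ := Transfer_exists r hr N m 3 (dvd_refl _) hm
      exact ⟨g, fun _ => ⟨h1, h2, h3, h4⟩⟩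
    · exact ⟨0, fun h => absurd h hm⟩
  choose f hf using h
  refine Set.ncard_le_ncard_of_injOn f (fun m hm => ?_) (fun m hm m' hm' e => ?_)
    ((RF_finite _).subset fun v hv => hv.1)
  · obtain ⟨h1, h2, h3, -⟩ := hf m hm
    exact ⟨h1, h2, h3⟩
  · refine Transfer_inj (r := r) (f m) (hf m hm).2.2.2 ?_
    rw [e]
    exact (hf m' hm').2.2.2

theorem transfer9 (r : ℕ) (hr : r ∈ Cls) (h2 : r % 3 = 2) (N : ℕ) : (badm r 9 N).ncard ≤
    {v : Fin 4 → ℤ | v ∈ RF (sg r * N) ∧ Loc r v ∧ Split (castv (ZMod 3) v) ∧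
      ∀ p : ℕ, p.Prime → 5 ≤ p → ¬ ((p : ℤ) ^ 2 ∣ disc v)}.ncard := by
  have h : ∀ m : ℕ, ∃ g : Fin 4 → ℤ, m ∈ badm r 9 N → g ∈ RF (sg r * N) ∧ Loc r g ∧
      (∀ p : ℕ, p.Prime → 5 ≤ p → ¬ ((p : ℤ) ^ 2 ∣ disc g)) ∧ disc g = -(sg r * m) ∧
      Split (castv (ZMod 3) g) := by
    intro m
    by_cases hm : m ∈ badm r 9 N
    · obtain ⟨g, h1, h3, h4, h5, h6⟩ := Transfer_exists r hr N m 9 (by norm_num) hm
      exact ⟨g, fun _ => ⟨h1, h3, h4, h5, h6 (dvd_refl _) h2⟩⟩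
    · exact ⟨0, fun h => absurd h hm⟩
  choose f hf using h
  refine Set.ncard_le_ncard_of_injOn f (fun m hm => ?_) (fun m hm m' hm' e => ?_)
    ((RF_finite _).subset fun v hv => hv.1)
  · obtain ⟨h1, h3, h4, -, h5⟩ := hf m hm
    exact ⟨h1, h3, h5, h4⟩
  · refine Transfer_inj (r := r) (f m) (hf m hm).2.2.2.1 ?_
    rw [e]
    exact (hf m' hm').2.2.2.1

end Pool.Agent.DUC
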