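import Pool.Agent.DUC.Defs
import Pool.Agent.DUC.Transfer
import Pool.Agent.DUC.Sieve
import Pool.Agent.DUC.Count
import Pool.Agent.DUC.Prod

/-!
# DUC/Bad: the number of bad `m`

PLAN.  Given `ε`, choose `P` with `(∏_{p ∈ prs P} (1 - 1/p²))² ≤ 81/π⁴ + ε'` (`prod_tendsto`); `sieve` gives `M`, `A`; the set in
`transfer` is contained in `{v ∈ RF (sg r * N), castv (ZMod M) v ∈ A}`; `count_RF`:
`≤ (π²/24 * 1/(9 sg r) * (81/π⁴ + ε') + ε'') * sg r * N`, and `π²/24 * 1/9 * 81/π⁴ = 3/(8π²)`.  `bad_le9`: `1/(8π²)`.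
-/

set_option autoImplicit false

namespace Pool.Agent.DUC

private theorem Bad_sg (r : ℕ) : (1 : ℝ) ≤ (sg r : ℝ) := by
  unfold sg
  split_ifs <;> norm_num

private theorem Bad_prod (ε : ℝ) (hε : 0 < ε) :
    ∃ P : ℕ, (∏ p ∈ prs P, (1 - 1 / (p : ℝ) ^ 2)) ^ 2 ≤ 81 / Real.pi ^ 4 + ε := by
  have h := prod_tendsto.pow 2
  have e : (9 / Real.pi ^ 2) ^ 2 = 81 / Real.pi ^ 4 := by
    rw [div_pow, ← pow_mul]
    norm_num
  rw [e] at h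
  exact ((h.eventually (gt_mem_nhds (by linarith : 81 / Real.pi ^ 4 < 81 / Real.pi ^ 4 + ε))).exists).imp
    fun _ hP => le_of_lt hP

/-- the common argument -/
private theorem Bad_core (r : ℕ) (κ : ℝ) (hκ : 0 < κ) (T : ℕ → Set (Fin 4 → ℤ)) (f : ℕ → ℕ)
    (hf : ∀ N, f N ≤ (T N).ncard) (hT : ∀ N, T N ⊆ RF (sg r * N))
    (hs : ∀ P : ℕ, ∃ (M : ℕ) (_ : NeZero M) (A : Finset (Fin 4 → ZMod M)),
      (A.card : ℝ) / (M : ℝ) ^ 4 ≤ 1 / (κ * (sg r : ℝ)) * (∏ p ∈ prs P, (1 - 1 / (p : ℝ) ^ 2)) ^ 2 ∧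
      ∀ N, ∀ v ∈ T N, castv (ZMod M) v ∈ A) (ε : ℝ) (hε : 0 < ε) :
    ∀ᶠ N : ℕ in Filter.atTop, (f N : ℝ) ≤ (27 / (8 * κ * Real.pi ^ 2) + ε) * N := by
  have hpi : 0 < Real.pi := Real.pi_pos
  have hsg := Bad_sg r
  have hsg0 : 0 < (sg r : ℝ) := by linarith
  obtain ⟨P, hP⟩ := Bad_prod (12 * κ * ε / Real.pi ^ 2) (by positivity)
  obtain ⟨M, hM, A, hA, hTA⟩ := hs P
  obtain ⟨Y₀, hY⟩ := count_RF M A (ε / (2 * sg r)) (by positivity)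
  obtain ⟨N₀, hN₀⟩ := exists_nat_ge Y₀
  filter_upwards [Filter.eventually_ge_atTop N₀] with N hN
  have hN0 : (0 : ℝ) ≤ N := Nat.cast_nonneg N
  have hYN : Y₀ ≤ (sg r : ℝ) * N := by
    have h1 : (N₀ : ℝ) ≤ N := by exact_mod_cast hN
    have h2 : (N : ℝ) ≤ (sg r : ℝ) * N := le_mul_of_one_le_left hN0 hsg
    linarith
  have hc := hY _ hYN
  have hsub : (T N).ncard ≤ {v : Fin 4 → ℤ | v ∈ RF (sg r * N) ∧ castv (ZMod M) v ∈ A}.ncard :=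
    Set.ncard_le_ncard (fun v hv => ⟨hT N hv, hTA N v hv⟩) ((RF_finite _).subset fun v hv => hv.1)
  have h1 : (f N : ℝ) ≤ (Real.pi ^ 2 / 24 * (A.card / (M : ℝ) ^ 4) + ε / (2 * sg r)) * (sg r * N) :=
    le_trans (by exact_mod_cast (hf N).trans hsub) hc
  refine h1.trans ?_
  have h2 : (A.card : ℝ) / (M : ℝ) ^ 4 ≤
      1 / (κ * (sg r : ℝ)) * (81 / Real.pi ^ 4 + 12 * κ * ε / Real.pi ^ 2) :=
    hA.trans (mul_le_mul_of_nonneg_left hP (by positivity))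
  have h3 : Real.pi ^ 2 / 24 * (A.card / (M : ℝ) ^ 4) + ε / (2 * sg r) ≤
      Real.pi ^ 2 / 24 * (1 / (κ * (sg r : ℝ)) * (81 / Real.pi ^ 4 + 12 * κ * ε / Real.pi ^ 2)) +
        ε / (2 * sg r) := by
    have := mul_le_mul_of_nonneg_left h2 (by positivity : (0 : ℝ) ≤ Real.pi ^ 2 / 24)
    linarith
  refine (mul_le_mul_of_nonneg_right h3 (by positivity)).trans (le_of_eq ?_)
  field_simp
  ring

theorem bad_le (r : ℕ) (hr : r ∈ Cls) (ε : ℝ) (hε : 0 < ε) :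
    ∀ᶠ N : ℕ in Filter.atTop, ((badm r 3 N).ncard : ℝ) ≤ (3 / (8 * Real.pi ^ 2) + ε) * N := by
  have h := Bad_core r 9 (by norm_num) _ _ (fun N => transfer r hr N) (fun N v hv => hv.1) (fun P => by
    obtain ⟨M, hM, A, h1, h2⟩ := sieve r hr P
    refine ⟨M, hM, A, h1, fun N v hv => h2 v hv.2.1 fun p hp => ?_⟩
    simp only [prs, Finset.mem_filter, Finset.mem_Icc] at hp
    exact hv.2.2 p hp.2 hp.1.1) ε hε
  have e : 27 / (8 * 9 * Real.pi ^ 2) = 3 / (8 * Real.pi ^ 2) := by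
    have : Real.pi ≠ 0 := Real.pi_ne_zero
    field_simp
    norm_num
  rwa [e] at h

theorem bad_le9 (r : ℕ) (hr : r ∈ Cls) (h2 : r % 3 = 2) (ε : ℝ) (hε : 0 < ε) :
    ∀ᶠ N : ℕ in Filter.atTop, ((badm r 9 N).ncard : ℝ) ≤ (1 / (8 * Real.pi ^ 2) + ε) * N := by
  have h := Bad_core r 27 (by norm_num) _ _ (fun N => transfer9 r hr h2 N) (fun N v hv => hv.1) (fun P => by
    obtain ⟨M, hM, A, h1, h3⟩ := sieveS r hr h2 P
    refine ⟨M, hM, A, h1, fun N v hv => h3 v hv.2.1 hv.2.2.1 fun p hp => ?_⟩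
    simp only [prs, Finset.mem_filter, Finset.mem_Icc] at hp
    exact hv.2.2.2 p hp.2 hp.1.1) ε hε
  have e : 27 / (8 * 27 * Real.pi ^ 2) = 1 / (8 * Real.pi ^ 2) := by
    have : Real.pi ≠ 0 := Real.pi_ne_zero
    field_simp
  rwa [e] at h

end Pool.Agent.DUC
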