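import Pool.Agent.Helper51.Pell.Unit

/-!
# DUC/Defs: unit coefficients and binary cubic forms (MP_3188d7_nt)

A binary cubic form `a x³ + b x² y + c x y² + e y³` is the vector `![a, b, c, e]`.

The theorem: for at least half of the squarefree `d` divisible by `3` the coefficient `u(d)` is not divisible by `3`.
Idea: if `3 ∣ u(d)` and `d = 3 m`, then there is an irreducible integral binary cubic form of discriminant
`- m` (`m = 3 mod 4`) or `- 4 m` (`m = 1, 2 mod 4`); different `d` give different discriminants.  Count the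
reduced forms (`Red`) with `- Y ≤ disc < 0`: they are the integer points of `Λ • S`, `Λ = Y^(1/4)`, `S` of
volume `π² / 24`.
-/

set_option autoImplicit false

namespace Pool.Agent.DUC

/-- value of the form `v` at `(x, y)` -/
def ev {R : Type*} [CommRing R] (v : Fin 4 → R) (x y : R) : R :=
  v 0 * x ^ 3 + v 1 * x ^ 2 * y + v 2 * x * y ^ 2 + v 3 * y ^ 3

/-- discriminant -/
def disc {R : Type*} [CommRing R] (v : Fin 4 → R) : R :=
  v 1 ^ 2 * v 2 ^ 2 - 4 * v 0 * v 2 ^ 3 - 4 * v 1 ^ 3 * v 3 - 27 * v 0 ^ 2 * v 3 ^ 2 + 18 * v 0 * v 1 * v 2 * v 3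

/-- the form `f (p x + q y, r x + s y)` -/
def act {R : Type*} [CommRing R] (p q r s : R) (v : Fin 4 → R) : Fin 4 → R :=
  ![v 0 * p ^ 3 + v 1 * p ^ 2 * r + v 2 * p * r ^ 2 + v 3 * r ^ 3,
    3 * v 0 * p ^ 2 * q + v 1 * (p ^ 2 * s + 2 * p * q * r) + v 2 * (2 * p * r * s + q * r ^ 2) + 3 * v 3 * r ^ 2 * s,
    3 * v 0 * p * q ^ 2 + v 1 * (2 * p * q * s + q ^ 2 * r) + v 2 * (p * s ^ 2 + 2 * q * r * s) + 3 * v 3 * r * s ^ 2,
    v 0 * q ^ 3 + v 1 * q ^ 2 * s + v 2 * q * s ^ 2 + v 3 * s ^ 3]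

theorem ev_act {R : Type*} [CommRing R] (p q r s : R) (v : Fin 4 → R) (x y : R) :
    ev (act p q r s v) x y = ev v (p * x + q * y) (r * x + s * y) := by
  simp only [ev, act, Matrix.cons_val]
  ring

theorem disc_act {R : Type*} [CommRing R] (p q r s : R) (v : Fin 4 → R) :
    disc (act p q r s v) = (p * s - q * r) ^ 6 * disc v := by
  simp only [disc, act, Matrix.cons_val]
  ring

/-- no nontrivial rational zero -/
def Irr (v : Fin 4 → ℤ) : Prop := ∀ x y : ℤ, ev v x y = 0 → x = 0 ∧ y = 0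

/-- reduction of the coefficients -/
def castv (R : Type*) [CommRing R] (v : Fin 4 → ℤ) : Fin 4 → R := fun i => (v i : R)

theorem disc_castv (R : Type*) [CommRing R] (v : Fin 4 → ℤ) : disc (castv R v) = ((disc v : ℤ) : R) := by
  simp only [disc, castv]
  push_cast
  ring

theorem ev_castv (R : Type*) [CommRing R] (v : Fin 4 → ℤ) (x y : ℤ) :
    ev (castv R v) (x : R) (y : R) = ((ev v x y : ℤ) : R) := by
  simp only [ev, castv]
  push_cast
  ring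

/-- the form `a (X - θ Y) (X² - 2 x X Y + (x² + y²) Y²)` with `θ = x + w`: its non-real root is `x + i y` -/
def par (a x w y : ℝ) : Fin 4 → ℝ :=
  ![a, -a * (3 * x + w), a * (x ^ 2 + y ^ 2 + 2 * x * (x + w)), -a * (x + w) * (x ^ 2 + y ^ 2)]

theorem disc_par (a x w y : ℝ) : disc (par a x w y) = -(4 * a ^ 4 * y ^ 2 * (w ^ 2 + y ^ 2) ^ 2) := by
  simp only [disc, par, Matrix.cons_val]
  ring

/-- reduced real form of negative discriminant: the root `x + i y` lies in the (left half of the) fundamental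
domain of the modular group, the leading coefficient is positive -/
def Red (v : Fin 4 → ℝ) : Prop :=
  ∃ a x w y : ℝ, 0 < a ∧ -(1 / 2) ≤ x ∧ x ≤ 0 ∧ 0 < y ∧ 1 ≤ x ^ 2 + y ^ 2 ∧ v = par a x w y

/-- the form has (at least) two zeros in `ℙ¹(𝔽₃)` -/
def Split (v : Fin 4 → ZMod 3) : Prop :=
  ∃ x y x' y' : ZMod 3, x * y' - y * x' ≠ 0 ∧ ev v x y = 0 ∧ ev v x' y' = 0

/-- reduced integral forms with `- Y ≤ disc < 0` -/
def RF (Y : ℝ) : Set (Fin 4 → ℤ) := {v | Red (castv ℝ v) ∧ -Y ≤ ((disc v : ℤ) : ℝ)}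

/-- the body of the domain, scaled to discriminant `≥ -1` and cut at `a ≥ δ` -/
def Sd (δ : ℝ) : Set (Fin 4 → ℝ) :=
  {v | ∃ a x w y : ℝ, δ ≤ a ∧ -(1 / 2) ≤ x ∧ x ≤ 0 ∧ 0 < y ∧ 1 ≤ x ^ 2 + y ^ 2 ∧
    4 * a ^ 4 * y ^ 2 * (w ^ 2 + y ^ 2) ^ 2 ≤ 1 ∧ v = par a x w y}

/-- the parameters of the body -/
def Kd (δ : ℝ) : Set (Fin 4 → ℝ) :=
  {p | δ ≤ p 0 ∧ -(1 / 2) ≤ p 1 ∧ p 1 ≤ 0 ∧ 0 < p 3 ∧ 1 ≤ p 1 ^ 2 + p 3 ^ 2 ∧
    4 * p 0 ^ 4 * p 3 ^ 2 * (p 2 ^ 2 + p 3 ^ 2) ^ 2 ≤ 1}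

/-- the parametrisation as a map of `ℝ⁴` -/
def parF (p : Fin 4 → ℝ) : Fin 4 → ℝ := par (p 0) (p 1) (p 2) (p 3)

theorem Sd_eq (δ : ℝ) : Sd δ = parF '' Kd δ := by
  ext v
  constructor
  · rintro ⟨a, x, w, y, h1, h2, h3, h4, h5, h6, rfl⟩
    exact ⟨![a, x, w, y], ⟨by simpa using h1, by simpa using h2, by simpa using h3, by simpa using h4,
      by simpa using h5, by simpa using h6⟩, by simp [parF]⟩
  · rintro ⟨p, ⟨h1, h2, h3, h4, h5, h6⟩, rfl⟩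
    exact ⟨p 0, p 1, p 2, p 3, h1, h2, h3, h4, h5, h6, rfl⟩

/-- the six classes modulo `12` of `m` such that `3 m` is squarefree -/
def Cls : Finset ℕ := {1, 2, 5, 7, 10, 11}

/-- the primes between `5` and `P` -/
def prs (P : ℕ) : Finset ℕ := (Finset.Icc 5 P).filter Nat.Prime

/-- the discriminant attached to `m` is `- sg m * m` -/
def sg (m : ℕ) : ℤ := if m % 4 = 3 then 1 else 4

/-- the local conditions on a form of discriminant `- sg m * m` for `m = r mod 12` -/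
def Loc (r : ℕ) (v : Fin 4 → ℤ) : Prop :=
  (if r % 4 = 3 then Odd (disc v) else (16 : ℤ) ∣ disc v + 4 * r) ∧ (3 : ℤ) ∣ disc v + r

/-- the squarefree numbers in a class -/
def sfm (r N : ℕ) : Set ℕ := {m | 1 ≤ m ∧ m ≤ N ∧ m % 12 = r ∧ Squarefree m}

open Pool.Agent.Helper51.Pell in
/-- the `m` with `k ∣ u (3 m)` -/
def badm (r : ℕ) (k : ℤ) (N : ℕ) : Set ℕ :=
  {m | m ∈ sfm r N ∧ ∃ t u : ℤ, IsFundamental (3 * m) t u ∧ k ∣ u}

/-- normalised forms with leading coefficient `a` -/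
def TT (a : ℤ) (Y : ℝ) : Set (Fin 4 → ℤ) :=
  {v | v 0 = a ∧ 0 ≤ v 1 ∧ v 1 < 3 * a ∧ -√Y ≤ ((3 * v 0 * v 2 - v 1 ^ 2 : ℤ) : ℝ) ∧
    -Y ≤ ((disc v : ℤ) : ℝ) ∧ disc v < 0}

end Pool.Agent.DUC
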