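import Pool.Agent.DUC.Defs
import Pool.Agent.DUC.Prod

/-!
# DUC/Sf: squarefree numbers in the six classes, and all squarefree numbers

PLAN.  Let `Q = ∏_{p ∈ prs P} p²`.  The number of `m ≤ N` with `m % 12 = r` and `p² ∤ m` for all `p ∈ prs P` is a periodic condition
(period `12 Q`): it is `N/12 ∏ (1 - 1/p²) + O(12 Q)` (`Nat.count` of a periodic predicate, `Nat.filter_Ico_card_eq_of_periodic`; CRT count in one
period; or inclusion-exclusion by induction on the finset of primes: the number of `m ≤ N` in a class mod `k` is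
`N/k + O(1)`, and removing the multiples of `p²` step by step).  For `r ∈ Cls`, `m % 12 = r` makes `m` free of `4` and `9`; so `m` is
squarefree unless `p² ∣ m` for a prime `p ≥ 5`; the `m ≤ N` with `p² ∣ m` for some `p > P` number at most
`Σ_{k > P} N/k² ≤ N/P`.  Let `P → ∞`: `(1/12)(9/π²) = 3/(4π²)` (`prod_tendsto`).
`sf_all` (upper bound): `4 ∤ d`, `9 ∤ d`, `p² ∤ d`: density at most `(3/4)(8/9)(9/π²) = 6/π²`.
-/

set_option autoImplicit false

namespace Pool.Agent.DUC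

open Finset in
private theorem Sf_count (S : Finset ℕ) : (∀ p ∈ S, p.Prime) → ∀ k r N : ℕ, 1 ≤ k → (∀ p ∈ S, Nat.Coprime p k) →
    |(((range N).filter (fun m => m ≡ r [MOD k] ∧ ∀ p ∈ S, ¬ p ^ 2 ∣ m)).card : ℝ)
      - (N : ℝ) / k * ∏ p ∈ S, (1 - 1 / (p : ℝ) ^ 2)| ≤ 2 ^ S.card := by
  classical
  induction S using Finset.induction_on with
  | empty =>
    intro _ k r N hk _
    have h1 : ((range N).filter (fun m => m ≡ r [MOD k] ∧ ∀ p ∈ (∅ : Finset ℕ), ¬ p ^ 2 ∣ m)).card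
        = N.count (fun m => m ≡ r [MOD k]) := by
      rw [Nat.count_eq_card_filter_range]
      congr 1
      ext m
      simp
    rw [h1, Nat.count_modEq_card N (by omega) r]
    have hk' : (0:ℝ) < k := by exact_mod_cast hk
    have h2 : (N : ℝ) = k * ((N / k : ℕ) : ℝ) + ((N % k : ℕ) : ℝ) := by
      exact_mod_cast (Nat.div_add_mod N k).symm
    have h3 : ((N % k : ℕ) : ℝ) < k := by exact_mod_cast Nat.mod_lt N (by omega)
    have h4 : (0:ℝ) ≤ ((N % k : ℕ) : ℝ) := by positivity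
    have h5 : (N : ℝ) / k = ((N / k : ℕ) : ℝ) + ((N % k : ℕ) : ℝ) / k := by
      rw [h2]
      field_simp
    simp only [prod_empty, mul_one, card_empty, pow_zero]
    have h6 : ((N % k : ℕ) : ℝ) / k ≤ 1 := by
      rw [div_le_one hk']
      exact h3.le
    have h7 : 0 ≤ ((N % k : ℕ) : ℝ) / k := by positivity
    rw [abs_le]
    push_cast
    rw [h5]
    split_ifs <;> constructor <;> linarith
  | insert q S hq ih =>
    intro hS k r N hk hco
    have hqp : q.Prime := hS q (mem_insert_self q S)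
    have hS' : ∀ p ∈ S, p.Prime := fun p hp => hS p (mem_insert_of_mem hp)
    have hqk : Nat.Coprime q k := hco q (mem_insert_self q S)
    have hqk2 : Nat.Coprime k (q ^ 2) := (Nat.Coprime.pow_left 2 hqk).symm
    obtain ⟨r', hr1, hr2⟩ := Nat.chineseRemainder hqk2 r 0
    have h1 := ih hS' k r N hk (fun p hp => hco p (mem_insert_of_mem hp))
    have h2 := ih hS' (k * q ^ 2) r' N (Nat.mul_pos hk (pow_pos hqp.pos 2)) (fun p hp => by
      refine Nat.Coprime.mul_right (hco p (mem_insert_of_mem hp)) (Nat.Coprime.pow_right 2 ?_)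
      rw [Nat.coprime_primes (hS' p hp) hqp]
      rintro rfl
      exact hq hp)
    have h3 : ((range N).filter (fun m => m ≡ r [MOD k] ∧ ∀ p ∈ S, ¬ p ^ 2 ∣ m)).card
        = ((range N).filter (fun m => m ≡ r [MOD k] ∧ ∀ p ∈ insert q S, ¬ p ^ 2 ∣ m)).card
        + ((range N).filter (fun m => m ≡ r' [MOD (k * q ^ 2)] ∧ ∀ p ∈ S, ¬ p ^ 2 ∣ m)).card := by
      rw [← card_filter_add_card_filter_not (s := (range N).filter (fun m => m ≡ r [MOD k] ∧ ∀ p ∈ S, ¬ p ^ 2 ∣ m))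
        (fun m => ¬ q ^ 2 ∣ m)]
      congr 1
      · congr 1
        ext m
        simp only [mem_filter, mem_range, mem_insert]
        constructor
        · rintro ⟨⟨h1, h2, h3⟩, h4⟩
          refine ⟨h1, h2, ?_⟩
          rintro p (rfl | hp)
          · exact h4
          · exact h3 p hp
        · rintro ⟨h1, h2, h3⟩
          exact ⟨⟨h1, h2, fun p hp => h3 p (Or.inr hp)⟩, h3 q (Or.inl rfl)⟩
      · congr 1
        ext m
        simp only [mem_filter, mem_range, not_not]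
        rw [← Nat.modEq_and_modEq_iff_modEq_mul hqk2]
        constructor
        · rintro ⟨⟨h1, h2, h3⟩, h4⟩
          refine ⟨h1, ⟨h2.trans hr1.symm, ?_⟩, h3⟩
          exact ((Nat.modEq_zero_iff_dvd).2 h4).trans hr2.symm
        · rintro ⟨h1, ⟨h2, h4⟩, h3⟩
          exact ⟨⟨h1, h2.trans hr1, h3⟩, (Nat.modEq_zero_iff_dvd).1 (h4.trans hr2)⟩
    rw [prod_insert hq, card_insert_of_notMem hq, pow_succ 2 S.card]
    have h4 : (((range N).filter (fun m => m ≡ r [MOD k] ∧ ∀ p ∈ S, ¬ p ^ 2 ∣ m)).card : ℝ)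
        = (((range N).filter (fun m => m ≡ r [MOD k] ∧ ∀ p ∈ insert q S, ¬ p ^ 2 ∣ m)).card : ℝ)
        + (((range N).filter (fun m => m ≡ r' [MOD (k * q ^ 2)] ∧ ∀ p ∈ S, ¬ p ^ 2 ∣ m)).card : ℝ) := by
      exact_mod_cast h3
    have hk' : (0:ℝ) < k := by exact_mod_cast hk
    have hq' : (0:ℝ) < q := by exact_mod_cast hqp.pos
    have h5 : (N : ℝ) / k * ((1 - 1 / (q : ℝ) ^ 2) * ∏ p ∈ S, (1 - 1 / (p : ℝ) ^ 2))
        = (N : ℝ) / k * ∏ p ∈ S, (1 - 1 / (p : ℝ) ^ 2)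
        - (N : ℝ) / ((k * q ^ 2 : ℕ) : ℝ) * ∏ p ∈ S, (1 - 1 / (p : ℝ) ^ 2) := by
      push_cast
      field_simp
    rw [h5]
    rw [abs_le] at h1 h2 ⊢
    constructor <;> linarith [h1.1, h1.2, h2.1, h2.2]

open Finset Classical in
private theorem Sf_tail (P N : ℕ) (hP : 1 ≤ P) :
    (((Ioc 0 N).filter (fun m => ∃ k, P < k ∧ k ^ 2 ∣ m)).card : ℝ) ≤ N / P := by
  have h1 : (Ioc 0 N).filter (fun m => ∃ k, P < k ∧ k ^ 2 ∣ m)
      ⊆ (Ioc P N).biUnion (fun k => (Ioc 0 N).filter (fun m => k ^ 2 ∣ m)) := by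
    intro m hm
    simp only [mem_filter, mem_Ioc, mem_biUnion] at hm ⊢
    obtain ⟨⟨h1, h2⟩, k, h3, h4⟩ := hm
    refine ⟨k, ⟨h3, ?_⟩, ⟨h1, h2⟩, h4⟩
    have := Nat.le_of_dvd h1 h4
    nlinarith
  have h2 : ((Ioc 0 N).filter (fun m => ∃ k, P < k ∧ k ^ 2 ∣ m)).card ≤ ∑ k ∈ Ioc P N, N / k ^ 2 := by
    refine (card_le_card h1).trans (card_biUnion_le.trans (le_of_eq ?_))
    refine sum_congr rfl fun k _ => ?_
    exact Nat.Ioc_filter_dvd_card_eq_div N (k ^ 2)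
  have hP' : (0:ℝ) < P := by exact_mod_cast hP
  rcases le_or_gt P N with hPN | hPN
  · calc (((Ioc 0 N).filter (fun m => ∃ k, P < k ∧ k ^ 2 ∣ m)).card : ℝ)
        ≤ ((∑ k ∈ Ioc P N, N / k ^ 2 : ℕ) : ℝ) := by exact_mod_cast h2
      _ ≤ ∑ k ∈ Ioc P N, (N : ℝ) * ((k : ℝ) ^ 2)⁻¹ := by
          push_cast
          refine sum_le_sum fun k _ => ?_
          refine (Nat.cast_div_le).trans (le_of_eq ?_)
          push_cast
          rw [div_eq_mul_inv]
      _ = N * ∑ k ∈ Ioc P N, ((k : ℝ) ^ 2)⁻¹ := by rw [mul_sum]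
      _ ≤ N * ((P : ℝ)⁻¹ - (N : ℝ)⁻¹) := by
          refine mul_le_mul_of_nonneg_left ?_ (by positivity)
          exact sum_Ioc_inv_sq_le_sub (by omega) hPN
      _ ≤ N * (P : ℝ)⁻¹ := by
          refine mul_le_mul_of_nonneg_left ?_ (by positivity)
          have : (0:ℝ) ≤ (N : ℝ)⁻¹ := by positivity
          linarith
      _ = N / P := by rw [div_eq_mul_inv]
  · rw [Ioc_eq_empty (a := P) (b := N) (by omega), sum_empty] at h2
    have h3 : ((Ioc 0 N).filter (fun m => ∃ k, P < k ∧ k ^ 2 ∣ m)).card = 0 := by omega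
    rw [h3]
    simp only [Nat.cast_zero]
    positivity

private theorem Sf_prs {P p : ℕ} (hp : p ∈ prs P) : 5 ≤ p ∧ p ≤ P ∧ p.Prime := by
  simp only [prs, Finset.mem_filter, Finset.mem_Icc] at hp
  exact ⟨hp.1.1, hp.1.2, hp.2⟩

private theorem Sf_prod_nonneg (P : ℕ) : 0 ≤ ∏ p ∈ prs P, (1 - 1 / (p : ℝ) ^ 2) := by
  refine Finset.prod_nonneg fun p hp => ?_
  obtain ⟨h1, -, -⟩ := Sf_prs hp
  have h2 : (5:ℝ) ≤ p := by exact_mod_cast h1
  have h3 : 1 / (p : ℝ) ^ 2 ≤ 1 := by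
    rw [div_le_one (by positivity)]
    nlinarith
  linarith

private theorem Sf_r {r : ℕ} (hr : r ∈ Cls) {m : ℕ} (hm : m ≡ r [MOD 12]) :
    m % 12 = r ∧ m ≠ 0 ∧ ¬ 2 ^ 2 ∣ m ∧ ¬ 3 ^ 2 ∣ m := by
  simp only [Cls, Finset.mem_insert, Finset.mem_singleton] at hr
  unfold Nat.ModEq at hm
  rcases hr with rfl | rfl | rfl | rfl | rfl | rfl <;>
  · refine ⟨by omega, by omega, by omega, by omega⟩

open Finset Classical in
private theorem Sf_low (r : ℕ) (hr : r ∈ Cls) (P N : ℕ) (hP : 1 ≤ P) :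
    ((N + 1 : ℕ) : ℝ) / 12 * ∏ p ∈ prs P, (1 - 1 / (p : ℝ) ^ 2) - 2 ^ (prs P).card - N / P
      ≤ ((sfm r N).ncard : ℝ) := by
  have h1 := Sf_count (prs P) (fun p hp => (Sf_prs hp).2.2) 12 r (N + 1) (by norm_num) (fun p hp => by
    obtain ⟨h1, -, h3⟩ := Sf_prs hp
    have h4 : Nat.Coprime p (2 ^ 2 * 3) := by
      refine Nat.Coprime.mul_right (Nat.Coprime.pow_right 2 ?_) ?_
      · rw [Nat.coprime_primes h3 Nat.prime_two]
        omega
      · rw [Nat.coprime_primes h3 Nat.prime_three]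
        omega
    simpa using h4)
  have h2 : sfm r N = (((Icc 1 N).filter (fun m => m % 12 = r ∧ Squarefree m) : Finset ℕ) : Set ℕ) := by
    ext m
    simp only [sfm, Set.mem_ofPred_eq, coe_filter, mem_Icc]
    tauto
  have h3 : (range (N + 1)).filter (fun m => m ≡ r [MOD 12] ∧ ∀ p ∈ prs P, ¬ p ^ 2 ∣ m)
      ⊆ (Icc 1 N).filter (fun m => m % 12 = r ∧ Squarefree m)
        ∪ (Ioc 0 N).filter (fun m => ∃ k, P < k ∧ k ^ 2 ∣ m) := by
    intro m hm
    simp only [mem_filter, mem_range, mem_union, mem_Icc, mem_Ioc] at hm ⊢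
    obtain ⟨h3, h4, h5⟩ := hm
    obtain ⟨h6, h7, h8, h9⟩ := Sf_r hr h4
    by_cases hs : Squarefree m
    · left
      exact ⟨⟨by omega, by omega⟩, h6, hs⟩
    · right
      refine ⟨⟨by omega, by omega⟩, ?_⟩
      rw [Nat.squarefree_iff_prime_squarefree] at hs
      push Not at hs
      obtain ⟨p, hp, hpm⟩ := hs
      rw [← pow_two] at hpm
      refine ⟨p, ?_, hpm⟩
      by_contra hpP
      have h10 : p ≠ 2 := by
        rintro rfl
        exact h8 hpm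
      have h11 : p ≠ 3 := by
        rintro rfl
        exact h9 hpm
      have h12 : p ≠ 4 := by
        rintro rfl
        revert hp
        decide
      have h13 := hp.two_le
      refine h5 p ?_ hpm
      simp only [prs, mem_filter, mem_Icc]
      exact ⟨⟨by omega, by omega⟩, hp⟩
  have h4 := (card_le_card h3).trans (card_union_le _ _)
  have h5 := Sf_tail P N hP
  rw [h2, Set.ncard_coe_finset]
  have h6 : (((range (N + 1)).filter (fun m => m ≡ r [MOD 12] ∧ ∀ p ∈ prs P, ¬ p ^ 2 ∣ m)).card : ℝ)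
      ≤ (((Icc 1 N).filter (fun m => m % 12 = r ∧ Squarefree m)).card : ℝ)
        + (((Ioc 0 N).filter (fun m => ∃ k, P < k ∧ k ^ 2 ∣ m)).card : ℝ) := by exact_mod_cast h4
  rw [abs_le] at h1
  have h7 := h1.1
  norm_num at h7 ⊢
  linarith

open Finset Classical in
private theorem Sf_up (P N : ℕ) :
    ({d : ℕ | d ≤ N ∧ Squarefree d}.ncard : ℝ)
      ≤ ((N + 1 : ℕ) : ℝ) * (2 / 3 * ∏ p ∈ prs P, (1 - 1 / (p : ℝ) ^ 2)) + 2 ^ ((prs P).card + 2) := by
  have hn3 : 3 ∉ prs P := fun h => by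
    have := (Sf_prs h).1
    omega
  have hn2 : 2 ∉ insert 3 (prs P) := fun h => by
    rcases mem_insert.1 h with h | h
    · omega
    · have := (Sf_prs h).1
      omega
  have h1 := Sf_count (insert 2 (insert 3 (prs P))) (fun p hp => by
    rcases mem_insert.1 hp with rfl | hp
    · exact Nat.prime_two
    rcases mem_insert.1 hp with rfl | hp
    · exact Nat.prime_three
    exact (Sf_prs hp).2.2) 1 0 (N + 1) le_rfl (fun p _ => Nat.coprime_one_right p)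
  rw [prod_insert hn2, prod_insert hn3, card_insert_of_notMem hn2, card_insert_of_notMem hn3] at h1
  have h2 : {d : ℕ | d ≤ N ∧ Squarefree d} ⊆
      (((range (N + 1)).filter (fun m => m ≡ 0 [MOD 1] ∧ ∀ p ∈ insert 2 (insert 3 (prs P)), ¬ p ^ 2 ∣ m) :
        Finset ℕ) : Set ℕ) := by
    rintro m ⟨h3, h4⟩
    rw [mem_coe, mem_filter, mem_range]
    refine ⟨by omega, Nat.modEq_one, ?_⟩
    intro p hp h5
    have hpp : p.Prime := by
      rcases mem_insert.1 hp with rfl | hp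
      · exact Nat.prime_two
      rcases mem_insert.1 hp with rfl | hp
      · exact Nat.prime_three
      exact (Sf_prs hp).2.2
    rw [Nat.squarefree_iff_prime_squarefree] at h4
    rw [pow_two] at h5
    exact h4 p hpp h5
  have h3 := Set.ncard_le_ncard h2 (finite_toSet _)
  rw [Set.ncard_coe_finset] at h3
  have h4 : ({d : ℕ | d ≤ N ∧ Squarefree d}.ncard : ℝ) ≤
    (((range (N + 1)).filter (fun m => m ≡ 0 [MOD 1] ∧ ∀ p ∈ insert 2 (insert 3 (prs P)), ¬ p ^ 2 ∣ m)).card : ℝ) := by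
    exact_mod_cast h3
  rw [abs_le] at h1
  refine h4.trans ?_
  have h5 := h1.2
  have h6 : ((N + 1 : ℕ) : ℝ) / ((1 : ℕ) : ℝ) * ((1 - 1 / ((2 : ℕ) : ℝ) ^ 2) * ((1 - 1 / ((3 : ℕ) : ℝ) ^ 2)
      * ∏ p ∈ prs P, (1 - 1 / (p : ℝ) ^ 2)))
      = ((N + 1 : ℕ) : ℝ) * (2 / 3 * ∏ p ∈ prs P, (1 - 1 / (p : ℝ) ^ 2)) := by
    push_cast
    ring
  rw [h6] at h5
  have h7 : (2:ℝ) ^ ((prs P).card + 1 + 1) = 2 ^ ((prs P).card + 2) := by ring
  linarith

theorem sf_class (r : ℕ) (hr : r ∈ Cls) (ε : ℝ) (hε : 0 < ε) :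
    ∀ᶠ N : ℕ in Filter.atTop, (3 / (4 * Real.pi ^ 2) - ε) * N ≤ ((sfm r N).ncard : ℝ) := by
  have h1 : ∀ᶠ P : ℕ in Filter.atTop, 9 / Real.pi ^ 2 - ε ≤ ∏ p ∈ prs P, (1 - 1 / (p : ℝ) ^ 2) :=
    prod_tendsto.eventually_const_le (by linarith)
  have h2 : ∀ᶠ P : ℕ in Filter.atTop, 4 / ε ≤ (P : ℝ) := by
    filter_upwards [Filter.eventually_ge_atTop (Nat.ceil (4 / ε))] with P hP
    exact (Nat.ceil_le.1 hP)
  obtain ⟨P, hP1, hP2, hP3⟩ := (h1.and (h2.and (Filter.eventually_ge_atTop 1))).exists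
  filter_upwards [Filter.eventually_ge_atTop (Nat.ceil (4 * 2 ^ (prs P).card / ε))] with N hN
  have hN' := Nat.ceil_le.1 hN
  have h3 := Sf_low r hr P N hP3
  have h4 : (2:ℝ) ^ (prs P).card ≤ ε / 4 * N := by
    rw [div_le_iff₀ hε] at hN'
    linarith
  have hP' : (0:ℝ) < P := by exact_mod_cast hP3
  have hN0 : (0:ℝ) ≤ N := by positivity
  have h5 : (N : ℝ) / P ≤ ε / 4 * N := by
    rw [div_le_iff₀ hε] at hP2
    rw [div_le_iff₀ hP']
    nlinarith
  have h6 : (N : ℝ) / 12 * (9 / Real.pi ^ 2 - ε) ≤ ((N + 1 : ℕ) : ℝ) / 12 * ∏ p ∈ prs P, (1 - 1 / (p : ℝ) ^ 2) := by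
    refine (mul_le_mul_of_nonneg_left hP1 (by positivity)).trans (mul_le_mul_of_nonneg_right ?_ (Sf_prod_nonneg P))
    push_cast
    linarith
  have h7 : (3 / (4 * Real.pi ^ 2) - ε) * N = (N : ℝ) / 12 * (9 / Real.pi ^ 2 - ε) - (11 / 12) * ε * N := by
    have : Real.pi ≠ 0 := Real.pi_ne_zero
    field_simp
    ring
  rw [h7]
  nlinarith

theorem sf_all (ε : ℝ) (hε : 0 < ε) :
    ∀ᶠ N : ℕ in Filter.atTop, ({d : ℕ | d ≤ N ∧ Squarefree d}.ncard : ℝ) ≤ (6 / Real.pi ^ 2 + ε) * N := by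
  have h1 : ∀ᶠ P : ℕ in Filter.atTop, ∏ p ∈ prs P, (1 - 1 / (p : ℝ) ^ 2) ≤ 9 / Real.pi ^ 2 + ε / 2 :=
    prod_tendsto.eventually_le_const (by linarith)
  obtain ⟨P, hP⟩ := h1.exists
  set C : ℝ := (9 / Real.pi ^ 2 + ε / 2) + 2 ^ ((prs P).card + 2) with hC
  have hC0 : 0 < 9 / Real.pi ^ 2 := by positivity
  filter_upwards [Filter.eventually_ge_atTop (Nat.ceil (2 * C / ε))] with N hN
  have hN' := Nat.ceil_le.1 hN
  rw [div_le_iff₀ hε] at hN'
  have h3 := Sf_up P N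
  have hN0 : (0:ℝ) ≤ N := by positivity
  have h4 : ((N + 1 : ℕ) : ℝ) * (2 / 3 * ∏ p ∈ prs P, (1 - 1 / (p : ℝ) ^ 2))
      ≤ ((N + 1 : ℕ) : ℝ) * (2 / 3 * (9 / Real.pi ^ 2 + ε / 2)) :=
    mul_le_mul_of_nonneg_left (by linarith) (by positivity)
  push_cast at h3 h4
  have h5 : (6 / Real.pi ^ 2 + ε) * N = N * (2 / 3 * (9 / Real.pi ^ 2 + ε / 2)) + 2 / 3 * ε * N := by
    ring
  rw [h5]
  nlinarith

end Pool.Agent.DUC
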