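import Pool.Agent.DUC.Defs

/-!
# DUC/Unit: existence of the fundamental unit

PLAN.  `Pell.exists_of_not_isSquare` (Mathlib) gives `x² - d y² = 1`, `y ≠ 0`; take absolute values: `x, y > 0`.  If
`d % 4 = 1` use the pair `(2x, 2y)` (value `x + y √d`), otherwise `(x, y)`; this is a unit pair with value `> 1`.
Let `B` be its value.  The set of unit pairs with `1 < unitVal ≤ B` is finite: both coordinates are positive by
`pos_of_gt` (used with `e = 2` resp. `e = 1`), so `t, u ≤ 2 B` (`√d ≥ 1`).  Take the pair of least value in this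
nonempty finite set (`Set.exists_min_image`).  `d` is not a square since it is squarefree and `> 1`.
-/

set_option autoImplicit false

namespace Pool.Agent.DUC

open Pool.Agent.Helper51.Pell

private theorem Unit_start (d : ℕ) (hd : Squarefree d) (h1 : 1 < d) :
    ∃ t u : ℤ, IsUnitPair d t u ∧ 1 < unitVal d t u := by
  have hsq : ¬ IsSquare (d : ℤ) := by
    rintro ⟨r, hr⟩
    have h2 : d = r.natAbs * r.natAbs := by
      have h3 : ((r.natAbs * r.natAbs : ℕ) : ℤ) = r * r := by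
        push_cast
        exact abs_mul_abs_self r
      have h4 : ((d : ℕ) : ℤ) = ((r.natAbs * r.natAbs : ℕ) : ℤ) := by rw [h3, hr]
      exact_mod_cast h4
    have h5 : IsUnit r.natAbs := hd _ (by rw [← h2])
    rw [Nat.isUnit_iff] at h5
    rw [h5] at h2
    omega
  obtain ⟨x, y, hxy, hy⟩ := Pell.exists_of_not_isSquare (by omega : (0 : ℤ) < d) hsq
  have hX : |x| ^ 2 - (d : ℤ) * |y| ^ 2 = 1 := by rw [sq_abs, sq_abs]; exact hxy
  have hY1 : 1 ≤ |y| := Int.one_le_abs hy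
  have hX1 : 1 ≤ |x| := by
    apply Int.one_le_abs
    rintro rfl
    have h6 : 0 ≤ (d : ℤ) * y ^ 2 := by positivity
    nlinarith
  have hs : (0 : ℝ) < √(d : ℝ) := Real.sqrt_pos.2 (by exact_mod_cast (by omega : 0 < d))
  have hXr : (1 : ℝ) ≤ ((|x| : ℤ) : ℝ) := by exact_mod_cast hX1
  have hYr : (1 : ℝ) ≤ ((|y| : ℤ) : ℝ) := by exact_mod_cast hY1
  have hval : (1 : ℝ) < ((|x| : ℤ) : ℝ) + ((|y| : ℤ) : ℝ) * √(d : ℝ) := by
    have h7 : 0 < ((|y| : ℤ) : ℝ) * √(d : ℝ) := by positivity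
    linarith
  by_cases h4 : d % 4 = 1
  · refine ⟨2 * |x|, 2 * |y|, ?_, ?_⟩
    · unfold IsUnitPair
      rw [if_pos h4]
      left
      linear_combination 4 * hX
    · unfold unitVal
      rw [if_pos h4]
      push_cast at hval ⊢
      linarith
  · refine ⟨|x|, |y|, ?_, ?_⟩
    · unfold IsUnitPair
      rw [if_neg h4]
      left
      exact hX
    · unfold unitVal
      rw [if_neg h4]
      exact hval

private theorem Unit_bound (d : ℕ) (h1 : 1 < d) (B : ℝ) (t u : ℤ) (h : IsUnitPair d t u)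
    (hv : 1 < unitVal d t u) (hB : unitVal d t u ≤ B) :
    0 < t ∧ 0 < u ∧ (t : ℝ) ≤ 2 * B ∧ (u : ℝ) ≤ 2 * B := by
  have hs1 : (1 : ℝ) ≤ √(d : ℝ) := by
    rw [Real.one_le_sqrt]
    exact_mod_cast h1.le
  have key : 0 < t ∧ 0 < u ∧ (t : ℝ) + u * √(d : ℝ) ≤ 2 * B := by
    unfold IsUnitPair at h
    unfold unitVal at hv hB
    by_cases h4 : d % 4 = 1
    · rw [if_pos h4] at h hv hB
      have h5 := pos_of_gt d (by omega) 2 (by norm_num) t u (by norm_num; exact h)
        (by push_cast; linarith)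
      exact ⟨h5.1, h5.2, by linarith⟩
    · rw [if_neg h4] at h hv hB
      have h5 := pos_of_gt d (by omega) 1 (by norm_num) t u (by norm_num; exact h)
        (by push_cast; linarith)
      exact ⟨h5.1, h5.2, by linarith⟩
  obtain ⟨ht, hu, hle⟩ := key
  have htr : (0 : ℝ) < t := by exact_mod_cast ht
  have hur : (0 : ℝ) < u := by exact_mod_cast hu
  refine ⟨ht, hu, ?_, ?_⟩
  · nlinarith
  · nlinarith

theorem exists_fundamental (d : ℕ) (hd : Squarefree d) (h1 : 1 < d) : ∃ t u : ℤ, IsFundamental d t u := by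
  obtain ⟨t0, u0, h0, hv0⟩ := Unit_start d hd h1
  set B : ℝ := unitVal d t0 u0 with hB
  set S : Set (ℤ × ℤ) := {p | IsUnitPair d p.1 p.2 ∧ 1 < unitVal d p.1 p.2 ∧ unitVal d p.1 p.2 ≤ B} with hS
  have hfin : S.Finite := by
    apply Set.Finite.subset (Set.finite_Icc ((0 : ℤ), (0 : ℤ)) (⌈2 * B⌉, ⌈2 * B⌉))
    rintro ⟨t, u⟩ ⟨h2, h3, h4⟩
    obtain ⟨h5, h6, h7, h8⟩ := Unit_bound d h1 B t u h2 h3 h4
    refine ⟨⟨h5.le, h6.le⟩, ?_, ?_⟩
    · exact_mod_cast h7.trans (Int.le_ceil _)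
    · exact_mod_cast h8.trans (Int.le_ceil _)
  have hne : S.Nonempty := ⟨(t0, u0), h0, hv0, le_refl _⟩
  obtain ⟨⟨t, u⟩, ⟨h2, h3, h4⟩, hmin⟩ := Set.exists_min_image S (fun p => unitVal d p.1 p.2) hfin hne
  refine ⟨t, u, h2, h3, ?_⟩
  intro t' u' h5 h6
  by_cases h7 : unitVal d t' u' ≤ B
  · exact hmin (t', u') ⟨h5, h6, h7⟩
  · exact h4.trans (not_le.1 h7).le

end Pool.Agent.DUC
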