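import Pool.Agent.DUC.Defs
import Pool.Agent.DUC.Unit
import Pool.Agent.DUC.Bad
import Pool.Agent.DUC.Sf

/-!
# DUC/Main: the theorem

`d = 3 m` is squarefree iff `m` is squarefree and `m % 12 ∈ Cls`, so the squarefree multiples of `3` up to `N` correspond to
the union of the six sets `sfm r (N / 3)`.  Every such `d` has a fundamental unit, so it is good or bad; the number of bad `d`
is bounded by `bad_le` and `bad_le9`, the number of all `d` by `sf_class`, and the number of all squarefree numbers by `sf_all`.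
-/

set_option autoImplicit false

namespace Pool.Agent.DUC

open Pool.Agent.Helper51.Pell

/-- the squarefree multiples of `3` up to `N` -/
def S3 (N : ℕ) : Set ℕ := {d | d ≤ N ∧ Squarefree d ∧ 3 ∣ d}

/-- the squarefree numbers up to `N` -/
def SA (N : ℕ) : Set ℕ := {d | d ≤ N ∧ Squarefree d}

/-- the bad multiples of `3` -/
private def Main_bad (k : ℤ) (N : ℕ) : Set ℕ := {d | d ∈ S3 N ∧ ∃ t u : ℤ, IsFundamental d t u ∧ k ∣ u}

/-- the good multiples of `3` -/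
private def Main_good (k : ℤ) (N : ℕ) : Set ℕ := {d | d ∈ S3 N ∧ ∃ t u : ℤ, IsFundamental d t u ∧ ¬ k ∣ u}

private theorem Main_fin (N : ℕ) : (S3 N).Finite := (Set.finite_Iic N).subset fun _ hd => hd.1

private theorem Main_finsub (N : ℕ) {A : Set ℕ} (h : A ⊆ S3 N) : A.Finite := (Main_fin N).subset h

private theorem Main_sfm_fin (r n : ℕ) : (sfm r n).Finite := (Set.finite_Iic n).subset fun _ hd => hd.2.1

private theorem Main_le (k : ℤ) (N : ℕ) : (S3 N).ncard ≤ (Main_good k N).ncard + (Main_bad k N).ncard := by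
  have h : S3 N ⊆ Main_good k N ∪ Main_bad k N := by
    intro d hd
    obtain ⟨t, u, h⟩ := exists_fundamental d hd.2.1 (by
      have h1 : d ≠ 0 := hd.2.1.ne_zero
      have := Nat.le_of_dvd (Nat.pos_of_ne_zero h1) hd.2.2
      omega)
    by_cases hk : k ∣ u
    · exact Or.inr ⟨hd, t, u, h, hk⟩
    · exact Or.inl ⟨hd, t, u, h, hk⟩
  have hf : (Main_good k N ∪ Main_bad k N).Finite :=
    (Main_finsub N fun _ hd => hd.1).union (Main_finsub N fun _ hd => hd.1)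
  exact (Set.ncard_le_ncard h hf).trans (Set.ncard_union_le _ _)

private theorem Main_div {N d : ℕ} (hd : d ∈ S3 N) : ∃ m r, d = 3 * m ∧ r ∈ Cls ∧ m ∈ sfm r (N / 3) := by
  obtain ⟨h1, h2, m, rfl⟩ := hd
  obtain ⟨h3, -, h4⟩ := Nat.squarefree_mul_iff.1 h2
  have h5 : ¬ 3 ∣ m := (Nat.Prime.coprime_iff_not_dvd Nat.prime_three).1 h3
  have h6 : ¬ 4 ∣ m := by
    intro h
    have h7 := h4 2 h
    rw [Nat.isUnit_iff] at h7
    omega
  have h7 : m ≠ 0 := h4.ne_zero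
  refine ⟨m, m % 12, rfl, ?_, by omega, by omega, rfl, h4⟩
  simp only [Cls, Finset.mem_insert, Finset.mem_singleton]
  omega

private theorem Main_mem {N m r : ℕ} (hr : r ∈ Cls) (hm : m ∈ sfm r (N / 3)) : 3 * m ∈ S3 N := by
  obtain ⟨h1, h2, h3, h4⟩ := hm
  refine ⟨by omega, ?_, Nat.dvd_mul_right 3 m⟩
  have h5 : ¬ 3 ∣ m := by
    simp only [Cls, Finset.mem_insert, Finset.mem_singleton] at hr
    omega
  exact Nat.squarefree_mul_iff.2 ⟨(Nat.Prime.coprime_iff_not_dvd Nat.prime_three).2 h5, Nat.prime_three.squarefree, h4⟩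

private theorem Main_bad_le (k : ℤ) (N : ℕ) :
    ((Main_bad k N).ncard : ℝ) ≤ ∑ r ∈ Cls, ((badm r k (N / 3)).ncard : ℝ) := by
  have hf : (⋃ r ∈ Cls, badm r k (N / 3)).Finite :=
    Cls.finite_toSet.biUnion fun r _ => (Main_sfm_fin r (N / 3)).subset fun _ hm => hm.1
  have h : Main_bad k N ⊆ (fun m => 3 * m) '' ⋃ r ∈ Cls, badm r k (N / 3) := by
    rintro d ⟨hd, t, u, h1, h2⟩
    obtain ⟨m, r, rfl, hr, hm⟩ := Main_div hd
    exact ⟨m, Set.mem_biUnion hr ⟨hm, t, u, h1, h2⟩, rfl⟩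
  have h1 := (Set.ncard_le_ncard h (hf.image _)).trans
    ((Set.ncard_image_le hf).trans (Cls.set_ncard_biUnion_le fun r => badm r k (N / 3)))
  exact_mod_cast h1

private theorem Main_total (N : ℕ) : ∑ r ∈ Cls, ((sfm r (N / 3)).ncard : ℝ) ≤ ((S3 N).ncard : ℝ) := by
  classical
  let F : Finset ℕ := (Finset.range (N / 3 + 1)).filter fun m => m % 12 ∈ Cls ∧ Squarefree m ∧ 1 ≤ m
  have hF : ∀ m, m ∈ F ↔ m ≤ N / 3 ∧ m % 12 ∈ Cls ∧ Squarefree m ∧ 1 ≤ m := by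
    intro m
    simp only [F, Finset.mem_filter, Finset.mem_range, Nat.lt_succ_iff]
  have h1 : F.card = ∑ r ∈ Cls, (F.filter fun m => m % 12 = r).card :=
    Finset.card_eq_sum_card_fiberwise fun m hm => ((hF m).1 hm).2.1
  have h2 : ∀ r ∈ Cls, (sfm r (N / 3)).ncard = (F.filter fun m => m % 12 = r).card := by
    intro r hr
    rw [← Set.ncard_coe_finset]
    congr 1
    ext m
    simp only [Finset.coe_filter, Set.mem_setOf_eq, hF, sfm]
    constructor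
    · rintro ⟨a1, a2, a3, a4⟩
      exact ⟨⟨a2, a3 ▸ hr, a4, a1⟩, a3⟩
    · rintro ⟨⟨a1, a2, a3, a4⟩, a5⟩
      exact ⟨a4, a1, a5, a3⟩
  have h3 : F.card ≤ (S3 N).ncard := by
    have h4 : (F.image fun m => 3 * m).card = F.card :=
      Finset.card_image_of_injective _ fun a b h => by
        have h : 3 * a = 3 * b := h
        omega
    rw [← h4, ← Set.ncard_coe_finset]
    refine Set.ncard_le_ncard ?_ (Main_fin N)
    intro d hd
    rw [Finset.mem_coe, Finset.mem_image] at hd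
    obtain ⟨m, hm, rfl⟩ := hd
    obtain ⟨a1, a2, a3, a4⟩ := (hF m).1 hm
    exact Main_mem a2 ⟨a4, a1, rfl, a3⟩
  have h5 : ∑ r ∈ Cls, (sfm r (N / 3)).ncard = F.card := by
    rw [h1]
    exact Finset.sum_congr rfl h2
  have h6 : ∑ r ∈ Cls, (sfm r (N / 3)).ncard ≤ (S3 N).ncard := h5.le.trans h3
  exact_mod_cast h6

private theorem Main_sum {f : ℕ → ℝ} {c : ℝ} (h : ∀ r ∈ Cls, f r ≤ c) : ∑ r ∈ Cls, f r ≤ 6 * c := by
  have h1 := Finset.sum_le_card_nsmul Cls f c h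
  have h2 : Cls.card = 6 := rfl
  rw [h2, nsmul_eq_mul] at h1
  exact_mod_cast h1

private theorem Main_sum' {f : ℕ → ℝ} {c : ℝ} (h : ∀ r ∈ Cls, c ≤ f r) : 6 * c ≤ ∑ r ∈ Cls, f r := by
  have h1 := Finset.card_nsmul_le_sum Cls f c h
  have h2 : Cls.card = 6 := rfl
  rw [h2, nsmul_eq_mul] at h1
  exact_mod_cast h1

private theorem Main_sum9 {f : ℕ → ℝ} {c c' : ℝ} (h : ∀ r ∈ Cls, f r ≤ c) (h' : ∀ r ∈ Cls, r % 3 = 2 → f r ≤ c') :
    ∑ r ∈ Cls, f r ≤ 3 * c + 3 * c' := by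
  have e : ∑ r ∈ Cls, f r = f 1 + (f 2 + (f 5 + (f 7 + (f 10 + f 11)))) := by
    unfold Cls
    rw [Finset.sum_insert (by decide), Finset.sum_insert (by decide), Finset.sum_insert (by decide),
      Finset.sum_insert (by decide), Finset.sum_insert (by decide), Finset.sum_singleton]
  rw [e]
  have h1 := h 1 (by decide)
  have h2 := h' 2 (by decide) (by decide)
  have h5 := h' 5 (by decide) (by decide)
  have h7 := h 7 (by decide)
  have h10 := h 10 (by decide)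
  have h11 := h' 11 (by decide) (by decide)
  linarith

private theorem Main_badm_mono (r n : ℕ) : ((badm r 9 n).ncard : ℝ) ≤ ((badm r 3 n).ncard : ℝ) := by
  have h : (badm r 9 n).ncard ≤ (badm r 3 n).ncard := by
    refine Set.ncard_le_ncard ?_ ((Main_sfm_fin r n).subset fun _ hm => hm.1)
    rintro m ⟨h1, t, u, h2, h3⟩
    exact ⟨h1, t, u, h2, (by norm_num : (3 : ℤ) ∣ 9).trans h3⟩
  exact_mod_cast h

private theorem Main_asym (e : ℝ) (he : 0 < e) : ∀ᶠ N : ℕ in Filter.atTop,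
    (9 / 2 * (1 / Real.pi ^ 2) - 6 * e) * ((N / 3 : ℕ) : ℝ) ≤ ((S3 N).ncard : ℝ) ∧
    ((Main_bad 3 N).ncard : ℝ) ≤ (9 / 4 * (1 / Real.pi ^ 2) + 6 * e) * ((N / 3 : ℕ) : ℝ) ∧
    ((Main_bad 9 N).ncard : ℝ) ≤ (3 / 2 * (1 / Real.pi ^ 2) + 6 * e) * ((N / 3 : ℕ) : ℝ) ∧
    ((SA N).ncard : ℝ) ≤ (6 * (1 / Real.pi ^ 2) + e) * (N : ℝ) := by
  have ht : Filter.Tendsto (fun N : ℕ => N / 3) Filter.atTop Filter.atTop :=
    Nat.tendsto_div_const_atTop (by norm_num)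
  have h1 : ∀ᶠ n : ℕ in Filter.atTop, ∀ r ∈ Cls, (3 / (4 * Real.pi ^ 2) - e) * n ≤ ((sfm r n).ncard : ℝ) :=
    (Filter.eventually_all_finset Cls).2 fun r hr => sf_class r hr e he
  have h2 : ∀ᶠ n : ℕ in Filter.atTop, ∀ r ∈ Cls, ((badm r 3 n).ncard : ℝ) ≤ (3 / (8 * Real.pi ^ 2) + e) * n :=
    (Filter.eventually_all_finset Cls).2 fun r hr => bad_le r hr e he
  have h3 : ∀ᶠ n : ℕ in Filter.atTop, ∀ r ∈ Cls, r % 3 = 2 →
      ((badm r 9 n).ncard : ℝ) ≤ (1 / (8 * Real.pi ^ 2) + e) * n := by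
    refine (Filter.eventually_all_finset Cls).2 fun r hr => ?_
    by_cases h : r % 3 = 2
    · exact (bad_le9 r hr h e he).mono fun _ hn _ => hn
    · exact Filter.Eventually.of_forall fun _ h' => absurd h' h
  have h4 := sf_all e he
  filter_upwards [ht.eventually h1, ht.eventually h2, ht.eventually h3, h4] with N a1 a2 a3 a4
  have c1 : (3 : ℝ) / (4 * Real.pi ^ 2) = 3 / 4 * (1 / Real.pi ^ 2) := by
    rw [div_mul_div_comm, mul_one]
  have c2 : (3 : ℝ) / (8 * Real.pi ^ 2) = 3 / 8 * (1 / Real.pi ^ 2) := by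
    rw [div_mul_div_comm, mul_one]
  have c3 : (1 : ℝ) / (8 * Real.pi ^ 2) = 1 / 8 * (1 / Real.pi ^ 2) := by
    rw [div_mul_div_comm, mul_one]
  have c4 : (6 : ℝ) / Real.pi ^ 2 = 6 * (1 / Real.pi ^ 2) := by
    rw [mul_one_div]
  rw [c1] at a1
  rw [c2] at a2
  rw [c3] at a3
  rw [c4] at a4
  refine ⟨?_, ?_, ?_, a4⟩
  · have := (Main_sum' a1).trans (Main_total N)
    linarith
  · have := (Main_bad_le 3 N).trans (Main_sum a2)
    linarith
  · have := (Main_bad_le 9 N).trans (Main_sum9 (fun r hr => (Main_badm_mono r (N / 3)).trans (a2 r hr)) a3)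
    linarith

private theorem Main_r1 {c e ε κ T g b n : ℝ} (hn : 0 ≤ n) (hκ : 0 ≤ κ) (hε : 0 ≤ ε) (h1 : T ≤ g + b)
    (h2 : (9 / 2 * c - 6 * e) * n ≤ T) (h3 : b ≤ (9 / 2 * κ * c + 6 * e) * n)
    (h4 : 6 * κ * e + 6 * ε * e + 6 * e ≤ 9 / 2 * ε * c) : (1 - κ - ε) * T ≤ g := by
  have h5 : (κ + ε) * ((9 / 2 * c - 6 * e) * n) ≤ (κ + ε) * T := mul_le_mul_of_nonneg_left h2 (by positivity)
  have h6 : (9 / 2 * κ * c + 6 * e) * n ≤ (κ + ε) * ((9 / 2 * c - 6 * e) * n) := by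
    rw [← mul_assoc]
    exact mul_le_mul_of_nonneg_right (by linarith) hn
  linarith

private theorem Main_r2 {c e ε μ S g n N : ℝ} (hc : 0 < c) (he : 0 < e) (hε : 0 < ε) (hμ : μ ≤ 1 / 6) (hS : 0 ≤ S)
    (hg : 0 ≤ g) (h1 : S ≤ (6 * c + e) * N) (h2 : (18 * μ * c - 12 * e) * n ≤ g) (h3 : N / 3 - 1 ≤ n)
    (h4 : e ≤ ε * c / 8) (h5 : 1 ≤ ε * N) : (μ - ε) * S ≤ g := by
  rcases le_or_gt μ ε with h | h
  · exact (mul_nonpos_of_nonpos_of_nonneg (by linarith) hS).trans hg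
  · have hN : 0 < N := by
      by_contra hcon
      push Not at hcon
      nlinarith
    have a1 : (μ - ε) * S ≤ (μ - ε) * ((6 * c + e) * N) := mul_le_mul_of_nonneg_left h1 (by linarith)
    have a2 : ε * c ≤ μ * c := mul_le_mul_of_nonneg_right h.le hc.le
    have a3 : (18 * μ * c - 12 * e) * (N / 3 - 1) ≤ (18 * μ * c - 12 * e) * n :=
      mul_le_mul_of_nonneg_left h3 (by nlinarith)
    have a4 : 0 ≤ ε * e * N := by positivity
    have a5 : μ * e * N ≤ 1 / 6 * e * N := by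
      have : 0 ≤ e * N := by positivity
      nlinarith
    have a6 : e * N ≤ ε * c / 8 * N := mul_le_mul_of_nonneg_right h4 hN.le
    have a7 : c ≤ c * (ε * N) := le_mul_of_one_le_right hc.le h5
    have a8 : μ * c ≤ 1 / 6 * c := mul_le_mul_of_nonneg_right hμ hc.le
    nlinarith

theorem main (ε : ℝ) (hε : 0 < ε) : ∀ᶠ N : ℕ in Filter.atTop,
    (1 / 2 - ε) * ((S3 N).ncard : ℝ) ≤
      ({d | d ∈ S3 N ∧ ∃ t u : ℤ, IsFundamental d t u ∧ ¬ (3 : ℤ) ∣ u}.ncard : ℝ) ∧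
    (2 / 3 - ε) * ((S3 N).ncard : ℝ) ≤
      ({d | d ∈ S3 N ∧ ∃ t u : ℤ, IsFundamental d t u ∧ ¬ (9 : ℤ) ∣ u}.ncard : ℝ) ∧
    (1 / 8 - ε) * ((SA N).ncard : ℝ) ≤
      ({d | d ∈ S3 N ∧ ∃ t u : ℤ, IsFundamental d t u ∧ ¬ (d : ℤ) ∣ u}.ncard : ℝ) ∧
    (1 / 6 - ε) * ((SA N).ncard : ℝ) ≤
      ({d | d ∈ S3 N ∧ ∃ t u : ℤ, IsFundamental d t u ∧ ∀ κ : ℕ, 2 ≤ κ → ¬ (d : ℤ) ^ κ ∣ u}.ncard : ℝ) := by
  set c : ℝ := 1 / Real.pi ^ 2 with hc
  have hc0 : 0 < c := by positivity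
  set e : ℝ := ε * c / (8 * (1 + ε)) with he
  have he0 : 0 < e := by positivity
  have he1 : e * (1 + ε) = ε * c / 8 := by
    rw [he]
    field_simp
  have he2 : 0 < ε * e := mul_pos hε he0
  have he3 : 0 < ε * c := mul_pos hε hc0
  have he4 : e ≤ ε * c / 8 := by linarith
  filter_upwards [Main_asym e he0, Filter.eventually_ge_atTop ⌈1 / ε⌉₊] with N hN hN1
  obtain ⟨h1, h2, h3, h4⟩ := hN
  rw [← hc] at h1 h2 h3 h4
  have hN2 : 1 ≤ ε * (N : ℝ) := by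
    have h5 : 1 / ε ≤ (N : ℝ) := (Nat.le_ceil _).trans (by exact_mod_cast hN1)
    rw [div_le_iff₀ hε] at h5
    linarith
  have hn : (0 : ℝ) ≤ ((N / 3 : ℕ) : ℝ) := Nat.cast_nonneg _
  have hn1 : (N : ℝ) / 3 - 1 ≤ ((N / 3 : ℕ) : ℝ) := by
    have h6 : N ≤ 3 * (N / 3) + 3 := by omega
    have h7 : (N : ℝ) ≤ 3 * ((N / 3 : ℕ) : ℝ) + 3 := by exact_mod_cast h6
    linarith
  have l3 : ((S3 N).ncard : ℝ) ≤ (Main_good 3 N).ncard + (Main_bad 3 N).ncard := by exact_mod_cast Main_le 3 N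
  have l9 : ((S3 N).ncard : ℝ) ≤ (Main_good 9 N).ncard + (Main_bad 9 N).ncard := by exact_mod_cast Main_le 9 N
  have g3 : (0 : ℝ) ≤ (Main_good 3 N).ncard := Nat.cast_nonneg _
  have g9 : (0 : ℝ) ≤ (Main_good 9 N).ncard := Nat.cast_nonneg _
  have sa : (0 : ℝ) ≤ (SA N).ncard := Nat.cast_nonneg _
  refine ⟨?_, ?_, ?_, ?_⟩
  · have := Main_r1 (κ := 1 / 2) (ε := ε) hn (by norm_num) hε.le l3 h1 (by
      have e1 : 9 / 2 * (1 / 2) * c = 9 / 4 * c := by ring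
      rw [e1]
      exact h2) (by nlinarith)
    have e2 : (1 : ℝ) - 1 / 2 - ε = 1 / 2 - ε := by ring
    rw [e2] at this
    exact this
  · have := Main_r1 (κ := 1 / 3) (ε := ε) hn (by norm_num) hε.le l9 h1 (by
      have e1 : 9 / 2 * (1 / 3) * c = 3 / 2 * c := by ring
      rw [e1]
      exact h3) (by nlinarith)
    have e2 : (1 : ℝ) - 1 / 3 - ε = 2 / 3 - ε := by ring
    rw [e2] at this
    exact this
  · have h5 := Main_r2 (μ := 1 / 8) hc0 he0 hε (by norm_num) sa g3 h4 (by linarith) hn1 he4 hN2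
    refine h5.trans ?_
    have h6 : (Main_good 3 N).ncard ≤ {d | d ∈ S3 N ∧ ∃ t u : ℤ, IsFundamental d t u ∧ ¬ (d : ℤ) ∣ u}.ncard := by
      refine Set.ncard_le_ncard ?_ (Main_finsub N fun _ hd => hd.1)
      rintro d ⟨hd, t, u, a1, a2⟩
      refine ⟨hd, t, u, a1, fun h => a2 (dvd_trans ?_ h)⟩
      exact_mod_cast hd.2.2
    exact_mod_cast h6
  · have h5 := Main_r2 (μ := 1 / 6) hc0 he0 hε (by norm_num) sa g9 h4 (by linarith) hn1 he4 hN2
    refine h5.trans ?_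
    have h6 : (Main_good 9 N).ncard ≤
        {d | d ∈ S3 N ∧ ∃ t u : ℤ, IsFundamental d t u ∧ ∀ κ : ℕ, 2 ≤ κ → ¬ (d : ℤ) ^ κ ∣ u}.ncard := by
      refine Set.ncard_le_ncard ?_ (Main_finsub N fun _ hd => hd.1)
      rintro d ⟨hd, t, u, a1, a2⟩
      refine ⟨hd, t, u, a1, fun κ hκ h => a2 (dvd_trans ?_ h)⟩
      have h7 : (3 : ℤ) ∣ (d : ℤ) := by exact_mod_cast hd.2.2
      exact (by norm_num : (9 : ℤ) = 3 ^ 2) ▸ (pow_dvd_pow_of_dvd h7 2).trans (pow_dvd_pow _ hκ)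
    exact_mod_cast h6

end Pool.Agent.DUC
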